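import Pool.Agent.H666.TK.SpecC
import Pool.Agent.H666.TK.Basic

/-! `S_point` (helper721): pointwise bound for the sum of the logarithms of the numbers of
extensions. -/

set_option autoImplicit false

open Finset
open scoped Classical

namespace Pool.Agent.H721.TK

open Pool.Agent.H666.TK

/-- the inequality for one index -/
theorem log_bound {n e c y0 : ℝ} (hn : 0 < n) (he : 0 < e) (hec : e + c ≤ n) (hy : y0 < 1) :
    Real.log e ≤ Real.log n - (- Real.log (1 - y0) - y0 / (1 - y0)) -
      1 / n * (c * (1 / (1 - y0))) := by
  have h1 : 0 < 1 - y0 := by linarith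
  have h2 : 0 < e / n := by positivity
  have h3 := Real.log_le_sub_one_of_pos (show 0 < e / n / (1 - y0) by positivity)
  rw [Real.log_div h2.ne' h1.ne', Real.log_div he.ne' hn.ne'] at h3
  have h4 : e / n ≤ 1 - c / n := by
    rw [div_le_iff₀ hn]
    have : (1 - c / n) * n = n - c := by field_simp
    linarith
  have h5 : e / n / (1 - y0) ≤ (1 - c / n) / (1 - y0) := div_le_div_of_nonneg_right h4 h1.le
  have h6 : (1 - c / n) / (1 - y0) - 1 = y0 / (1 - y0) - 1 / n * (c * (1 / (1 - y0))) := by
    field_simp
    ring
  linarith

theorem s_point : S_point := by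
  intro V _ _ H K R v u ρ a b C hv hρ0 hρ1 hC
  unfold Pool.Agent.H666.TK.Seq at hv
  rw [mem_filter] at hv
  obtain ⟨-, hinj, hcl⟩ := hv
  have key : ∀ i : Fin K, Real.log (e H (bef v u i) : ℝ) ≤
      Real.log (Fintype.card V) - psi ρ R (u i) - (1 / (Fintype.card V : ℝ)) *
        (((C.filter fun x => u (a x) < u i ∧ u (b x) < u i).card : ℝ) * lam ρ R (u i)) := by
    intro i
    have hV : Nonempty V := ⟨v i⟩
    have hn : (0 : ℝ) < Fintype.card V := by exact_mod_cast Fintype.card_pos
    have hmem : v i ∈ ext H (bef v u i) := by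
      rw [mem_ext]
      constructor
      · intro h
        unfold bef at h
        rw [mem_image] at h
        obtain ⟨j, hj, hji⟩ := h
        rw [mem_filter] at hj
        have := hinj hji
        subst this
        exact lt_irrefl _ hj.2
      · refine Cl_mono ?_ hcl
        intro x hx
        rw [mem_insert] at hx
        rcases hx with rfl | hx
        · exact mem_image_of_mem v (mem_univ i)
        · unfold bef at hx
          exact image_subset_image (filter_subset _ _) hx
    have he : (0 : ℝ) < (e H (bef v u i) : ℝ) := by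
      have : 0 < e H (bef v u i) := card_pos.2 ⟨v i, hmem⟩
      exact_mod_cast this
    have hdis : Disjoint (ext H (bef v u i))
        (C.filter fun x => u (a x) < u i ∧ u (b x) < u i) := by
      rw [disjoint_left]
      intro x hx hxC
      rw [mem_filter] at hxC
      obtain ⟨hxC, hxa, hxb⟩ := hxC
      obtain ⟨h1, h2, h3⟩ := hC x hxC
      rw [mem_ext] at hx
      apply h3
      have hne : ∀ j, x ≠ v j := fun j hj => h1 (by rw [hj]; exact mem_image_of_mem v (mem_univ j))
      refine hx.2 _ ?_ ?_
      · intro y hy
        rw [mem_insert, mem_insert, mem_singleton] at hy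
        rcases hy with rfl | rfl | rfl
        · exact mem_insert_self _ _
        · exact mem_insert_of_mem (mem_image_of_mem v (mem_filter.2 ⟨mem_univ _, hxa⟩))
        · exact mem_insert_of_mem (mem_image_of_mem v (mem_filter.2 ⟨mem_univ _, hxb⟩))
      · rw [card_insert_of_notMem, card_insert_of_notMem, card_singleton]
        · rw [mem_singleton]
          exact fun h => h2 (hinj h)
        · rw [mem_insert, mem_singleton, not_or]
          exact ⟨hne _, hne _⟩
    have hsum : (e H (bef v u i) : ℝ) +
        ((C.filter fun x => u (a x) < u i ∧ u (b x) < u i).card : ℝ) ≤ Fintype.card V := by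
      have h1 := card_union_of_disjoint hdis
      have h2 := card_le_univ (ext H (bef v u i) ∪
        (C.filter fun x => u (a x) < u i ∧ u (b x) < u i))
      rw [h1] at h2
      unfold e
      exact_mod_cast h2
    have hy : ρ * (((u i : ℕ) : ℝ) / R) ^ 2 < 1 := by
      have hR : (0 : ℝ) < R := by
        have := (u i).pos
        exact_mod_cast this
      have ht : ((u i : ℕ) : ℝ) / R ≤ 1 := by
        rw [div_le_one hR]
        exact_mod_cast (u i).isLt.le
      have ht0 : 0 ≤ ((u i : ℕ) : ℝ) / R := by positivity
      have ht2 : (((u i : ℕ) : ℝ) / R) ^ 2 ≤ 1 := pow_le_one₀ ht0 ht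
      calc ρ * (((u i : ℕ) : ℝ) / R) ^ 2 ≤ ρ * 1 := mul_le_mul_of_nonneg_left ht2 hρ0
        _ < 1 := by linarith
    exact log_bound hn he hsum hy
  refine (sum_le_sum fun i _ => key i).trans (le_of_eq ?_)
  rw [sum_sub_distrib, sum_sub_distrib, sum_const, card_univ, Fintype.card_fin, nsmul_eq_mul,
    ← mul_sum, sum_comm]
  congr 2
  refine sum_congr rfl fun i _ => ?_
  rw [← sum_filter, sum_const, nsmul_eq_mul]

end Pool.Agent.H721.TK
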