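import Pool.Agent.H721.Tok

set_option autoImplicit false

/-!
The set of powers of generators is closed under the words of the reduction.
-/

namespace Pool.Agent.H721.Rel

open Pool.Agent.H721.SC Pool.Agent.Helper583

section ops
variable {G : Type*} [Group G]

def gg (a b v : G) : G := wW 6 (wW 5 a v) b
def Pw (g : List Bool) (a v : G) : G := g.foldl (fun a k => wW (kP k) a v) a
def Qw (g : List Bool) (b v : G) : G := g.foldr (fun k b => wW (kQ k) b v) b
def mv (z a b x : G) : G := z * wW 7 a x * (wW 7 b x)⁻¹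
def KK (a b : G) : G := a * (wW 7 b a)⁻¹ * b * (wW 7 a b)⁻¹
def CCv (g h : List Bool) (x y v : G) : G :=
  x * y⁻¹ * wW 7 (gg (Pw g x v) y v) y * (wW 7 (gg (Pw h x v) y v) y)⁻¹ *
    wW 7 (gg (Pw h x v) y v) x * (wW 7 (gg (Pw g x v) y v) x)⁻¹
def CC (g h : List Bool) (x y : G) : G := CCv g h x y (wW 0 x y)

@[simp] theorem Pw_nil (a v : G) : Pw [] a v = a := rfl
@[simp] theorem Pw_cons (k : Bool) (g : List Bool) (a v : G) :
    Pw (k :: g) a v = Pw g (wW (kP k) a v) v := rfl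
theorem Pw_append (g h : List Bool) (a v : G) : Pw (g ++ h) a v = Pw h (Pw g a v) v := by
  simp [Pw, List.foldl_append]
@[simp] theorem Qw_nil (a v : G) : Qw [] a v = a := rfl
@[simp] theorem Qw_cons (k : Bool) (g : List Bool) (a v : G) :
    Qw (k :: g) a v = wW (kQ k) (Qw g a v) v := rfl

variable {H : Type*} [Group H] (f : G →* H)

theorem gg_map (a b v : G) : f (gg a b v) = gg (f a) (f b) (f v) := by
  simp [gg, wW_map]

theorem Pw_map (g : List Bool) (a v : G) : f (Pw g a v) = Pw g (f a) (f v) := by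
  induction g generalizing a with
  | nil => rfl
  | cons k g ih => rw [Pw_cons, ih, Pw_cons, wW_map]

theorem mv_map (z a b x : G) : f (mv z a b x) = mv (f z) (f a) (f b) (f x) := by
  simp [mv, wW_map]

theorem KK_map (a b : G) : f (KK a b) = KK (f a) (f b) := by
  simp [KK, wW_map]

theorem CC_map (g h : List Bool) (x y : G) : f (CC g h x y) = CC g h (f x) (f y) := by
  simp [CC, CCv, wW_map, gg_map, Pw_map]

theorem KK_comm {a b : G} (h : Commute a b) : KK a b = a * b := by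
  unfold KK
  rw [wW_comm h, wW_comm h.symm]
  simp

theorem mv_self (z a x : G) : mv z a a x = z := by
  unfold mv
  rw [mul_assoc, mul_inv_cancel, mul_one]

end ops

variable {s : Type}

section
variable {α : Bool → s → s} {m0 M : s}

theorem kP_ne (b : Bool) : kP b = 1 ∨ kP b = 2 := by cases b <;> simp [kP]
theorem kQ_ne (b : Bool) : kQ b = 3 ∨ kQ b = 4 := by cases b <;> simp [kQ]
theorem kP_inj {b b' : Bool} (h : kP b = kP b') : b = b' := by
  cases b <;> cases b' <;> simp [kP] at h ⊢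
theorem kQ_inj {b b' : Bool} (h : kQ b = kQ b') : b = b' := by
  cases b <;> cases b' <;> simp [kQ] at h ⊢

theorem inv0 {x y : Ix s × ℤ} {i : Ix s} (h : Val α m0 M 0 x y i) :
    ∃ β : Bt s, x = (β.p, β.k) ∧ y = (β.q, β.l) ∧ i = tk .v β := by
  generalize hκ : 0 = κ at h
  cases h with
  | v β => exact ⟨β, rfl, rfl, rfl⟩
  | P b β x w h => have := kP_ne b; omega
  | Q b β x w h => have := kQ_ne b; omega
  | H β x w h => omega
  | G β c y w h hM => omega

theorem invP {b : Bool} {x y : Ix s × ℤ} {i : Ix s} (h : Val α m0 M (kP b) x y i) :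
    ∃ β w, RZ β x w ∧ y = (tk .v β, 1) ∧ i = tk (.z (w ++ [b])) β := by
  generalize hκ : kP b = κ at h
  have hb := kP_ne b
  cases h with
  | v β => omega
  | P b' β x w h => rw [kP_inj hκ]; exact ⟨β, w, h, rfl, rfl⟩
  | Q b' β x w h => have := kQ_ne b'; omega
  | H β x w h => omega
  | G β c y w h hM => omega

theorem invQ {b : Bool} {x y : Ix s × ℤ} {i : Ix s} (h : Val α m0 M (kQ b) x y i) :
    ∃ β w, RU β x w ∧ y = (tk .v β, 1) ∧ i = tk (.u (b :: w)) β := by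
  generalize hκ : kQ b = κ at h
  have hb := kQ_ne b
  cases h with
  | v β => omega
  | P b' β x w h => have := kP_ne b'; omega
  | Q b' β x w h => rw [kQ_inj hκ]; exact ⟨β, w, h, rfl, rfl⟩
  | H β x w h => omega
  | G β c y w h hM => omega

theorem inv5 {x y : Ix s × ℤ} {i : Ix s} (h : Val α m0 M 5 x y i) :
    ∃ β w, RZ β x w ∧ y = (tk .v β, 1) ∧ i = tk (.h (actW α w m0)) β := by
  generalize hκ : 5 = κ at h
  cases h with
  | v β => omega
  | P b β x w h => have := kP_ne b; omega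
  | Q b β x w h => have := kQ_ne b; omega
  | H β x w h => exact ⟨β, w, h, rfl, rfl⟩
  | G β c y w h hM => omega

theorem inv6 {x y : Ix s × ℤ} {i : Ix s} (h : Val α m0 M 6 x y i) :
    ∃ β c w, x = (tk (.h c) β, 1) ∧ RU β y w ∧ actW α w c = M ∧ i = tk .c β := by
  generalize hκ : 6 = κ at h
  cases h with
  | v β => omega
  | P b β x w h => have := kP_ne b; omega
  | Q b β x w h => have := kQ_ne b; omega
  | H β x w h => omega
  | G β c y w h hM => exact ⟨β, c, w, rfl, h, hM, rfl⟩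

variable (α m0 M)

open Classical in
/-- the words on pairs of exponents -/
noncomputable def sW (κ : ℕ) (x y : Ix s × ℤ) : Ix s × ℤ :=
  if h : ∃ i, Val α m0 M κ x y i then (h.choose, 1)
  else if κ = 7 ∧ ¬ (x.1 = y.1 ∨ x.2 = 0 ∨ y.2 = 0) then y else (x.1, 0)

variable {α m0 M}

theorem sW_val {κ : ℕ} {x y : Ix s × ℤ} {i : Ix s} (h : Val α m0 M κ x y i) :
    sW α m0 M κ x y = (i, 1) := by
  have h' : ∃ i, Val α m0 M κ x y i := ⟨i, h⟩
  unfold sW
  rw [dif_pos h', h'.choose_spec.unique h]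

theorem sW_none {κ : ℕ} (hκ : κ < 7) {x y : Ix s × ℤ} (h : ∀ i, ¬ Val α m0 M κ x y i) :
    (sW α m0 M κ x y).2 = 0 := by
  unfold sW
  rw [dif_neg (by push Not; exact h), if_neg (by omega)]

theorem ev_sW {κ : ℕ} (hκ : κ < 8) (x y : Ix s × ℤ) :
    wW κ (ev α m0 M x) (ev α m0 M y) = ev α m0 M (sW α m0 M κ x y) := by
  by_cases h : ∃ i, Val α m0 M κ x y i
  · obtain ⟨i, hi⟩ := h
    rw [W_letter hi, sW_val hi]
  · have h' : ∀ i, ¬ Val α m0 M κ x y i := by push Not at h; exact h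
    by_cases h7 : κ = 7
    · subst h7
      unfold sW
      rw [dif_neg h]
      by_cases hc : x.1 = y.1 ∨ x.2 = 0 ∨ y.2 = 0
      · rw [if_neg (by tauto), wW_comm (comm_of hc), ev_zero rfl]
      · rw [if_pos ⟨rfl, hc⟩]
        push Not at hc
        exact W_second hc.1 hc.2.1 hc.2.2
    · rw [W_one (by omega) h', ev_zero (sW_none (by omega) h')]

/-- syntactic fold -/
noncomputable def sPw (α : Bool → s → s) (m0 M : s) (g : List Bool) (x v : Ix s × ℤ) :
    Ix s × ℤ := g.foldl (fun a k => sW α m0 M (kP k) a v) x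

theorem kP_lt (b : Bool) : kP b < 7 := by have := kP_ne b; omega
theorem kQ_lt (b : Bool) : kQ b < 7 := by have := kQ_ne b; omega

theorem ev_sPw (g : List Bool) (x v : Ix s × ℤ) :
    Pw g (ev α m0 M x) (ev α m0 M v) = ev α m0 M (sPw α m0 M g x v) := by
  induction g generalizing x with
  | nil => rfl
  | cons k g ih =>
    rw [Pw_cons, ev_sW (by have := kP_lt k; omega), ih]
    rfl

theorem RZ_sP {β : Bt s} {b : Bool} {x : Ix s × ℤ} {w1 : List Bool} :
    RZ β (sW α m0 M (kP b) x (tk .v β, 1)) w1 ↔ ∃ w, w1 = w ++ [b] ∧ RZ β x w := by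
  constructor
  · intro h
    by_cases hv : ∃ i, Val α m0 M (kP b) x (tk .v β, 1) i
    · obtain ⟨i, hi⟩ := hv
      rw [sW_val hi] at h
      obtain ⟨β', w, h1, h2, h3⟩ := invP hi
      have h4 := (tk_inj (congrArg Prod.fst h2)).2
      subst h4
      refine ⟨w, ?_, h1⟩
      have h5 : RZ β (tk (.z (w ++ [b])) β, 1) (w ++ [b]) := Or.inr rfl
      rw [h3] at h
      exact h.unique h5
    · have h0 : (sW α m0 M (kP b) x (tk .v β, 1)).2 = 0 :=
        sW_none (kP_lt b) (by push Not at hv; exact hv)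
      exact absurd h0 h.ne
  · rintro ⟨w, rfl, h⟩
    rw [sW_val (Val.P b β x w h)]
    exact Or.inr rfl

theorem RU_sQ {β : Bt s} {b : Bool} {x : Ix s × ℤ} {w1 : List Bool} :
    RU β (sW α m0 M (kQ b) x (tk .v β, 1)) w1 ↔ ∃ w, w1 = b :: w ∧ RU β x w := by
  constructor
  · intro h
    by_cases hv : ∃ i, Val α m0 M (kQ b) x (tk .v β, 1) i
    · obtain ⟨i, hi⟩ := hv
      rw [sW_val hi] at h
      obtain ⟨β', w, h1, h2, h3⟩ := invQ hi
      have h4 := (tk_inj (congrArg Prod.fst h2)).2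
      subst h4
      refine ⟨w, ?_, h1⟩
      have h5 : RU β (tk (.u (b :: w)) β, 1) (b :: w) := Or.inr rfl
      rw [h3] at h
      exact h.unique h5
    · have h0 : (sW α m0 M (kQ b) x (tk .v β, 1)).2 = 0 :=
        sW_none (kQ_lt b) (by push Not at hv; exact hv)
      exact absurd h0 h.ne
  · rintro ⟨w, rfl, h⟩
    rw [sW_val (Val.Q b β x w h)]
    exact Or.inr rfl

theorem RZ_sPw {β : Bt s} {g : List Bool} {x : Ix s × ℤ} {w1 : List Bool} :
    RZ β (sPw α m0 M g x (tk .v β, 1)) w1 ↔ ∃ w, w1 = w ++ g ∧ RZ β x w := by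
  induction g generalizing x with
  | nil =>
    constructor
    · intro h; exact ⟨w1, by simp, h⟩
    · rintro ⟨w, rfl, h⟩; rw [List.append_nil]; exact h
  | cons k g ih =>
    have e : sPw α m0 M (k :: g) x (tk .v β, 1) =
        sPw α m0 M g (sW α m0 M (kP k) x (tk .v β, 1)) (tk .v β, 1) := rfl
    rw [e, ih]
    constructor
    · rintro ⟨w, rfl, h⟩
      obtain ⟨w', rfl, h'⟩ := RZ_sP.mp h
      exact ⟨w', by simp, h'⟩
    · rintro ⟨w, rfl, h⟩
      exact ⟨w ++ [k], by simp, RZ_sP.mpr ⟨w, rfl, h⟩⟩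

/-- the condition for a non-trivial value of `gg` -/
def Cond (α : Bool → s → s) (m0 M : s) (β : Bt s) (x y v : Ix s × ℤ) : Prop :=
  v = (tk .v β, 1) ∧ ∃ w w', RZ β x w ∧ RU β y w' ∧ actW α (w ++ w') m0 = M

theorem actW_append (g h : List Bool) (m : s) : actW α (g ++ h) m = actW α h (actW α g m) := by
  simp [actW, List.foldl_append]

theorem gg_pos {β : Bt s} {x y v : Ix s × ℤ} (h : Cond α m0 M β x y v) :
    gg (ev α m0 M x) (ev α m0 M y) (ev α m0 M v) = ev α m0 M (tk .c β, 1) := by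
  obtain ⟨rfl, w, w', h1, h2, h3⟩ := h
  unfold gg
  rw [W_letter (Val.H β x w h1)]
  exact W_letter (Val.G β (actW α w m0) y w' h2 (by rw [← actW_append]; exact h3))

theorem gg_neg {x y v : Ix s × ℤ} (h : ∀ β, ¬ Cond α m0 M β x y v) :
    gg (ev α m0 M x) (ev α m0 M y) (ev α m0 M v) = 1 := by
  unfold gg
  by_cases h5 : ∃ i, Val α m0 M 5 x v i
  · obtain ⟨i, hi⟩ := h5
    rw [W_letter hi]
    obtain ⟨β, w, h1, h2, h3⟩ := inv5 hi
    apply W_one (by norm_num)
    intro j hj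
    obtain ⟨β', c, w', h4, h5, h6, h7⟩ := inv6 hj
    rw [h3] at h4
    obtain ⟨h8, h9⟩ := tk_inj (congrArg Prod.fst h4)
    subst h9
    injection h8 with h8
    refine h β ⟨h2, w, w', h1, h5, ?_⟩
    rw [actW_append, h8]
    exact h6
  · rw [W_one (by norm_num) (by push Not at h5; exact h5)]
    exact wW_one_left _ _

theorem gg_eq {x y v x' y' : Ix s × ℤ}
    (h : ∀ β, Cond α m0 M β x y v ↔ Cond α m0 M β x' y' v) :
    gg (ev α m0 M x) (ev α m0 M y) (ev α m0 M v) =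
      gg (ev α m0 M x') (ev α m0 M y') (ev α m0 M v) := by
  by_cases hc : ∃ β, Cond α m0 M β x y v
  · obtain ⟨β, hβ⟩ := hc
    rw [gg_pos hβ, gg_pos ((h β).mp hβ)]
  · push Not at hc
    rw [gg_neg hc, gg_neg (fun β hβ => hc β ((h β).mpr hβ))]

theorem gg_move (b : Bool) (x y v : Ix s × ℤ) :
    gg (wW (kP b) (ev α m0 M x) (ev α m0 M v)) (ev α m0 M y) (ev α m0 M v) =
      gg (ev α m0 M x) (wW (kQ b) (ev α m0 M y) (ev α m0 M v)) (ev α m0 M v) := by
  rw [ev_sW (by have := kP_lt b; omega), ev_sW (by have := kQ_lt b; omega)]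
  apply gg_eq
  intro β
  constructor
  · rintro ⟨rfl, w, w', h1, h2, h3⟩
    obtain ⟨w0, rfl, h4⟩ := RZ_sP.mp h1
    exact ⟨rfl, w0, b :: w', h4, RU_sQ.mpr ⟨w', rfl, h2⟩, by simpa using h3⟩
  · rintro ⟨rfl, w, w', h1, h2, h3⟩
    obtain ⟨w0, rfl, h4⟩ := RU_sQ.mp h2
    exact ⟨rfl, w ++ [b], w0, RZ_sP.mpr ⟨w, rfl, h1⟩, h4, by simpa using h3⟩

theorem gg_rel {g h : List Bool} (hgh : ∀ m, actW α g m = actW α h m) (x y v : Ix s × ℤ) :
    gg (Pw g (ev α m0 M x) (ev α m0 M v)) (ev α m0 M y) (ev α m0 M v) =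
      gg (Pw h (ev α m0 M x) (ev α m0 M v)) (ev α m0 M y) (ev α m0 M v) := by
  rw [ev_sPw, ev_sPw]
  apply gg_eq
  intro β
  constructor
  · rintro ⟨rfl, w, w', h1, h2, h3⟩
    obtain ⟨w0, rfl, h4⟩ := RZ_sPw.mp h1
    refine ⟨rfl, w0 ++ h, w', RZ_sPw.mpr ⟨w0, rfl, h4⟩, h2, ?_⟩
    rw [actW_append, actW_append] at h3 ⊢
    rw [← hgh]; exact h3
  · rintro ⟨rfl, w, w', h1, h2, h3⟩
    obtain ⟨w0, rfl, h4⟩ := RZ_sPw.mp h1
    refine ⟨rfl, w0 ++ g, w', RZ_sPw.mpr ⟨w0, rfl, h4⟩, h2, ?_⟩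
    rw [actW_append, actW_append] at h3 ⊢
    rw [hgh]; exact h3

/-- the set of powers of generators -/
def EE (α : Bool → s → s) (m0 M : s) : Set (GG α m0 M) := {g | ∃ x, g = ev α m0 M x}

theorem EE_one : (1 : GG α m0 M) ∈ EE α m0 M := ⟨(.base 0, 0), (ev_zero rfl).symm⟩

theorem EE_W {κ : ℕ} (hκ : κ < 8) {a b : GG α m0 M} (ha : a ∈ EE α m0 M)
    (hb : b ∈ EE α m0 M) : wW κ a b ∈ EE α m0 M := by
  obtain ⟨x, rfl⟩ := ha
  obtain ⟨y, rfl⟩ := hb
  exact ⟨_, ev_sW hκ x y⟩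

theorem EE_zpow {a : GG α m0 M} (ha : a ∈ EE α m0 M) (n : ℤ) : a ^ n ∈ EE α m0 M := by
  obtain ⟨x, rfl⟩ := ha
  refine ⟨(x.1, x.2 * n), ?_⟩
  unfold ev
  rw [zpow_mul]

theorem EE_inv {a : GG α m0 M} (ha : a ∈ EE α m0 M) : a⁻¹ ∈ EE α m0 M := by
  have := EE_zpow ha (-1)
  simpa using this

theorem EE_mul {x y : Ix s × ℤ} (h : x.1 = y.1 ∨ x.2 = 0 ∨ y.2 = 0) :
    ev α m0 M x * ev α m0 M y ∈ EE α m0 M := by
  rcases h with h | h | h
  · refine ⟨(x.1, x.2 + y.2), ?_⟩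
    unfold ev
    rw [zpow_add, h]
  · rw [ev_zero h, one_mul]; exact ⟨y, rfl⟩
  · rw [ev_zero h, mul_one]; exact ⟨x, rfl⟩

theorem EE_KK {a b : GG α m0 M} (ha : a ∈ EE α m0 M) (hb : b ∈ EE α m0 M) :
    KK a b ∈ EE α m0 M := by
  obtain ⟨x, rfl⟩ := ha
  obtain ⟨y, rfl⟩ := hb
  by_cases hc : x.1 = y.1 ∨ x.2 = 0 ∨ y.2 = 0
  · rw [KK_comm (comm_of hc)]
    exact EE_mul hc
  · push Not at hc
    unfold KK
    rw [W_second hc.1 hc.2.1 hc.2.2, W_second hc.1.symm hc.2.2 hc.2.1]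
    simp only [mul_inv_cancel, one_mul]
    exact EE_one

theorem EE_mv {z a x : GG α m0 M} (hz : z ∈ EE α m0 M) : mv z a a x ∈ EE α m0 M := by
  rw [mv_self]; exact hz

/-- the test word -/
theorem EE_CC {g h : List Bool} (hg : actW α g m0 = M) (hh : actW α h m0 ≠ M)
    {a b : GG α m0 M} (ha : a ∈ EE α m0 M) (hb : b ∈ EE α m0 M) :
    CC g h a b ∈ EE α m0 M := by
  obtain ⟨x, rfl⟩ := ha
  obtain ⟨y, rfl⟩ := hb
  by_cases hc : x.1 = y.1 ∨ x.2 = 0 ∨ y.2 = 0
  · -- commuting arguments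
    have h0 : wW 0 (ev α m0 M x) (ev α m0 M y) = 1 := wW_comm (comm_of hc)
    have hP : ∀ g : List Bool, gg (Pw g (ev α m0 M x) 1) (ev α m0 M y) (1 : GG α m0 M) = 1 := by
      intro g
      unfold gg
      rw [wW_one_right, wW_one_left]
    unfold CC CCv
    rw [h0, hP g, hP h]
    simp only [wW_one_left, mul_one, inv_one]
    have h1 : (ev α m0 M y)⁻¹ = ev α m0 M (y.1, -y.2) := by
      unfold ev
      rw [zpow_neg]
    rw [h1]
    apply EE_mul
    rcases hc with h | h | h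
    · exact Or.inl h
    · exact Or.inr (Or.inl h)
    · right; right; show -y.2 = 0; omega
  · push Not at hc
    obtain ⟨h1, h2, h3⟩ := hc
    obtain ⟨β, hβ⟩ : ∃ β : Bt s, β = ⟨x.1, x.2, y.1, y.2, h1, h2, h3⟩ := ⟨_, rfl⟩
    have hx : x = (β.p, β.k) := by rw [hβ]
    have hy : y = (β.q, β.l) := by rw [hβ]
    have hv : wW 0 (ev α m0 M x) (ev α m0 M y) = ev α m0 M (tk .v β, 1) := by
      have : Val α m0 M 0 x y (tk .v β) := by
        rw [hx, hy]; exact Val.v β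
      exact W_letter this
    have hzx : RZ β x [] := Or.inl ⟨hx, rfl⟩
    have huy : RU β y [] := Or.inl ⟨hy, rfl⟩
    have hi : gg (Pw g (ev α m0 M x) (ev α m0 M (tk .v β, 1))) (ev α m0 M y)
        (ev α m0 M (tk .v β, 1)) = ev α m0 M (tk .c β, 1) := by
      rw [ev_sPw]
      apply gg_pos
      refine ⟨rfl, g, [], RZ_sPw.mpr ⟨[], rfl, hzx⟩, huy, ?_⟩
      rw [List.append_nil]; exact hg
    have hj : gg (Pw h (ev α m0 M x) (ev α m0 M (tk .v β, 1))) (ev α m0 M y)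
        (ev α m0 M (tk .v β, 1)) = 1 := by
      rw [ev_sPw]
      apply gg_neg
      rintro β' ⟨e, w, w', h4, h5, h6⟩
      have h7 := (tk_inj (congrArg Prod.fst e)).2
      subst h7
      obtain ⟨w0, rfl, h8⟩ := RZ_sPw.mp h4
      have e0 : w0 = [] := h8.unique hzx
      have e1 : w' = [] := h5.unique huy
      subst e0 e1
      simp at h6
      exact hh h6
    unfold CC CCv
    rw [hv, hi, hj]
    have hc1 : wW 7 (ev α m0 M (tk .c β, 1)) (ev α m0 M y) = ev α m0 M y := by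
      apply W_second _ one_ne_zero h3
      rw [hy]; exact tk_ne_q _ _
    have hc2 : wW 7 (ev α m0 M (tk .c β, 1)) (ev α m0 M x) = ev α m0 M x := by
      apply W_second _ one_ne_zero h2
      rw [hx]; exact tk_ne_p _ _
    rw [hc1, hc2, wW_one_left, wW_one_left]
    simp only [inv_one, mul_one, inv_mul_cancel_right, mul_inv_cancel]
    exact EE_one

/-- two different base generators: their quotient is not a power of a generator -/
theorem EE_not : ge (outF α m0 M) (.base 0) * (ge (outF α m0 M) (.base 1))⁻¹ ∉ EE α m0 M := by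
  rintro ⟨x, hx⟩
  exact ge_ne fresh_outF ex_ne (by simp) x.2 hx

theorem EE_base (n : ℕ) : ge (outF α m0 M) (.base n) ∈ EE α m0 M := by
  refine ⟨(.base n, 1), ?_⟩
  unfold ev
  rw [zpow_one]

end

end Pool.Agent.H721.Rel
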