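import Pool.Agent.H721.SC

set_option autoImplicit false

/-!
Syllable lists and their words.
-/

namespace Pool.Agent.H721.Rel

open FreeGroup Pool.Agent.H721.SC

variable {I : Type}

/-- the letter of a syllable -/
def ltr (s : I × ℤ) : I × Bool := (s.1, decide (0 < s.2))

/-- the word of a syllable list -/
def flat : List (I × ℤ) → List (I × Bool)
  | [] => []
  | s :: T => List.replicate s.2.natAbs (ltr s) ++ flat T

@[simp] theorem flat_nil : flat ([] : List (I × ℤ)) = [] := rfl
@[simp] theorem flat_cons (s : I × ℤ) (T : List (I × ℤ)) :
    flat (s :: T) = List.replicate s.2.natAbs (ltr s) ++ flat T := rfl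

@[simp] theorem flat_append (S T : List (I × ℤ)) : flat (S ++ T) = flat S ++ flat T := by
  induction S with
  | nil => rfl
  | cons s S ih => simp [ih]

theorem flat_length (S : List (I × ℤ)) : (flat S).length = (S.map (fun s => s.2.natAbs)).sum := by
  induction S with
  | nil => rfl
  | cons s S ih => simp [ih]

theorem mk_replicate (g : I) (n : ℤ) :
    FreeGroup.mk (List.replicate n.natAbs (ltr (g, n))) = FreeGroup.of g ^ n := by
  have key : ∀ (m : ℕ) (b : Bool),
      FreeGroup.mk (List.replicate m (g, b)) = (FreeGroup.mk [(g, b)]) ^ m := by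
    intro m b
    rw [FreeGroup.pow_mk]
    congr 1
    induction m with
    | zero => rfl
    | succ m ih => rw [List.replicate_succ, List.replicate_succ, List.flatten_cons, ← ih]; rfl
  rcases lt_trichotomy n 0 with h | h | h
  · have h1 : ltr (g, n) = (g, false) := by simp [ltr, h.le]
    have h2 : FreeGroup.mk [(g, false)] = (FreeGroup.of g)⁻¹ := rfl
    rw [h1, key, h2, inv_pow]
    conv_rhs => rw [show n = -(n.natAbs : ℤ) by omega]
    rw [zpow_neg, zpow_natCast]
  · subst h; simp [FreeGroup.one_eq_mk]
  · have h1 : ltr (g, n) = (g, true) := by simp [ltr, h]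
    have h2 : FreeGroup.mk [(g, true)] = FreeGroup.of g := rfl
    rw [h1, key, h2]
    conv_rhs => rw [show n = (n.natAbs : ℤ) by omega]
    rw [zpow_natCast]

theorem mk_flat (S : List (I × ℤ)) :
    FreeGroup.mk (flat S) = (S.map (fun s => FreeGroup.of s.1 ^ s.2)).prod := by
  induction S with
  | nil => rfl
  | cons s S ih =>
    rw [flat_cons, ← FreeGroup.mul_mk, ih, List.map_cons, List.prod_cons]
    congr 1
    exact mk_replicate s.1 s.2

/-- the inverse syllable list -/
def invS (S : List (I × ℤ)) : List (I × ℤ) := (S.map (fun s => (s.1, -s.2))).reverse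

theorem invRev_replicate (m : ℕ) (l : I × Bool) :
    invRev (List.replicate m l) = List.replicate m (linv l) := by
  simp [invRev, linv]

theorem flat_invS (S : List (I × ℤ)) (h : ∀ s ∈ S, s.2 ≠ 0) : flat (invS S) = invRev (flat S) := by
  induction S with
  | nil => rfl
  | cons s S ih =>
    have h1 : invS (s :: S) = invS S ++ [(s.1, -s.2)] := by simp [invS]
    rw [h1, flat_append, ih (fun t ht => h t (by simp [ht])), flat_cons s S, invRev_append,
      invRev_replicate]
    congr 1
    simp only [flat_cons, flat_nil, List.append_nil, Int.natAbs_neg]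
    congr 1
    have := h s (by simp)
    simp only [ltr, linv, Prod.mk.injEq, true_and]
    rcases lt_or_gt_of_ne this with h2 | h2
    · simp [h2, h2.le]
    · simp [h2, h2.le]

/-- a prefix of a flat word -/
theorem split_flat (S : List (I × ℤ)) (u v : List (I × Bool)) (h : flat S = u ++ v)
    (hv : v ≠ []) : ∃ S1 s S2 a b, S = S1 ++ s :: S2 ∧ a + b = s.2.natAbs ∧ 0 < b ∧
      u = flat S1 ++ List.replicate a (ltr s) ∧ v = List.replicate b (ltr s) ++ flat S2 := by
  induction S generalizing u with
  | nil =>
    simp at h
    exact absurd h.2 hv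
  | cons s S ih =>
    rw [flat_cons] at h
    rcases List.append_eq_append_iff.mp h with ⟨f, h1, h2⟩ | ⟨f, h1, h2⟩
    · obtain ⟨S1, s', S2, a, b, e1, e2, e3, e4, e5⟩ := ih f h2
      exact ⟨s :: S1, s', S2, a, b, by simp [e1], e2, e3, by simp [h1, e4], e5⟩
    · -- u shorter than the first syllable
      by_cases hf : f = []
      · subst hf
        simp at h1 h2
        obtain ⟨S1, s', S2, a, b, e1, e2, e3, e4, e5⟩ := ih [] (by simpa using h2.symm)
        exact ⟨s :: S1, s', S2, a, b, by simp [e1], e2, e3, by simp [← h1, ← e4], e5⟩
      · refine ⟨[], s, S, u.length, f.length, rfl, ?_, List.length_pos_iff.mpr hf, ?_, ?_⟩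
        · have := congrArg List.length h1
          simp at this
          omega
        · have h3 := congrArg (List.take u.length) h1
          simp only [List.take_left', List.take_replicate] at h3
          have h4 : u.length ≤ s.2.natAbs := by
            have := congrArg List.length h1
            simp at this
            omega
          rw [min_eq_left h4] at h3
          simp [h3]
        · have h3 := congrArg (List.drop u.length) h1
          simp only [List.drop_left', List.drop_replicate] at h3
          have h4 : s.2.natAbs - u.length = f.length := by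
            have := congrArg List.length h1
            simp at this
            omega
          rw [h4] at h3
          rw [h2, h3]

/-- two runs with a common prefix -/
theorem run_eq {a b : ℕ} {x y x' y' : I × Bool} {A B u : List (I × Bool)} (ha : 0 < a)
    (hb : 0 < b) (hx : x.1 ≠ y.1) (hy : x'.1 ≠ y'.1)
    (h : u <+: List.replicate a x ++ y :: A) (h' : u <+: List.replicate b x' ++ y' :: B)
    (hl : a < u.length) : a = b ∧ x = x' := by
  have g1 : ∀ i, i < u.length → (List.replicate a x ++ y :: A)[i]? =
      (List.replicate b x' ++ y' :: B)[i]? := by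
    intro i hi
    obtain ⟨t, ht⟩ := h
    obtain ⟨t', ht'⟩ := h'
    rw [← ht, ← ht', List.getElem?_append_left hi, List.getElem?_append_left hi]
  have e0 := g1 0 (by omega)
  have hxx : x = x' := by
    rw [List.getElem?_append_left (by simpa using ha),
      List.getElem?_append_left (by simpa using hb)] at e0
    simpa [List.getElem?_replicate, ha, hb] using e0
  subst hxx
  refine ⟨?_, rfl⟩
  rcases lt_trichotomy a b with h1 | h1 | h1
  · exfalso
    have e1 := g1 a hl
    rw [List.getElem?_append_right (by simp), List.getElem?_append_left (by simpa using h1)] at e1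
    simp [h1] at e1
    exact hx (by rw [e1])
  · exact h1
  · exfalso
    have e1 := g1 b (by omega)
    rw [List.getElem?_append_left (by simpa using h1), List.getElem?_append_right (by simp)] at e1
    simp [h1] at e1
    exact hy (by rw [e1])

/-- syllable lists with alternating generators and non-zero exponents -/
def Alt (T : List (I × ℤ)) : Prop :=
  T.IsChain (fun a b => a.1 ≠ b.1) ∧ ∀ s ∈ T, s.2 ≠ 0

theorem Alt.tail {s : I × ℤ} {T : List (I × ℤ)} (h : Alt (s :: T)) : Alt T :=
  ⟨h.1.tail, fun t ht => h.2 t (by simp [ht])⟩

/-- common prefixes of flat words determine the syllables -/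
theorem flat_take (k : ℕ) {T T' : List (I × ℤ)} {X X' u : List (I × Bool)} (hT : Alt T)
    (hT' : Alt T') (hu : u <+: flat T ++ X) (hu' : u <+: flat T' ++ X')
    (hk : k < T.length) (hk' : k < T'.length) (hl : (flat (T.take k)).length < u.length) :
    T.take k = T'.take k := by
  induction k generalizing T T' u with
  | zero => simp
  | succ k ih =>
    match T, T', hk, hk' with
    | s :: t :: T, s' :: t' :: T', hk, hk' =>
      have hs0 := hT.2 s (by simp)
      have ht0 := hT.2 t (by simp)
      have hs0' := hT'.2 s' (by simp)
      have ht0' := hT'.2 t' (by simp)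
      have hst : s.1 ≠ t.1 := (List.isChain_cons_cons.mp hT.1).1
      have hst' : s'.1 ≠ t'.1 := (List.isChain_cons_cons.mp hT'.1).1
      have e1 : ∃ A, flat (s :: t :: T) ++ X = List.replicate s.2.natAbs (ltr s) ++ ltr t :: A := by
        refine ⟨List.replicate (t.2.natAbs - 1) (ltr t) ++ flat T ++ X, ?_⟩
        obtain ⟨m, hm⟩ : ∃ m, t.2.natAbs = m + 1 := ⟨t.2.natAbs - 1, by omega⟩
        simp [hm, List.replicate_succ]
      have e2 : ∃ A, flat (s' :: t' :: T') ++ X' =
          List.replicate s'.2.natAbs (ltr s') ++ ltr t' :: A := by
        refine ⟨List.replicate (t'.2.natAbs - 1) (ltr t') ++ flat T' ++ X', ?_⟩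
        obtain ⟨m, hm⟩ : ∃ m, t'.2.natAbs = m + 1 := ⟨t'.2.natAbs - 1, by omega⟩
        simp [hm, List.replicate_succ]
      obtain ⟨A, hA⟩ := e1
      obtain ⟨B, hB⟩ := e2
      have hl1 : s.2.natAbs < u.length := by
        simp [List.take_succ_cons] at hl
        omega
      obtain ⟨h1, h2⟩ := run_eq (by omega) (by omega) (by simpa [ltr] using hst)
        (by simpa [ltr] using hst') (hA ▸ hu) (hB ▸ hu') hl1
      have hss : s = s' := by
        have h3 : s.1 = s'.1 := congrArg (fun z : I × Bool => z.1) h2
        have h4 : decide (0 < s.2) = decide (0 < s'.2) := congrArg (fun z : I × Bool => z.2) h2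
        have h5 : (0 < s.2) ↔ (0 < s'.2) := by simpa using h4
        have h6 : s.2 = s'.2 := by omega
        exact Prod.ext h3 h6
      subst hss
      -- strip
      have hu2 : ∃ u2, u = List.replicate s.2.natAbs (ltr s) ++ u2 := by
        obtain ⟨t1, ht1⟩ := hu
        have : List.replicate s.2.natAbs (ltr s) <+: u := by
          refine List.prefix_of_prefix_length_le (l₃ := flat (s :: t :: T) ++ X) ?_ ⟨t1, ht1⟩
            (by simp; omega)
          exact ⟨flat (t :: T) ++ X, by simp⟩
        obtain ⟨u2, h⟩ := this
        exact ⟨u2, h.symm⟩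
      obtain ⟨u2, rfl⟩ := hu2
      have hu3 : u2 <+: flat (t :: T) ++ X := by
        have : List.replicate s.2.natAbs (ltr s) ++ u2 <+:
            List.replicate s.2.natAbs (ltr s) ++ (flat (t :: T) ++ X) := by
          simpa using hu
        exact (List.prefix_append_right_inj _).mp this
      have hu3' : u2 <+: flat (t' :: T') ++ X' := by
        have : List.replicate s.2.natAbs (ltr s) ++ u2 <+:
            List.replicate s.2.natAbs (ltr s) ++ (flat (t' :: T') ++ X') := by
          simpa using hu'
        exact (List.prefix_append_right_inj _).mp this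
      have := ih hT.tail hT'.tail hu3 hu3' (by simpa using hk) (by simpa using hk') (by
        simp only [List.take_succ_cons, flat_cons, List.length_append, List.length_replicate] at hl ⊢
        omega)
      rw [List.take_succ_cons, List.take_succ_cons, this]

end Pool.Agent.H721.Rel
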