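import Pool.Agent.H721.Piece

set_option autoImplicit false

/-!
The group defined by the relators.
-/

namespace Pool.Agent.H721.Rel

open Pool.Agent.H721.SC

section words
variable {G H : Type*} [Group G] [Group H]

/-- the group words -/
irreducible_def wW (κ : ℕ) (s t : G) : G :=
  ((List.range 400).map (fun i => s ^ xe κ i * t ^ xe κ i)).prod * (s ^ (200 : ℤ) * t ^ (200 : ℤ))

theorem wW_map (f : G →* H) (κ : ℕ) (s t : G) : f (wW κ s t) = wW κ (f s) (f t) := by
  rw [wW_def, wW_def, map_mul, map_list_prod, List.map_map, map_mul, map_zpow, map_zpow]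
  have e : (⇑f ∘ fun i => s ^ xe κ i * t ^ xe κ i) = fun i => f s ^ xe κ i * f t ^ xe κ i := by
    funext i
    simp
  rw [e]

theorem prod_zpow (a : G) (f : ℕ → ℤ) (n : ℕ) :
    ((List.range n).map (fun i => a ^ f i)).prod = a ^ (∑ i ∈ Finset.range n, f i) := by
  induction n with
  | zero => simp
  | succ n ih =>
    rw [List.range_succ, List.map_append, List.prod_append, ih, Finset.sum_range_succ, zpow_add]
    simp

theorem sum_xe (κ n : ℕ) : ∑ i ∈ Finset.range (2 * n), xe κ i = -n := by
  induction n with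
  | zero => simp
  | succ n ih =>
    rw [show 2 * (n + 1) = 2 * n + 1 + 1 by ring, Finset.sum_range_succ, Finset.sum_range_succ, ih,
      xe_succ, pow_mul]
    push_cast
    simp
    ring

theorem wW_comm {κ : ℕ} {s t : G} (h : Commute s t) : wW κ s t = 1 := by
  rw [wW_def]
  have e : (fun i => s ^ xe κ i * t ^ xe κ i) = fun i => (s * t) ^ xe κ i := by
    funext i
    rw [h.mul_zpow]
  rw [e, prod_zpow, ← h.mul_zpow, ← zpow_add, sum_xe κ 200]
  simp

@[simp] theorem wW_one_left (κ : ℕ) (t : G) : wW κ 1 t = 1 := wW_comm (Commute.one_left t)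
@[simp] theorem wW_one_right (κ : ℕ) (t : G) : wW κ t 1 = 1 := wW_comm (Commute.one_right t)

end words

variable {I : Type}

theorem prod_body (θ : Par I) (n : ℕ) :
    (((List.range (2 * n)).map (body θ)).map (fun s => FreeGroup.of s.1 ^ s.2)).prod =
    ((List.range n).map (fun i => (FreeGroup.of θ.p ^ θ.k) ^ xe θ.κ i *
      (FreeGroup.of θ.q ^ θ.l) ^ xe θ.κ i)).prod := by
  induction n with
  | zero => simp
  | succ n ih =>
    have e : List.range (2 * (n + 1)) = List.range (2 * n) ++ [2 * n, 2 * n + 1] := by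
      rw [show 2 * (n + 1) = 2 * n + 1 + 1 by ring, List.range_succ, List.range_succ]
      simp
    rw [e, List.map_append, List.map_append, List.prod_append, ih, List.range_succ,
      List.map_append, List.prod_append]
    congr 1
    simp only [List.map_cons, List.map_nil, body_even, body_odd, List.prod_cons, List.prod_nil,
      mul_one, zpow_mul]

/-- the value of an output -/
def outv {G : Type*} [Group G] (e : I → G) (θ : Par I) : Out I → G
  | .one => 1
  | .letter i => e i
  | .second => e θ.q ^ θ.l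

theorem mk_rel (θ : Par I) (o : Out I) : FreeGroup.mk (flat (rel θ o)) =
    wW θ.κ (FreeGroup.of θ.p ^ θ.k) (FreeGroup.of θ.q ^ θ.l) * (outv FreeGroup.of θ o)⁻¹ := by
  rw [mk_flat, rel, List.map_append, List.prod_append, prod_body θ 400]
  rw [wW_def, mul_assoc]
  refine congrArg (HMul.hMul _) ?_
  have e1 : (FreeGroup.of θ.p : FreeGroup I) ^ (200 * θ.k) = (FreeGroup.of θ.p ^ θ.k) ^ (200 : ℤ) := by
    rw [← zpow_mul, mul_comm]
  have e2 : (FreeGroup.of θ.q : FreeGroup I) ^ (200 * θ.l) = (FreeGroup.of θ.q ^ θ.l) ^ (200 : ℤ) := by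
    rw [← zpow_mul, mul_comm]
  have e3 : (FreeGroup.of θ.q : FreeGroup I) ^ (199 * θ.l) =
      (FreeGroup.of θ.q ^ θ.l) ^ (200 : ℤ) * (FreeGroup.of θ.q ^ θ.l)⁻¹ := by
    rw [← zpow_mul, ← zpow_neg, ← zpow_add]
    congr 1
    ring
  cases o with
  | one => simp only [tl, outv, List.map_cons, List.map_nil, List.prod_cons, List.prod_nil, e1, e2,
      inv_one, mul_one]
  | letter i => simp only [tl, outv, List.map_cons, List.map_nil, List.prod_cons, List.prod_nil,
      e1, e2, mul_one, zpow_neg, zpow_one, mul_assoc]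
  | second => simp only [tl, outv, List.map_cons, List.map_nil, List.prod_cons, List.prod_nil,
      e1, e3, mul_one, mul_assoc]

/-- the group -/
abbrev Gp (out : Par I → Out I) : Type :=
  FreeGroup I ⧸ Subgroup.normalClosure (FreeGroup.mk '' RR out)

/-- the generators -/
def ge (out : Par I → Out I) (i : I) : Gp out := QuotientGroup.mk' _ (FreeGroup.of i)

theorem wW_val (out : Par I → Out I) (θ : Par I) :
    wW θ.κ (ge out θ.p ^ θ.k) (ge out θ.q ^ θ.l) = outv (ge out) θ (out θ) := by
  have h1 : FreeGroup.mk (flat (rel θ (out θ))) ∈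
      Subgroup.normalClosure (FreeGroup.mk '' RR out) := by
    apply Subgroup.subset_normalClosure
    exact ⟨_, ⟨θ, true, List.IsRotated.refl _⟩, rfl⟩
  rw [mk_rel] at h1
  have h2 := (QuotientGroup.eq_one_iff _).mpr h1
  have h3 : QuotientGroup.mk' (Subgroup.normalClosure (FreeGroup.mk '' RR out))
      (wW θ.κ (FreeGroup.of θ.p ^ θ.k) (FreeGroup.of θ.q ^ θ.l) *
        (outv FreeGroup.of θ (out θ))⁻¹) = 1 := h2
  rw [map_mul, map_inv, wW_map, map_zpow, map_zpow, mul_inv_eq_one] at h3
  unfold ge
  rw [h3]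
  cases out θ with
  | one => simp [outv]
  | letter i => simp [outv]
  | second => simp [outv]

theorem no_pattern {p q a b i : I} {n : ℕ} (hpq : p ≠ q) :
    ¬ List.Sublist [p, q, p, q] (a :: b :: List.replicate n i) := by
  intro h
  have key : ∀ (x : I) (L M : List I), List.Sublist L (x :: M) → List.Sublist L.tail M := by
    intro x L M h
    cases h with
    | cons _ h => exact (List.tail_sublist L).trans h
    | cons_cons _ h => exact h
  have h1 : List.Sublist [p, q] (List.replicate n i) := key b _ _ (key a _ _ h)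
  have h2 := List.eq_of_mem_replicate (h1.subset (show p ∈ [p, q] by simp))
  have h3 := List.eq_of_mem_replicate (h1.subset (show q ∈ [p, q] by simp))
  exact hpq (h2.trans h3.symm)

/-- the counting homomorphism -/
noncomputable def cnt (a : I) : FreeGroup I →* Multiplicative ℤ := by
  classical
  exact FreeGroup.lift (fun i => if i = a then Multiplicative.ofAdd 1 else 1)

theorem cnt_of (a i : I) [Decidable (i = a)] :
    cnt a (FreeGroup.of i) = if i = a then Multiplicative.ofAdd (1 : ℤ) else 1 := by
  classical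
  unfold cnt
  rw [FreeGroup.lift_apply_of]
  split_ifs <;> simp_all

theorem free_ne {a b i : I} (hab : a ≠ b) (n : ℤ) :
    (FreeGroup.of a : FreeGroup I) * (FreeGroup.of b)⁻¹ ≠ FreeGroup.of i ^ n := by
  classical
  intro h
  have ha := congrArg (cnt a) h
  have hb := congrArg (cnt b) h
  rw [map_mul, map_inv, map_zpow, cnt_of, cnt_of, cnt_of] at ha hb
  rw [if_pos rfl, if_neg hab.symm] at ha
  rw [if_neg hab, if_pos rfl] at hb
  by_cases hia : i = a
  · subst hia
    rw [if_neg hab] at hb
    simp at hb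
  · rw [if_neg hia] at ha
    simp at ha

/-- the quotient of two generators is not a power of a generator -/
theorem ge_ne {out : Par I → Out I} (hout : Fresh out) (hI : ∀ i : I, ∃ j, j ≠ i) {a b i : I}
    (hab : a ≠ b) (n : ℤ) : ge out a * (ge out b)⁻¹ ≠ ge out i ^ n := by
  classical
  intro h
  have hn : (FreeGroup.of a : FreeGroup I) * (FreeGroup.of b)⁻¹ * (FreeGroup.of i ^ n)⁻¹ ∈
      Subgroup.normalClosure (FreeGroup.mk '' RR out) := by
    rw [← QuotientGroup.eq_one_iff]
    have h1 : QuotientGroup.mk' (Subgroup.normalClosure (FreeGroup.mk '' RR out))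
        ((FreeGroup.of a : FreeGroup I) * (FreeGroup.of b)⁻¹ * (FreeGroup.of i ^ n)⁻¹) = 1 := by
      rw [map_mul, map_mul, map_inv, map_inv, map_zpow, mul_inv_eq_one]
      exact h
    exact h1
  obtain ⟨g, hg⟩ : ∃ g, g = (FreeGroup.of a : FreeGroup I) * (FreeGroup.of b)⁻¹ *
      (FreeGroup.of i ^ n)⁻¹ := ⟨_, rfl⟩
  rw [← hg] at hn
  have hg1 : g.toWord ≠ [] := by
    intro h1
    have h2 : g = 1 := FreeGroup.toWord_eq_nil_iff.mp h1
    rw [hg, mul_inv_eq_one] at h2
    exact free_ne hab n h2
  have hsub : List.Sublist (g.toWord.map Prod.fst) (a :: b :: List.replicate n.natAbs i) := by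
    have e1 : FreeGroup.mk ((a, true) :: (b, false) ::
        List.replicate (-n).natAbs (ltr (i, -n))) = g := by
      have h1 : (FreeGroup.of i ^ n)⁻¹ = FreeGroup.mk (List.replicate (-n).natAbs (ltr (i, -n))) := by
        rw [mk_replicate, zpow_neg]
      rw [hg, h1]
      rfl
    have h2 : g.toWord = FreeGroup.reduce ((a, true) :: (b, false) ::
        List.replicate (-n).natAbs (ltr (i, -n))) := by
      rw [← e1, FreeGroup.toWord_mk]
    rw [h2]
    have h3 := (FreeGroup.Red.sublist (FreeGroup.reduce.red (L := (a, true) :: (b, false) ::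
        List.replicate (-n).natAbs (ltr (i, -n))))).map Prod.fst
    simpa [ltr] using h3
  have hmk : FreeGroup.mk g.toWord = g := FreeGroup.mk_toWord
  refine dehn (scset hout hI) g.toWord FreeGroup.isReduced_toWord hg1 ?_ (by rw [hmk]; exact hn)
  intro u c hr hl hu
  obtain ⟨p, q, hpq, hs⟩ := long_gens hr (by omega)
  exact no_pattern hpq ((hs.trans (hu.sublist.map Prod.fst)).trans hsub)

end Pool.Agent.H721.Rel
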