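import Pool.Agent.H721.Pos

set_option autoImplicit false

/-!
Negative direction, computability of the reduction, and the undecidability theorem.
-/

namespace Pool.Agent.H721.Rel

open Pool.Agent.H721.SC Pool.Agent.Helper583

/-! ### negative direction -/

section neg
variable {s : Type} {α : Bool → s → s} {m0 M : s}

theorem lift_sh' {G : Type*} [Group G] (σ : ℕ → G) (w : FreeGroup ℕ) :
    FreeGroup.lift σ (sh w) = FreeGroup.lift (fun i => σ (i + 6)) w := by
  have : (FreeGroup.lift σ).comp sh = FreeGroup.lift (fun i => σ (i + 6)) := by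
    apply FreeGroup.ext_hom
    intro i
    simp [sh, X]
  exact DFunLike.congr_fun this w

/-- words preserving the powers of generators -/
def Pre (α : Bool → s → s) (m0 M : s) (C : FreeGroup ℕ) : Prop :=
  ∀ f : ℕ → GG α m0 M, (∀ i, f i ∈ EE α m0 M) → FreeGroup.lift f C ∈ EE α m0 M

theorem pre_BL (L : List (FreeGroup ℕ)) (hL : ∀ c ∈ L, Pre α m0 M c) :
    Pre α m0 M (BL L) := by
  induction L with
  | nil => intro f _; rw [BL, map_one]; exact EE_one
  | cons c L ih =>
    intro f hf
    rw [BL, KK_map, lift_sh']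
    exact EE_KK (hL c (by simp) f hf)
      (ih (fun d hd => hL d (by simp [hd])) _ (fun i => hf (i + 6)))

theorem pre_moves {R : List (List Bool × List Bool)}
    (hR : ∀ p ∈ R, ∀ m, actW α p.1 m = actW α p.2 m) : ∀ c ∈ movesL R, Pre α m0 M c := by
  have h1 : ∀ b, Pre α m0 M (cM1 b) := by
    intro b f hf
    obtain ⟨x1, e1⟩ := hf 1
    obtain ⟨x2, e2⟩ := hf 2
    obtain ⟨x3, e3⟩ := hf 3
    simp only [cM1, mv_map, gg_map, wW_map, lift_X]
    rw [e1, e2, e3, gg_move]
    exact EE_mv (hf 0)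
  have h2 : ∀ b, Pre α m0 M (cM2 b) := by
    intro b f hf
    obtain ⟨x1, e1⟩ := hf 1
    obtain ⟨x2, e2⟩ := hf 2
    obtain ⟨x3, e3⟩ := hf 3
    simp only [cM2, mv_map, gg_map, wW_map, lift_X]
    rw [e1, e2, e3, gg_move]
    exact EE_mv (hf 0)
  have h3 : ∀ g h : List Bool, (∀ m, actW α g m = actW α h m) → Pre α m0 M (cR g h) := by
    intro g h hgh f hf
    obtain ⟨x1, e1⟩ := hf 1
    obtain ⟨x2, e2⟩ := hf 2
    obtain ⟨x3, e3⟩ := hf 3
    simp only [cR, mv_map, gg_map, Pw_map, lift_X]
    rw [e1, e2, e3, gg_rel hgh]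
    exact EE_mv (hf 0)
  intro c hc
  rcases List.mem_append.mp hc with h | h
  · simp only [List.mem_cons, List.not_mem_nil, or_false] at h
    rcases h with rfl | rfl | rfl | rfl
    · exact h1 _
    · exact h1 _
    · exact h2 _
    · exact h2 _
  · obtain ⟨p, hp0, hp⟩ := List.mem_flatMap.mp h
    simp only [List.mem_cons, List.not_mem_nil, or_false] at hp
    rcases hp with rfl | rfl
    · exact h3 _ _ (hR p hp0)
    · exact h3 _ _ (fun m => (hR p hp0 m).symm)

theorem pre_fix {R : List (List Bool × List Bool)}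
    (hR : ∀ p ∈ R, ∀ m, actW α p.1 m = actW α p.2 m) : ∀ c ∈ fixL R, Pre α m0 M c := by
  intro c hc
  rcases List.mem_cons.mp hc with rfl | h
  · intro f hf
    rw [map_zpow, lift_X]
    exact EE_zpow (hf 0) _
  · rcases List.mem_append.mp h with h | h
    · obtain ⟨κ, hκ, rfl⟩ := List.mem_map.mp h
      intro f hf
      simp only [cW, wW_map, lift_X]
      exact EE_W (List.mem_range.mp hκ) (hf 0) (hf 1)
    · exact pre_moves hR c h

theorem pre_Bw {R : List (List Bool × List Bool)} {g h : List Bool}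
    (hR : ∀ p ∈ R, ∀ m, actW α p.1 m = actW α p.2 m)
    (hg : actW α g m0 = M) (hh : actW α h m0 ≠ M) : Pre α m0 M (Bw R g h) := by
  apply pre_BL
  intro c hc
  rcases List.mem_cons.mp hc with rfl | hc
  · intro f hf
    simp only [cC, CC_map, lift_X]
    exact EE_CC hg hh (hf 0) (hf 1)
  · exact pre_fix hR c hc

theorem not_pre : ¬ Pre α m0 M (X 0 * (X 1)⁻¹) := by
  intro h
  have h1 := h (fun i => ge (outF α m0 M) (.base i)) (fun i => EE_base i)
  rw [map_mul, map_inv, lift_X, lift_X] at h1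
  exact EE_not h1

end neg

/-! ### strings -/

section strings

/-- the pattern of a word -/
noncomputable def pat (κ : ℕ) : List (Bool × Bool) :=
  (wW κ (FreeGroup.of false : FreeGroup Bool) (FreeGroup.of true)).toWord

/-- string version of the words -/
noncomputable def lW (κ : ℕ) (a b : List (ℕ × Bool)) : List (ℕ × Bool) :=
  (pat κ).flatMap (fun p => bif p.2 then (bif p.1 then b else a)
    else (bif p.1 then FreeGroup.invRev b else FreeGroup.invRev a))

theorem mk_lW (κ : ℕ) (a b : List (ℕ × Bool)) :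
    FreeGroup.mk (lW κ a b) = wW κ (FreeGroup.mk a) (FreeGroup.mk b) := by
  have key : ∀ L : List (Bool × Bool), FreeGroup.mk (L.flatMap (fun p =>
      bif p.2 then (bif p.1 then b else a)
        else (bif p.1 then FreeGroup.invRev b else FreeGroup.invRev a))) =
      FreeGroup.lift (fun c : Bool => bif c then FreeGroup.mk b else FreeGroup.mk a)
        (FreeGroup.mk L) := by
    intro L
    induction L with
    | nil => rfl
    | cons p L ih =>
      rw [List.flatMap_cons, ← FreeGroup.mul_mk, ih]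
      rw [show FreeGroup.mk (p :: L) = FreeGroup.mk [p] * FreeGroup.mk L from rfl, map_mul]
      congr 1
      rcases p with ⟨c, d⟩
      cases c <;> cases d <;> simp [FreeGroup.inv_mk]
  rw [lW, key, pat, FreeGroup.mk_toWord, wW_map]
  simp

noncomputable def lgg (a b v : List (ℕ × Bool)) : List (ℕ × Bool) := lW 6 (lW 5 a v) b
noncomputable def lPw (g : List Bool) (a v : List (ℕ × Bool)) : List (ℕ × Bool) :=
  g.foldl (fun a k => bif k then lW 2 a v else lW 1 a v) a
noncomputable def lK (a b : List (ℕ × Bool)) : List (ℕ × Bool) :=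
  a ++ FreeGroup.invRev (lW 7 b a) ++ b ++ FreeGroup.invRev (lW 7 a b)
def lX (i : ℕ) : List (ℕ × Bool) := [(i, true)]
noncomputable def lv : List (ℕ × Bool) := lW 0 (lX 0) (lX 1)
noncomputable def lC (g h : List Bool) : List (ℕ × Bool) :=
  lX 0 ++ FreeGroup.invRev (lX 1) ++ lW 7 (lgg (lPw g (lX 0) lv) (lX 1) lv) (lX 1) ++
    FreeGroup.invRev (lW 7 (lgg (lPw h (lX 0) lv) (lX 1) lv) (lX 1)) ++
    lW 7 (lgg (lPw h (lX 0) lv) (lX 1) lv) (lX 0) ++
    FreeGroup.invRev (lW 7 (lgg (lPw g (lX 0) lv) (lX 1) lv) (lX 0))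

/-- the string of the reduction -/
noncomputable def lB (R : List (List Bool × List Bool)) (g h : List Bool) : List (ℕ × Bool) :=
  lK (lC g h) (sh (BL (fixL R))).toWord

theorem mk_lgg (a b v : List (ℕ × Bool)) : FreeGroup.mk (lgg a b v) =
    gg (FreeGroup.mk a) (FreeGroup.mk b) (FreeGroup.mk v) := by
  rw [lgg, mk_lW, mk_lW, gg]

theorem mk_lPw (g : List Bool) (a v : List (ℕ × Bool)) : FreeGroup.mk (lPw g a v) =
    Pw g (FreeGroup.mk a) (FreeGroup.mk v) := by
  induction g generalizing a with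
  | nil => rfl
  | cons k g ih =>
    have e : lPw (k :: g) a v = lPw g (bif k then lW 2 a v else lW 1 a v) v := rfl
    rw [e, ih, Pw_cons]
    congr 1
    cases k
    · exact mk_lW 1 a v
    · exact mk_lW 2 a v

theorem mk_app (a b : List (ℕ × Bool)) : FreeGroup.mk (a ++ b) = FreeGroup.mk a * FreeGroup.mk b :=
  rfl

theorem mk_invRev (a : List (ℕ × Bool)) : FreeGroup.mk (FreeGroup.invRev a) =
    (FreeGroup.mk a)⁻¹ := rfl

theorem mk_lC (g h : List Bool) : FreeGroup.mk (lC g h) = cC g h := by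
  have e0 : FreeGroup.mk (lX 0) = X 0 := rfl
  have e1 : FreeGroup.mk (lX 1) = X 1 := rfl
  have e2 : FreeGroup.mk lv = wW 0 (X 0) (X 1) := by rw [lv, mk_lW, e0, e1]
  simp only [lC, mk_app, mk_invRev, mk_lW, mk_lgg, mk_lPw, e0, e1, e2, cC, CC, CCv]

theorem mk_lB (R : List (List Bool × List Bool)) (g h : List Bool) :
    FreeGroup.mk (lB R g h) = Bw R g h := by
  rw [lB, lK]
  simp only [mk_app, mk_invRev, mk_lW, mk_lC, FreeGroup.mk_toWord]
  rfl

/-! ### computability -/

variable {A : Type*} [Primcodable A]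

theorem prim_inv {f : A → List (ℕ × Bool)} (hf : Primrec f) :
    Primrec fun a => FreeGroup.invRev (f a) := by
  have := prim_wInv hf
  exact this

theorem prim_lW (κ : ℕ) {f g : A → List (ℕ × Bool)} (hf : Primrec f) (hg : Primrec g) :
    Primrec fun a => lW κ (f a) (g a) := by
  unfold lW
  refine Primrec.list_flatMap (Primrec.const (pat κ)) ?_
  have h1 : Primrec fun q : A × (Bool × Bool) => q.2.2 := Primrec.snd.comp Primrec.snd
  have h2 : Primrec fun q : A × (Bool × Bool) => q.2.1 := Primrec.fst.comp Primrec.snd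
  have hf' : Primrec fun q : A × (Bool × Bool) => f q.1 := hf.comp Primrec.fst
  have hg' : Primrec fun q : A × (Bool × Bool) => g q.1 := hg.comp Primrec.fst
  exact Primrec.cond h1 (Primrec.cond h2 hg' hf') (Primrec.cond h2 (prim_inv hg') (prim_inv hf'))

theorem prim_lPw {g : A → List Bool} (hg : Primrec g) (a v : List (ℕ × Bool)) :
    Primrec fun x => lPw (g x) a v := by
  unfold lPw
  have h : Primrec₂ (fun (_ : A) (p : List (ℕ × Bool) × Bool) =>
      bif p.2 then lW 2 p.1 v else lW 1 p.1 v) := by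
    have h1 : Primrec fun q : A × (List (ℕ × Bool) × Bool) => q.2.2 := Primrec.snd.comp Primrec.snd
    have h2 : Primrec fun q : A × (List (ℕ × Bool) × Bool) => q.2.1 := Primrec.fst.comp Primrec.snd
    exact Primrec.cond h1 (prim_lW 2 h2 (Primrec.const v)) (prim_lW 1 h2 (Primrec.const v))
  exact Primrec.list_foldl hg (Primrec.const a) h

theorem prim_app {f g : A → List (ℕ × Bool)} (hf : Primrec f) (hg : Primrec g) :
    Primrec fun a => f a ++ g a := Primrec.list_append.comp hf hg

theorem prim_lC {g : A → List Bool} (hg : Primrec g) (h : List Bool) :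
    Primrec fun x => lC (g x) h := by
  unfold lC
  have h1 : Primrec fun x => lgg (lPw (g x) (lX 0) lv) (lX 1) lv := by
    unfold lgg
    exact prim_lW 6 (prim_lW 5 (prim_lPw hg _ _) (Primrec.const _)) (Primrec.const _)
  refine prim_app (prim_app (prim_app (prim_app (Primrec.const _) ?_) (Primrec.const _))
    (Primrec.const _)) ?_
  · exact prim_lW 7 h1 (Primrec.const _)
  · exact prim_inv (prim_lW 7 h1 (Primrec.const _))

theorem prim_lB (R : List (List Bool × List Bool)) {g : A → List Bool} (hg : Primrec g)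
    (h : List Bool) : Primrec fun x => lB R (g x) h := by
  unfold lB lK
  have h1 := prim_lC hg h
  exact prim_app (prim_app (prim_app h1 (prim_inv (prim_lW 7 (Primrec.const _) h1)))
    (Primrec.const _)) (prim_inv (prim_lW 7 h1 (Primrec.const _)))

end strings

/-! ### the theorem -/

/-- closed sets of words for a group -/
structure ClG (G : Type) [Group G] (w : List (ℕ × Bool)) (S : Set (FreeGroup ℕ)) : Prop where
  var : ∀ i : ℕ, FreeGroup.of i ∈ S
  base : FreeGroup.mk w ∈ S
  sub : ∀ C ∈ S, ∀ σ : ℕ → FreeGroup ℕ, (∀ i, σ i ∈ S) → FreeGroup.lift σ C ∈ S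
  congr : ∀ C ∈ S, ∀ C' : FreeGroup ℕ,
    (∀ f : ℕ → G, FreeGroup.lift f C = FreeGroup.lift f C') → C' ∈ S

/-- Inseparability: no decidable property of words holds for all Schaeffer words and fails
whenever `x y⁻¹` is not expressible over some group. -/
theorem main_insep (P : List (ℕ × Bool) → Prop) (hP : ComputablePred P)
    (hup : ∀ w : List (ℕ × Bool), (∀ (T : Set (FreeGroup ℕ)), SubCl T → FreeGroup.mk w ∈ T →
      ∀ A, A ∈ T) → P w)
    (hlow : ∀ w : List (ℕ × Bool), P w → ∀ (s : Type) (α : Bool → s → s) (m0 M : s),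
      Pre α m0 M (FreeGroup.mk w) → False) : False := by
  obtain ⟨F, hF, hsep⟩ := insep
  obtain ⟨R, c1, c2, d0, d1, h, hR, hc1, hh, hn⟩ := exists_system F hF
  refine hsep (fun n => P (lB R (inpW c1 c2 d0 d1 n) h)) ?_ ?_ ?_
  · obtain ⟨hd, hc⟩ := hP
    refine ⟨fun n => hd (lB R (inpW c1 c2 d0 d1 n) h), ?_⟩
    exact hc.comp (prim_lB R (prim_inpW c1 c2 d0 d1) h).to_comp
  · intro n h0
    apply hup
    intro T hT hB A
    rw [mk_lB] at hB
    exact pos_all hT hB ((hn n).1 h0) A
  · intro n h1 hPn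
    obtain ⟨s, _, α, m, hrel, hne⟩ := (hn n).2 h1
    apply hlow _ hPn s α m (actW α (inpW c1 c2 d0 d1 n) m)
    rw [mk_lB]
    exact pre_Bw hrel rfl hne.symm

end Pool.Agent.H721.Rel
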