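import Pool.Agent.H721.Win

set_option autoImplicit false

/-!
The symmetrized set of relators satisfies the small cancellation condition.
-/

namespace Pool.Agent.H721.Rel

open FreeGroup Pool.Agent.H721.SC

variable {I : Type}

theorem T_get {W S1 S2 : List (I × ℤ)} {s : I × ℤ} (hW : W = S1 ++ s :: S2) (t : ℕ)
    (ht : t < S2.length + S1.length) :
    (S2 ++ S1)[t]? = W[if S1.length + 1 + t < W.length then S1.length + 1 + t
      else S1.length + 1 + t - W.length]? := by
  have hlen : W.length = S1.length + 1 + S2.length := by rw [hW]; simp; omega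
  split_ifs with h
  · have h1 : t < S2.length := by omega
    rw [hW, List.getElem?_append_left h1, List.getElem?_append_right (by omega)]
    rw [show S1.length + 1 + t - S1.length = t + 1 by omega, List.getElem?_cons_succ]
  · have h1 : S2.length ≤ t := by omega
    rw [hW, List.getElem?_append_right h1]
    rw [show S1.length + 1 + t - (S1 ++ s :: S2).length = t - S2.length by
      rw [← hW]; omega]
    rw [List.getElem?_append_left (by omega)]

/-- a clean window at a given offset -/
def CleanAt (θ : Par I) (o : Out I) (σ : Bool) (S1 S2 : List (I × ℤ)) (off : ℕ) : Prop :=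
  ∃ j, j + 3 < 800 ∧ (S1.length + 1 + off = lo θ o σ + j ∨
    S1.length + 1 + off = lo θ o σ + j + (800 + (tl θ o).length)) ∧
    ∀ e < 4, (S2 ++ S1)[off + e]? = some (mid θ σ (j + e))

theorem clean_of {θ : Par I} {o : Out I} {σ : Bool} {S1 S2 : List (I × ℤ)} {s : I × ℤ}
    (hW : relO θ o σ = S1 ++ s :: S2) (off : ℕ) (hoff : off ≤ 12)
    (h : (lo θ o σ ≤ S1.length + 1 + off ∧ S1.length + 1 + off + 3 < lo θ o σ + 800) ∨
      800 + (tl θ o).length + lo θ o σ ≤ S1.length + 1 + off) : CleanAt θ o σ S1 S2 off := by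
  have hlen := relO_length θ o σ
  have hlen2 : (relO θ o σ).length = S1.length + 1 + S2.length := by rw [hW]; simp; omega
  have htl := tl_length θ o
  have hlo : lo θ o σ ≤ (tl θ o).length := by unfold lo; split_ifs <;> omega
  rcases h with ⟨h1, h2⟩ | h1
  · refine ⟨S1.length + 1 + off - lo θ o σ, by omega, Or.inl (by omega), ?_⟩
    intro e he
    rw [T_get hW (off + e) (by omega), if_pos (by omega)]
    rw [← relO_get θ o σ _ (by omega)]
    congr 1
    omega
  · refine ⟨S1.length + 1 + off - (800 + (tl θ o).length) - lo θ o σ, by omega,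
      Or.inr (by omega), ?_⟩
    intro e he
    rw [T_get hW (off + e) (by omega), if_neg (by omega)]
    rw [← relO_get θ o σ _ (by omega)]
    congr 1
    omega

theorem clean_cases {θ : Par I} {o : Out I} {σ : Bool} {S1 S2 : List (I × ℤ)} {s : I × ℤ}
    (hW : relO θ o σ = S1 ++ s :: S2) :
    (CleanAt θ o σ S1 S2 0 ∧ CleanAt θ o σ S1 S2 6) ∨
    (CleanAt θ o σ S1 S2 0 ∧ CleanAt θ o σ S1 S2 12) ∨
    (CleanAt θ o σ S1 S2 6 ∧ CleanAt θ o σ S1 S2 12) := by
  have hlen := relO_length θ o σ
  have hlen2 : (relO θ o σ).length = S1.length + 1 + S2.length := by rw [hW]; simp; omega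
  have htl := tl_length θ o
  have hlo : lo θ o σ = 0 ∨ lo θ o σ = (tl θ o).length := by unfold lo; split_ifs <;> simp
  have key : ∀ off, off ≤ 12 → ¬ CleanAt θ o σ S1 S2 off →
      ¬ ((lo θ o σ ≤ S1.length + 1 + off ∧ S1.length + 1 + off + 3 < lo θ o σ + 800) ∨
      800 + (tl θ o).length + lo θ o σ ≤ S1.length + 1 + off) :=
    fun off h1 h2 h3 => h2 (clean_of hW off h1 h3)
  have k0 := key 0 (by norm_num)
  have k6 := key 6 (by norm_num)
  have k12 := key 12 (by norm_num)
  by_cases c0 : CleanAt θ o σ S1 S2 0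
  · by_cases c6 : CleanAt θ o σ S1 S2 6
    · exact Or.inl ⟨c0, c6⟩
    · by_cases c12 : CleanAt θ o σ S1 S2 12
      · exact Or.inr (Or.inl ⟨c0, c12⟩)
      · exfalso
        have k6' := k6 c6
        have k12' := k12 c12
        omega
  · by_cases c6 : CleanAt θ o σ S1 S2 6
    · by_cases c12 : CleanAt θ o σ S1 S2 12
      · exact Or.inr (Or.inr ⟨c6, c12⟩)
      · exfalso
        have k0' := k0 c0
        have k12' := k12 c12
        omega
    · exfalso
      have k0' := k0 c0
      have k6' := k6 c6
      omega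

theorem clean_common {θ θ' : Par I} {o o' : Out I} {σ σ' : Bool} {S1 S2 S1' S2' : List (I × ℤ)}
    {s s' : I × ℤ} (hW : relO θ o σ = S1 ++ s :: S2) (hW' : relO θ' o' σ' = S1' ++ s' :: S2') :
    ∃ off ≤ 12, CleanAt θ o σ S1 S2 off ∧ CleanAt θ' o' σ' S1' S2' off := by
  rcases clean_cases hW with ⟨h1, h2⟩ | ⟨h1, h2⟩ | ⟨h1, h2⟩ <;>
  rcases clean_cases hW' with ⟨h1', h2'⟩ | ⟨h1', h2'⟩ | ⟨h1', h2'⟩
  · exact ⟨0, by norm_num, h1, h1'⟩
  · exact ⟨0, by norm_num, h1, h1'⟩
  · exact ⟨6, by norm_num, h2, h1'⟩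
  · exact ⟨0, by norm_num, h1, h1'⟩
  · exact ⟨0, by norm_num, h1, h1'⟩
  · exact ⟨12, by norm_num, h2, h2'⟩
  · exact ⟨6, by norm_num, h1, h2'⟩
  · exact ⟨12, by norm_num, h2, h2'⟩
  · exact ⟨6, by norm_num, h1, h1'⟩

/-! ### lengths -/

theorem body_le (θ : Par I) (j : ℕ) (hj : j < 800) :
    (body θ j).2.natAbs ≤ (θ.k.natAbs + θ.l.natAbs) * (1400 + 400 * θ.κ) := by
  unfold body
  split_ifs
  · simp only [Int.natAbs_mul, natAbs_xe]
    apply Nat.mul_le_mul <;> omega
  · simp only [Int.natAbs_mul, natAbs_xe]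
    apply Nat.mul_le_mul <;> omega

theorem par_pos (θ : Par I) : 1 ≤ θ.k.natAbs ∧ 1 ≤ θ.l.natAbs := by
  have hk := θ.hk
  have hl := θ.hl
  omega

theorem tl_le (θ : Par I) (o : Out I) : ∀ s ∈ tl θ o,
    s.2.natAbs ≤ (θ.k.natAbs + θ.l.natAbs) * (1400 + 400 * θ.κ) := by
  obtain ⟨hk, hl⟩ := par_pos θ
  have h1 : (θ.k.natAbs + θ.l.natAbs) * 200 ≤
      (θ.k.natAbs + θ.l.natAbs) * (1400 + 400 * θ.κ) := Nat.mul_le_mul_left _ (by omega)
  intro s hs
  refine le_trans ?_ h1
  cases o <;> simp [tl] at hs
  · rcases hs with rfl | rfl <;> show Int.natAbs _ ≤ _ <;> omega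
  · rcases hs with rfl | rfl | rfl <;> show Int.natAbs _ ≤ _ <;> omega
  · rcases hs with rfl | rfl <;> show Int.natAbs _ ≤ _ <;> omega

theorem relO_le (θ : Par I) (o : Out I) (σ : Bool) : ∀ s ∈ relO θ o σ,
    s.2.natAbs ≤ (θ.k.natAbs + θ.l.natAbs) * (1400 + 400 * θ.κ) := by
  have h : ∀ s ∈ rel θ o,
      s.2.natAbs ≤ (θ.k.natAbs + θ.l.natAbs) * (1400 + 400 * θ.κ) := by
    intro s hs
    rcases List.mem_append.mp hs with h | h
    · obtain ⟨j, hj, rfl⟩ := List.mem_map.mp h
      exact body_le θ j (List.mem_range.mp hj)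
    · exact tl_le θ o s h
  cases σ with
  | true => exact h
  | false =>
    intro s hs
    have hs' : s ∈ invS (rel θ o) := hs
    unfold invS at hs'
    rw [List.mem_reverse, List.mem_map] at hs'
    obtain ⟨t, ht, rfl⟩ := hs'
    have := h t ht
    simpa using this

theorem body_sum (θ : Par I) (n : ℕ) : n * ((1000 + 400 * θ.κ) * (θ.k.natAbs + θ.l.natAbs)) ≤
    (flat ((List.range (2 * n)).map (body θ))).length := by
  induction n with
  | zero => simp
  | succ n ih =>
    have e : List.range (2 * (n + 1)) = List.range (2 * n) ++ [2 * n, 2 * n + 1] := by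
      rw [show 2 * (n + 1) = 2 * n + 1 + 1 by ring, List.range_succ, List.range_succ]
      simp
    rw [e, List.map_append, flat_append, List.length_append]
    have h1 : (1000 + 400 * θ.κ) * (θ.k.natAbs + θ.l.natAbs) ≤
        (flat ([2 * n, 2 * n + 1].map (body θ))).length := by
      simp only [List.map_cons, List.map_nil, flat_cons, flat_nil, List.length_append,
        List.length_replicate, List.length_nil, body_even, body_odd, Int.natAbs_mul, natAbs_xe]
      have h2 := Nat.mul_le_mul_left θ.k.natAbs (show 1000 + 400 * θ.κ ≤ 1000 + 400 * θ.κ + n by omega)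
      have h3 := Nat.mul_le_mul_left θ.l.natAbs (show 1000 + 400 * θ.κ ≤ 1000 + 400 * θ.κ + n by omega)
      calc (1000 + 400 * θ.κ) * (θ.k.natAbs + θ.l.natAbs)
          = θ.k.natAbs * (1000 + 400 * θ.κ) + θ.l.natAbs * (1000 + 400 * θ.κ) := by ring
        _ ≤ _ := by omega
    rw [Nat.add_mul]
    omega

theorem relO_ge (θ : Par I) (o : Out I) (σ : Bool) :
    400 * ((1000 + 400 * θ.κ) * (θ.k.natAbs + θ.l.natAbs)) ≤ (flat (relO θ o σ)).length := by
  have h : 400 * ((1000 + 400 * θ.κ) * (θ.k.natAbs + θ.l.natAbs)) ≤ (flat (rel θ o)).length := by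
    unfold rel
    rw [flat_append, List.length_append]
    have := body_sum θ 400
    rw [show 2 * 400 = 800 by norm_num] at this
    omega
  cases σ with
  | true => exact h
  | false =>
    have e : flat (relO θ o false) = invRev (flat (rel θ o)) := flat_invS _ (rel_ne θ o)
    rw [e, invRev_length]
    exact h

theorem take_len {T : List (I × ℤ)} {M : ℕ} (h : ∀ s ∈ T, s.2.natAbs ≤ M) (k : ℕ) :
    (flat (T.take k)).length ≤ k * M := by
  induction k generalizing T with
  | zero => simp
  | succ k ih =>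
    cases T with
    | nil => simp
    | cons s T =>
      rw [List.take_succ_cons, flat_cons, List.length_append, List.length_replicate]
      have h1 := ih (T := T) (fun t ht => h t (by simp [ht]))
      have h2 := h s (by simp)
      rw [Nat.add_mul]
      omega

/-- a member of the symmetrized set in terms of syllables -/
structure Rep (out : Par I → Out I) (r : List (I × Bool)) (θ : Par I) (σ : Bool)
    (S1 : List (I × ℤ)) (s : I × ℤ) (S2 : List (I × ℤ)) (a : ℕ) (s' : I × ℤ) : Prop where
  W : relO θ (out θ) σ = S1 ++ s :: S2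
  abs : a + s'.2.natAbs = s.2.natAbs
  fst : s'.1 = s.1
  sgn : 0 < s'.2 ↔ 0 < s.2
  ne : s'.2 ≠ 0
  eq : r = flat (s' :: (S2 ++ S1)) ++ List.replicate a (ltr s')

theorem exists_rep {out : Par I → Out I} {r : List (I × Bool)} (hr : r ∈ RR out) :
    ∃ θ σ S1 s S2 a s', Rep out r θ σ S1 s S2 a s' := by
  obtain ⟨θ, σ, S1, s, S2, a, b, h1, h2, h3, h4⟩ := rep hr
  have hs : s.2 ≠ 0 := relO_ne θ (out θ) σ s (by rw [h1]; simp)
  have hl : ltr (s.1, if 0 < s.2 then (b : ℤ) else -(b : ℤ)) = ltr s := by
    simp only [ltr, Prod.mk.injEq, true_and, decide_eq_decide]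
    split_ifs with h
    · constructor
      · intro _; exact h
      · intro _; omega
    · constructor
      · intro h'; omega
      · intro h'; exact absurd h' h
  refine ⟨θ, σ, S1, s, S2, a, (s.1, if 0 < s.2 then (b : ℤ) else -(b : ℤ)), h1, ?_, rfl, ?_, ?_, ?_⟩
  · show a + (if 0 < s.2 then (b : ℤ) else -(b : ℤ)).natAbs = s.2.natAbs
    split_ifs <;> (simp; omega)
  · show 0 < (if 0 < s.2 then (b : ℤ) else -(b : ℤ)) ↔ 0 < s.2
    split_ifs with h <;> simp [h] <;> omega
  · show (if 0 < s.2 then (b : ℤ) else -(b : ℤ)) ≠ 0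
    split_ifs <;> simp <;> omega
  · rw [flat_cons, hl]
    have : (s.1, if 0 < s.2 then (b : ℤ) else -(b : ℤ)).2.natAbs = b := by
      show (if 0 < s.2 then (b : ℤ) else -(b : ℤ)).natAbs = b
      split_ifs <;> simp
    rw [this, h4]

section
variable {out : Par I → Out I} {r : List (I × Bool)} {θ : Par I} {σ : Bool}
  {S1 : List (I × ℤ)} {s : I × ℤ} {S2 : List (I × ℤ)} {a : ℕ} {s' : I × ℤ}

theorem Rep.length (h : Rep out r θ σ S1 s S2 a s') :
    r.length = (flat (relO θ (out θ) σ)).length := by
  rw [h.eq, h.W]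
  have := h.abs
  simp only [flat_append, flat_cons, List.length_append, List.length_replicate]
  omega

theorem Rep.alt (hout : Fresh out) (h : Rep out r θ σ S1 s S2 a s') :
    Alt (s' :: (S2 ++ S1)) := by
  have h1 := relO_chain2 (hout θ) σ
  rw [h.W] at h1
  have h2 : (s :: (S2 ++ S1)).IsChain (fun a b => a.1 ≠ b.1) := by
    have e : S1 ++ s :: S2 ++ (S1 ++ s :: S2) = S1 ++ (s :: (S2 ++ S1)) ++ (s :: S2) := by simp
    rw [e] at h1
    exact List.IsChain.right_of_append (List.IsChain.left_of_append h1)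
  constructor
  · cases hS : S2 ++ S1 with
    | nil => simp
    | cons t T =>
      rw [hS] at h2
      rw [List.isChain_cons_cons] at h2 ⊢
      rw [h.fst]
      exact h2
  · intro t ht
    rcases List.mem_cons.mp ht with rfl | ht
    · exact h.ne
    · apply relO_ne θ (out θ) σ t
      rw [h.W]
      rcases List.mem_append.mp ht with h3 | h3
      · simp [h3]
      · simp [h3]

theorem Rep.take (h : Rep out r θ σ S1 s S2 a s') {n : ℕ} (hn : r.length ≤ 10 * n) :
    (flat ((s' :: (S2 ++ S1)).take 17)).length < n := by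
  have h1 : ∀ t ∈ s' :: (S2 ++ S1),
      t.2.natAbs ≤ (θ.k.natAbs + θ.l.natAbs) * (1400 + 400 * θ.κ) := by
    intro t ht
    rcases List.mem_cons.mp ht with rfl | ht
    · have h2 := relO_le θ (out θ) σ s (by rw [h.W]; simp)
      have := h.abs
      omega
    · apply relO_le θ (out θ) σ t
      rw [h.W]
      rcases List.mem_append.mp ht with h3 | h3
      · simp [h3]
      · simp [h3]
  have h2 := take_len h1 17
  have h3 := relO_ge θ (out θ) σ
  rw [← h.length] at h3
  obtain ⟨hk, hl⟩ := par_pos θ
  obtain ⟨M, hM⟩ : ∃ M, M = θ.k.natAbs + θ.l.natAbs := ⟨_, rfl⟩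
  rw [← hM] at h2 h3
  have e1 : 17 * (M * (1400 + 400 * θ.κ)) = 23800 * M + 6800 * (M * θ.κ) := by ring
  have e2 : 400 * ((1000 + 400 * θ.κ) * M) = 400000 * M + 160000 * (M * θ.κ) := by ring
  rw [e1] at h2
  rw [e2] at h3
  omega

theorem Rep.length_T (h : Rep out r θ σ S1 s S2 a s') : 17 < (s' :: (S2 ++ S1)).length := by
  have h1 := relO_length θ (out θ) σ
  rw [h.W] at h1
  simp at h1 ⊢
  omega

theorem Rep.pre (h : Rep out r θ σ S1 s S2 a s') {u c : List (I × Bool)} (e : r = u ++ c) :
    u <+: flat (s' :: (S2 ++ S1)) ++ List.replicate a (ltr s') := by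
  rw [← h.eq, e]
  exact ⟨c, rfl⟩

end

theorem piece {out : Par I → Out I} (hout : Fresh out) {u c c' : List (I × Bool)}
    (h : u ++ c ∈ RR out) (h' : u ++ c' ∈ RR out) (hl : (u ++ c).length ≤ 10 * u.length) :
    c = c' := by
  obtain ⟨θ, σ, S1, s, S2, a, t, hr⟩ := exists_rep h
  obtain ⟨θ', σ', S1', s', S2', a', t', hr'⟩ := exists_rep h'
  have hT := flat_take 17 (hr.alt hout) (hr'.alt hout) (hr.pre rfl) (hr'.pre rfl)
    hr.length_T hr'.length_T (hr.take hl)
  rw [List.take_succ_cons, List.take_succ_cons] at hT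
  obtain ⟨e1, e2⟩ := List.cons.inj hT
  obtain ⟨off, hoff, ⟨j, hj, hj2, hj3⟩, ⟨j', hj', hj2', hj3'⟩⟩ := clean_common hr.W hr'.W
  have hw : ∀ e < 4, mid θ σ (j + e) = mid θ' σ' (j' + e) := by
    intro e he
    have h1 : (S2 ++ S1)[off + e]? = (S2' ++ S1')[off + e]? := by
      have h2 := congrArg (fun l => l[off + e]?) e2
      simp only [List.getElem?_take] at h2
      rw [if_pos (by omega), if_pos (by omega)] at h2
      exact h2
    rw [hj3 e he, hj3' e he] at h1
    exact Option.some.inj h1
  obtain ⟨hθ, hσ, hjj⟩ := win_eq hj hj' hw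
  subst hθ hσ hjj
  have hlen : (relO θ (out θ) σ).length = 800 + (tl θ (out θ)).length := relO_length _ _ _
  have l1 : (relO θ (out θ) σ).length = S1.length + 1 + S2.length := by
    rw [hr.W]; simp; omega
  have l2 : (relO θ (out θ) σ).length = S1'.length + 1 + S2'.length := by
    rw [hr'.W]; simp; omega
  have l3 : S1.length = S1'.length := by omega
  have hWW := hr.W.symm.trans hr'.W
  obtain ⟨e3, e4⟩ := List.append_inj hWW l3
  obtain ⟨e5, e6⟩ := List.cons.inj e4
  subst e1 e3 e5 e6
  have e7 : a = a' := by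
    have h1 := hr.abs
    have h2 := hr'.abs
    omega
  subst e7
  have := hr.eq.trans hr'.eq.symm
  exact List.append_cancel_left this

/-- the generators of a long piece of a relator -/
theorem long_gens {out : Par I → Out I} {u c : List (I × Bool)}
    (h : u ++ c ∈ RR out) (hl : (u ++ c).length ≤ 10 * u.length) :
    ∃ p q : I, p ≠ q ∧ List.Sublist [p, q, p, q] (u.map Prod.fst) := by
  obtain ⟨θ, σ, S1, s, S2, a, t, hr⟩ := exists_rep h
  obtain ⟨off, hoff, ⟨j, hj, hj2, hj3⟩, _⟩ := clean_common hr.W hr.W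
  obtain ⟨g1, g2, A, Y, B, Z, hE, h0, h1, h2, h3, hA, hB, hg⟩ := enc θ σ j hj
  refine ⟨g1, g2, hg, ?_⟩
  -- the word of the first 17 syllables is a prefix of u
  have hp : flat ((t :: (S2 ++ S1)).take 17) <+: u := by
    have h4 : flat ((t :: (S2 ++ S1)).take 17) <+: u ++ c := by
      rw [hr.eq]
      refine ⟨flat ((t :: (S2 ++ S1)).drop 17) ++ List.replicate a (ltr t), ?_⟩
      rw [← List.append_assoc, ← flat_append, List.take_append_drop]
    exact List.prefix_of_prefix_length_le h4 ⟨c, rfl⟩ (hr.take hl).le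
  refine List.Sublist.trans ?_ (hp.sublist.map Prod.fst)
  -- syllables to letters
  have hflat : ∀ T : List (I × ℤ), (∀ x ∈ T, x.2 ≠ 0) →
      List.Sublist (T.map Prod.fst) ((flat T).map Prod.fst) := by
    intro T
    induction T with
    | nil => intro _; simp
    | cons x T ih =>
      intro hx
      have hx0 := hx x (by simp)
      obtain ⟨m, hm⟩ : ∃ m, x.2.natAbs = m + 1 := ⟨x.2.natAbs - 1, by omega⟩
      rw [flat_cons, hm, List.replicate_succ', List.map_append, List.map_append, List.map_cons]
      have := ih (fun y hy => hx y (by simp [hy]))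
      have h5 : List.Sublist (x.1 :: T.map Prod.fst)
          ([(ltr x)].map Prod.fst ++ (flat T).map Prod.fst) := by
        simp only [List.map_cons, List.map_nil, List.singleton_append, ltr]
        exact this.cons_cons _
      rw [List.append_assoc]
      exact h5.trans (List.sublist_append_right _ _)
  refine List.Sublist.trans ?_ (hflat _ ?_)
  · have e1 : (t :: (S2 ++ S1)).take 17 = t :: (S2 ++ S1).take 16 := rfl
    rw [e1]
    refine List.Sublist.trans ?_ ((List.sublist_cons_self t _).map Prod.fst)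
    -- the window
    have e2 : ((S2 ++ S1).take 16).drop off = [(g1, A * Y), (g2, B * Z), (g1, -(A * (Y + 1))),
        (g2, -(B * (Z + 1)))] ++ ((S2 ++ S1).take 16).drop (off + 4) := by
      apply List.ext_getElem?
      intro i
      rw [List.getElem?_drop]
      by_cases hi : i < 4
      · rw [List.getElem?_append_left (by simpa using hi), List.getElem?_take,
          if_pos (by omega), hj3 i hi]
        interval_cases i
        · rw [Nat.add_zero, h0]; rfl
        · rw [h1]; rfl
        · rw [h2]; rfl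
        · rw [h3]; rfl
      · rw [List.getElem?_append_right (by simpa using hi), List.getElem?_drop]
        congr 1
        simp
        omega
    have e3 : List.Sublist [g1, g2, g1, g2] ((((S2 ++ S1).take 16).drop off).map Prod.fst) := by
      rw [e2]
      simp
    exact e3.trans ((List.drop_sublist _ _).map Prod.fst)
  · intro x hx
    have hx' := List.mem_of_mem_take hx
    rcases List.mem_cons.mp hx' with rfl | hx'
    · exact hr.ne
    · apply relO_ne θ (out θ) σ x
      rw [hr.W]
      rcases List.mem_append.mp hx' with h3 | h3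
      · simp [h3]
      · simp [h3]

/-- words of alternating lists are reduced -/
theorem flat_reduced {T : List (I × ℤ)} (hT : Alt T) : FreeGroup.IsReduced (flat T) := by
  induction T with
  | nil => exact FreeGroup.IsReduced.nil
  | cons x T ih =>
    rw [flat_cons]
    unfold FreeGroup.IsReduced
    rw [List.isChain_append]
    refine ⟨?_, ih hT.tail, ?_⟩
    · apply List.isChain_replicate_of_rel
      intro _; rfl
    · intro y hy z hz hyz
      exfalso
      have hy1 : y = ltr x := by
        have := List.mem_of_getLast? hy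
        exact List.eq_of_mem_replicate this
      cases T with
      | nil => simp at hz
      | cons w T' =>
        have hw0 := hT.2 w (by simp)
        obtain ⟨m, hm⟩ : ∃ m, w.2.natAbs = m + 1 := ⟨w.2.natAbs - 1, by omega⟩
        rw [flat_cons, hm, List.replicate_succ] at hz
        simp at hz
        have h1 := (List.isChain_cons_cons.mp hT.1).1
        apply h1
        rw [hy1, ← hz] at hyz
        exact hyz

theorem ltr_mem {T : List (I × ℤ)} {s : I × ℤ} (h : s ∈ T) (hs : s.2 ≠ 0) :
    ltr s ∈ flat T := by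
  induction T with
  | nil => simp at h
  | cons t T ih =>
    rw [flat_cons]
    rcases List.mem_cons.mp h with rfl | h
    · apply List.mem_append_left
      rw [List.mem_replicate]
      exact ⟨by omega, rfl⟩
    · exact List.mem_append_right _ (ih h)

theorem scset {out : Par I → Out I} (hout : Fresh out) (hI : ∀ i : I, ∃ j, j ≠ i) :
    SCSet (RR out) where
  rot := by
    rintro u v ⟨θ, σ, h⟩
    exact ⟨θ, σ, h.trans List.isRotated_append⟩
  inv := by
    rintro r ⟨θ, σ, h⟩
    refine ⟨θ, !σ, ?_⟩
    have e : flat (relO θ (out θ) (!σ)) = invRev (flat (relO θ (out θ) σ)) := by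
      rw [← flat_invS _ (relO_ne θ (out θ) σ)]
      cases σ with
      | true => rfl
      | false => simp [relO, invS_invS]
    rw [e]
    unfold invRev
    exact (h.map _).reverse
  red := by
    intro r hr
    obtain ⟨θ, σ, S1, s, S2, a, t, h⟩ := exists_rep hr
    have h1 := relO_chain2 (hout θ) σ
    have h2 : (s :: (S2 ++ S1) ++ [s]).IsChain (fun a b => a.1 ≠ b.1) := by
      rw [h.W] at h1
      have e : S1 ++ s :: S2 ++ (S1 ++ s :: S2) = S1 ++ (s :: (S2 ++ S1) ++ [s]) ++ S2 := by simp
      rw [e] at h1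
      exact List.IsChain.right_of_append (List.IsChain.left_of_append h1)
    have h3 : Alt (s :: (S2 ++ S1) ++ [s]) := by
      refine ⟨h2, ?_⟩
      intro x hx
      apply relO_ne θ (out θ) σ x
      rw [h.W]
      simp at hx ⊢
      tauto
    have h4 := flat_reduced h3
    have hl : ltr t = ltr s := by
      simp only [ltr, h.fst, Prod.mk.injEq, true_and, decide_eq_decide]
      exact h.sgn
    refine red_sub h4 (List.replicate a (ltr s)) (List.replicate t.2.natAbs (ltr s)) ?_
    rw [h.eq, hl]
    have e1 : s.2.natAbs = a + t.2.natAbs := h.abs.symm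
    simp only [flat_append, flat_cons, flat_nil, List.append_nil, e1, List.replicate_add, hl,
      List.append_assoc]
  len := by
    intro r hr
    obtain ⟨θ, σ, S1, s, S2, a, t, h⟩ := exists_rep hr
    rw [h.length]
    have h1 := relO_ge θ (out θ) σ
    obtain ⟨hk, hl⟩ := par_pos θ
    have : 1 * 1 ≤ (1000 + 400 * θ.κ) * (θ.k.natAbs + θ.l.natAbs) :=
      Nat.mul_le_mul (by omega) (by omega)
    omega
  heads := by
    rintro ⟨i, b⟩
    obtain ⟨j, hj⟩ := hI i
    have hθ : ∃ θ : Par I, θ.κ = 0 ∧ θ.p = i ∧ θ.k = 1 :=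
      ⟨⟨0, i, 1, j, 1, by norm_num, hj.symm, one_ne_zero, one_ne_zero⟩, rfl, rfl, rfl⟩
    obtain ⟨θ, h1, h2, h3⟩ := hθ
    have hmem : (i, b) ∈ flat (relO θ (out θ) true) := by
      have e1 : relO θ (out θ) true = rel θ (out θ) := rfl
      rw [e1]
      cases b with
      | true =>
        have h4 : body θ 0 ∈ rel θ (out θ) :=
          List.mem_append_left _ (List.mem_map.mpr ⟨0, by simp, rfl⟩)
        have h5 := ltr_mem h4 (body_ne θ 0)
        have h6 : ltr (body θ 0) = (i, true) := by
          simp [ltr, body, h2, h3, xe]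
          omega
        rwa [h6] at h5
      | false =>
        have h4 : body θ 2 ∈ rel θ (out θ) :=
          List.mem_append_left _ (List.mem_map.mpr ⟨2, by simp, rfl⟩)
        have h5 := ltr_mem h4 (body_ne θ 2)
        have h6 : ltr (body θ 2) = (i, false) := by
          simp [ltr, body, h2, h3, xe]
          omega
        rwa [h6] at h5
    obtain ⟨u, v, e⟩ := List.append_of_mem hmem
    refine ⟨v ++ u, θ, true, ?_⟩
    rw [e]
    exact List.isRotated_append
  piece := fun u c c' h h' hl => piece hout h h' hl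

end Pool.Agent.H721.Rel
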