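import Pool.Agent.H721.Cl

set_option autoImplicit false

/-!
The single word of the reduction and the positive direction.
-/

namespace Pool.Agent.H721.Rel

open Pool.Agent.H721.SC Pool.Agent.Helper583

/-- variables -/
def X (i : ℕ) : FreeGroup ℕ := FreeGroup.of i

def cW (κ : ℕ) : FreeGroup ℕ := wW κ (X 0) (X 1)
def cM1 (b : Bool) : FreeGroup ℕ :=
  mv (X 0) (gg (wW (kP b) (X 1) (X 3)) (X 2) (X 3)) (gg (X 1) (wW (kQ b) (X 2) (X 3)) (X 3)) (X 4)
def cM2 (b : Bool) : FreeGroup ℕ :=
  mv (X 0) (gg (X 1) (wW (kQ b) (X 2) (X 3)) (X 3)) (gg (wW (kP b) (X 1) (X 3)) (X 2) (X 3)) (X 4)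
def cR (g h : List Bool) : FreeGroup ℕ :=
  mv (X 0) (gg (Pw g (X 1) (X 3)) (X 2) (X 3)) (gg (Pw h (X 1) (X 3)) (X 2) (X 3)) (X 4)
def cC (g h : List Bool) : FreeGroup ℕ := CC g h (X 0) (X 1)

/-- the moves -/
def movesL (R : List (List Bool × List Bool)) : List (FreeGroup ℕ) :=
  [cM1 false, cM1 true, cM2 false, cM2 true] ++
    R.flatMap (fun p => [cR p.1 p.2, cR p.2 p.1])

/-- the words of the list that do not depend on the input -/
def fixL (R : List (List Bool × List Bool)) : List (FreeGroup ℕ) :=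
  X 0 ^ (-((movesL R).length : ℤ)) :: ((List.range 8).map cW ++ movesL R)

/-- renaming of the variables -/
def sh : FreeGroup ℕ →* FreeGroup ℕ := FreeGroup.lift (fun i => X (i + 6))

/-- many words in one -/
def BL : List (FreeGroup ℕ) → FreeGroup ℕ
  | [] => 1
  | c :: L => KK c (sh (BL L))

/-- the word of the reduction -/
def Bw (R : List (List Bool × List Bool)) (g h : List Bool) : FreeGroup ℕ :=
  BL (cC g h :: fixL R)

/-- only the first six variables occur -/
def Low (c : FreeGroup ℕ) : Prop := ∀ (f g : ℕ → FreeGroup ℕ), (∀ i < 6, f i = g i) →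
  FreeGroup.lift f c = FreeGroup.lift g c

theorem lift_X {G : Type*} [Group G] (f : ℕ → G) (i : ℕ) : FreeGroup.lift f (X i) = f i := by
  simp [X]

theorem low_cW (κ : ℕ) : Low (cW κ) := by
  intro f g h
  simp only [cW, wW_map, lift_X, h 0 (by norm_num), h 1 (by norm_num)]

theorem low_cM1 (b : Bool) : Low (cM1 b) := by
  intro f g h
  simp only [cM1, mv_map, gg_map, wW_map, lift_X, h 0 (by norm_num), h 1 (by norm_num),
    h 2 (by norm_num), h 3 (by norm_num), h 4 (by norm_num)]

theorem low_cM2 (b : Bool) : Low (cM2 b) := by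
  intro f g h
  simp only [cM2, mv_map, gg_map, wW_map, lift_X, h 0 (by norm_num), h 1 (by norm_num),
    h 2 (by norm_num), h 3 (by norm_num), h 4 (by norm_num)]

theorem low_cR (a b : List Bool) : Low (cR a b) := by
  intro f g h
  simp only [cR, mv_map, gg_map, Pw_map, lift_X, h 0 (by norm_num), h 1 (by norm_num),
    h 2 (by norm_num), h 3 (by norm_num), h 4 (by norm_num)]

theorem low_cC (a b : List Bool) : Low (cC a b) := by
  intro f g h
  simp only [cC, CC_map, lift_X, h 0 (by norm_num), h 1 (by norm_num)]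

theorem low_pow (n : ℤ) : Low (X 0 ^ n) := by
  intro f g h
  simp only [map_zpow, lift_X, h 0 (by norm_num)]

theorem low_moves {R : List (List Bool × List Bool)} : ∀ c ∈ movesL R, Low c := by
  intro c hc
  rcases List.mem_append.mp hc with h | h
  · simp only [List.mem_cons, List.not_mem_nil, or_false] at h
    rcases h with rfl | rfl | rfl | rfl
    · exact low_cM1 _
    · exact low_cM1 _
    · exact low_cM2 _
    · exact low_cM2 _
  · obtain ⟨p, _, hp⟩ := List.mem_flatMap.mp h
    simp only [List.mem_cons, List.not_mem_nil, or_false] at hp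
    rcases hp with rfl | rfl <;> exact low_cR _ _

theorem low_fix {R : List (List Bool × List Bool)} : ∀ c ∈ fixL R, Low c := by
  intro c hc
  rcases List.mem_cons.mp hc with rfl | h
  · exact low_pow _
  · rcases List.mem_append.mp h with h | h
    · obtain ⟨κ, _, rfl⟩ := List.mem_map.mp h
      exact low_cW κ
    · exact low_moves c h

/-! ### exponent sums -/

/-- exponent sum -/
def eps : FreeGroup ℕ →* Multiplicative ℤ := FreeGroup.lift (fun _ => Multiplicative.ofAdd 1)

theorem eps_X (i : ℕ) : eps (X i) = Multiplicative.ofAdd 1 := lift_X _ i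

theorem wW_ab {A : Type*} [CommGroup A] (κ : ℕ) (a b : A) : wW κ a b = 1 :=
  wW_comm (Commute.all a b)

theorem eps_sh (w : FreeGroup ℕ) : eps (sh w) = eps w := by
  have : eps.comp sh = eps := by
    apply FreeGroup.ext_hom
    intro i
    simp [sh, eps, X]
  exact DFunLike.congr_fun this w

theorem eps_KK (a b : FreeGroup ℕ) : eps (KK a b) = eps a * eps b := by
  rw [KK_map, KK_comm (Commute.all _ _)]

theorem eps_mv (z a b x : FreeGroup ℕ) : eps (mv z a b x) = eps z := by
  rw [mv_map, mv, wW_ab, wW_ab]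
  simp

theorem eps_CC (g h : List Bool) (x y : FreeGroup ℕ) : eps (CC g h x y) = eps x * (eps y)⁻¹ := by
  rw [CC_map, CC, CCv]
  simp only [wW_ab, mul_one, inv_one]

theorem eps_BL (L : List (FreeGroup ℕ)) : eps (BL L) = (L.map eps).prod := by
  induction L with
  | nil => simp [BL]
  | cons c L ih => rw [BL, eps_KK, eps_sh, ih]; simp

theorem eps_moves {R : List (List Bool × List Bool)} : ∀ c ∈ movesL R,
    eps c = Multiplicative.ofAdd 1 := by
  intro c hc
  rcases List.mem_append.mp hc with h | h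
  · simp only [List.mem_cons, List.not_mem_nil, or_false] at h
    rcases h with rfl | rfl | rfl | rfl <;> simp only [cM1, cM2, eps_mv, eps_X]
  · obtain ⟨p, _, hp⟩ := List.mem_flatMap.mp h
    simp only [List.mem_cons, List.not_mem_nil, or_false] at hp
    rcases hp with rfl | rfl <;> simp only [cR, eps_mv, eps_X]

theorem prod_const {A : Type*} [Group A] (a : A) (L : List A) (h : ∀ c ∈ L, c = a) :
    L.prod = a ^ L.length := by
  induction L with
  | nil => simp
  | cons c L ih =>
    rw [List.prod_cons, ih (fun d hd => h d (by simp [hd])), h c (by simp), List.length_cons,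
      pow_succ']

theorem eps_Bw (R : List (List Bool × List Bool)) (g h : List Bool) : eps (Bw R g h) = 1 := by
  rw [Bw, eps_BL, List.map_cons, List.prod_cons, cC, eps_CC, eps_X, eps_X, mul_inv_cancel, one_mul,
    fixL, List.map_cons, List.prod_cons, List.map_append, List.prod_append]
  have h1 : (((List.range 8).map cW).map eps).prod = 1 := by
    rw [prod_const 1 _ ?_, one_pow]
    intro c hc
    obtain ⟨d, hd, rfl⟩ := List.mem_map.mp hc
    obtain ⟨κ, _, rfl⟩ := List.mem_map.mp hd
    rw [cW, wW_map, wW_ab]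
  have h2 : ((movesL R).map eps).prod = (Multiplicative.ofAdd (1 : ℤ)) ^ (movesL R).length := by
    rw [prod_const (Multiplicative.ofAdd (1 : ℤ)) _ ?_, List.length_map]
    intro c hc
    obtain ⟨d, hd, rfl⟩ := List.mem_map.mp hc
    exact eps_moves d hd
  rw [h1, h2, one_mul, map_zpow, eps_X, zpow_neg, zpow_natCast, inv_mul_cancel]

theorem lift_const (a : FreeGroup ℕ) (w : FreeGroup ℕ) :
    FreeGroup.lift (fun _ => a) w = a ^ (Multiplicative.toAdd (eps w)) := by
  have : FreeGroup.lift (fun _ : ℕ => a) = (zpowersHom (FreeGroup ℕ) a).comp eps := by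
    apply FreeGroup.ext_hom
    intro i
    simp [eps]
  rw [this]
  rfl

/-! ### closed sets -/

/-- sets closed under substitution containing the variables -/
structure SubCl (T : Set (FreeGroup ℕ)) : Prop where
  var : ∀ i, X i ∈ T
  sub : ∀ C ∈ T, ∀ σ : ℕ → FreeGroup ℕ, (∀ i, σ i ∈ T) → FreeGroup.lift σ C ∈ T

theorem lift_id (w : FreeGroup ℕ) : FreeGroup.lift X w = w := by
  have : FreeGroup.lift X = MonoidHom.id (FreeGroup ℕ) := by
    apply FreeGroup.ext_hom
    intro i
    simp [X]
  rw [this]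
  rfl

theorem lift_sh (σ : ℕ → FreeGroup ℕ) (w : FreeGroup ℕ) :
    FreeGroup.lift σ (sh w) = FreeGroup.lift (fun i => σ (i + 6)) w := by
  have : (FreeGroup.lift σ).comp sh = FreeGroup.lift (fun i => σ (i + 6)) := by
    apply FreeGroup.ext_hom
    intro i
    simp [sh, X]
  exact DFunLike.congr_fun this w

theorem lift_one (w : FreeGroup ℕ) : FreeGroup.lift (fun _ : ℕ => (1 : FreeGroup ℕ)) w = 1 := by
  rw [lift_const, one_zpow]

theorem extract {T : Set (FreeGroup ℕ)} (hT : SubCl T) (h1 : (1 : FreeGroup ℕ) ∈ T)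
    (L : List (FreeGroup ℕ)) (hL : ∀ c ∈ L, Low c) (hB : BL L ∈ T) : ∀ c ∈ L, c ∈ T := by
  induction L with
  | nil => simp
  | cons c L ih =>
    have hlow := hL c (by simp)
    intro d hd
    rcases List.mem_cons.mp hd with rfl | hd
    · have h2 := hT.sub _ hB (fun i => if i < 6 then X i else 1) (by
        intro i
        show (if i < 6 then X i else 1) ∈ T
        split_ifs
        · exact hT.var i
        · exact h1)
      rw [BL, KK_map, lift_sh] at h2
      have e1 : FreeGroup.lift (fun i => if i < 6 then X i else 1) d = d := by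
        rw [hlow _ X (fun i hi => if_pos hi), lift_id]
      have e2 : (fun i => (fun i => if i < 6 then X i else (1 : FreeGroup ℕ)) (i + 6)) =
          fun _ => (1 : FreeGroup ℕ) := by
        funext i
        show (if i + 6 < 6 then X (i + 6) else 1) = 1
        rw [if_neg (by omega)]
      rw [e1, e2, lift_one, KK_comm (Commute.one_right _), mul_one] at h2
      exact h2
    · apply ih (fun c hc => hL c (by simp [hc])) _ d hd
      have h2 := hT.sub _ hB (fun i => if i < 6 then 1 else X (i - 6)) (by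
        intro i
        show (if i < 6 then 1 else X (i - 6)) ∈ T
        split_ifs
        · exact h1
        · exact hT.var _)
      rw [BL, KK_map, lift_sh] at h2
      have e1 : FreeGroup.lift (fun i => if i < 6 then 1 else X (i - 6)) c = 1 := by
        rw [hlow _ (fun _ => 1) (fun i hi => if_pos hi), lift_one]
      have e2 : (fun i => (fun i => if i < 6 then (1 : FreeGroup ℕ) else X (i - 6)) (i + 6)) =
          X := by
        funext i
        show (if i + 6 < 6 then 1 else X (i + 6 - 6)) = X i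
        rw [if_neg (by omega)]
        congr 1
      rw [e1, e2, lift_id, KK_comm (Commute.one_left _), one_mul] at h2
      exact h2

section derive
variable {T : Set (FreeGroup ℕ)} {R : List (List Bool × List Bool)} {g h : List Bool}

theorem one_mem (hT : SubCl T) (hB : Bw R g h ∈ T) : (1 : FreeGroup ℕ) ∈ T := by
  have := hT.sub _ hB (fun _ => X 0) (fun _ => hT.var 0)
  rw [lift_const, eps_Bw] at this
  simpa using this

theorem all_mem (hT : SubCl T) (hB : Bw R g h ∈ T) :
    ∀ c ∈ cC g h :: fixL R, c ∈ T := by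
  apply extract hT (one_mem hT hB) _ _ hB
  intro c hc
  rcases List.mem_cons.mp hc with rfl | hc
  · exact low_cC _ _
  · exact low_fix c hc

theorem move_mem (hT : SubCl T) (hB : Bw R g h ∈ T) {c : FreeGroup ℕ} (hc : c ∈ movesL R) :
    c ∈ T := by
  apply all_mem hT hB
  apply List.mem_cons_of_mem
  apply List.mem_cons_of_mem
  exact List.mem_append_right _ hc

/-- substitution of five words -/
def s5 (z a b v x : FreeGroup ℕ) : ℕ → FreeGroup ℕ := fun i =>
  if i = 0 then z else if i = 1 then a else if i = 2 then b else if i = 3 then v else x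

theorem s5_mem {z a b v x : FreeGroup ℕ} (hz : z ∈ T) (ha : a ∈ T) (hb : b ∈ T) (hv : v ∈ T)
    (hx : x ∈ T) (i : ℕ) : s5 z a b v x i ∈ T := by
  unfold s5
  split_ifs <;> assumption

theorem tW (hT : SubCl T) (hB : Bw R g h ∈ T) {κ : ℕ} (hκ : κ < 8) {a b : FreeGroup ℕ}
    (ha : a ∈ T) (hb : b ∈ T) : wW κ a b ∈ T := by
  have h1 : cW κ ∈ T := by
    apply all_mem hT hB
    apply List.mem_cons_of_mem
    apply List.mem_cons_of_mem
    apply List.mem_append_left
    exact List.mem_map.mpr ⟨κ, List.mem_range.mpr hκ, rfl⟩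
  have h2 := hT.sub _ h1 (s5 a b a a a) (s5_mem ha hb ha ha ha)
  simpa [cW, wW_map, lift_X, s5] using h2

theorem tM1 (hT : SubCl T) (hB : Bw R g h ∈ T) (k : Bool) {z a b v x : FreeGroup ℕ}
    (hz : z ∈ T) (ha : a ∈ T) (hb : b ∈ T) (hv : v ∈ T) (hx : x ∈ T) :
    mv z (gg (wW (kP k) a v) b v) (gg a (wW (kQ k) b v) v) x ∈ T := by
  have h1 : cM1 k ∈ T := by
    apply move_mem hT hB
    apply List.mem_append_left
    cases k <;> simp
  have h2 := hT.sub _ h1 (s5 z a b v x) (s5_mem hz ha hb hv hx)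
  simpa [cM1, mv_map, gg_map, wW_map, lift_X, s5] using h2

theorem tM2 (hT : SubCl T) (hB : Bw R g h ∈ T) (k : Bool) {z a b v x : FreeGroup ℕ}
    (hz : z ∈ T) (ha : a ∈ T) (hb : b ∈ T) (hv : v ∈ T) (hx : x ∈ T) :
    mv z (gg a (wW (kQ k) b v) v) (gg (wW (kP k) a v) b v) x ∈ T := by
  have h1 : cM2 k ∈ T := by
    apply move_mem hT hB
    apply List.mem_append_left
    cases k <;> simp
  have h2 := hT.sub _ h1 (s5 z a b v x) (s5_mem hz ha hb hv hx)
  simpa [cM2, mv_map, gg_map, wW_map, lift_X, s5] using h2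

theorem tR (hT : SubCl T) (hB : Bw R g h ∈ T) {p q : List Bool}
    (hpq : (p, q) ∈ R ∨ (q, p) ∈ R) {z a b v x : FreeGroup ℕ}
    (hz : z ∈ T) (ha : a ∈ T) (hb : b ∈ T) (hv : v ∈ T) (hx : x ∈ T) :
    mv z (gg (Pw p a v) b v) (gg (Pw q a v) b v) x ∈ T := by
  have h1 : cR p q ∈ T := by
    apply move_mem hT hB
    apply List.mem_append_right
    rw [List.mem_flatMap]
    rcases hpq with h | h
    · exact ⟨_, h, by simp⟩
    · exact ⟨_, h, by simp⟩
  have h2 := hT.sub _ h1 (s5 z a b v x) (s5_mem hz ha hb hv hx)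
  simpa [cR, mv_map, gg_map, Pw_map, lift_X, s5] using h2

/-- equivalence of values -/
def VE (T : Set (FreeGroup ℕ)) (a b : FreeGroup ℕ) : Prop :=
  ∀ z ∈ T, ∀ x ∈ T, mv z a b x ∈ T

theorem VE.refl (a : FreeGroup ℕ) : VE T a a := fun z hz x _ => by
  rw [mv_self]; exact hz

theorem VE.trans {a b c : FreeGroup ℕ} (h1 : VE T a b) (h2 : VE T b c) : VE T a c :=
  fun z hz x hx => by
  have h3 := h2 _ (h1 z hz x hx) x hx
  have e : mv (mv z a b x) b c x = mv z a c x := by
    unfold mv
    group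
  rwa [e] at h3

theorem Pw_mem (hT : SubCl T) (hB : Bw R g h ∈ T) (u : List Bool) {a v : FreeGroup ℕ}
    (ha : a ∈ T) (hv : v ∈ T) : Pw u a v ∈ T := by
  induction u generalizing a with
  | nil => exact ha
  | cons k u ih => exact ih (tW hT hB (by have := kP_lt k; omega) ha hv)

theorem Qw_mem (hT : SubCl T) (hB : Bw R g h ∈ T) (u : List Bool) {a v : FreeGroup ℕ}
    (ha : a ∈ T) (hv : v ∈ T) : Qw u a v ∈ T := by
  induction u with
  | nil => exact ha
  | cons k u ih => exact tW hT hB (by have := kQ_lt k; omega) ih hv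

theorem VE_move (hT : SubCl T) (hB : Bw R g h ∈ T) (u : List Bool) {a b v : FreeGroup ℕ}
    (ha : a ∈ T) (hb : b ∈ T) (hv : v ∈ T) :
    VE T (gg (Pw u a v) b v) (gg a (Qw u b v) v) ∧
      VE T (gg a (Qw u b v) v) (gg (Pw u a v) b v) := by
  induction u generalizing a with
  | nil => exact ⟨VE.refl _, VE.refl _⟩
  | cons k u ih =>
    have h1 := ih (tW hT hB (show kP k < 8 by have := kP_lt k; omega) ha hv)
    have h2 := Qw_mem hT hB u hb hv
    rw [Pw_cons, Qw_cons]
    exact ⟨h1.1.trans (fun z hz x hx => tM1 hT hB k hz ha h2 hv hx),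
      VE.trans (fun z hz x hx => tM2 hT hB k hz ha h2 hv hx) h1.2⟩

theorem VE_step (hT : SubCl T) (hB : Bw R g h ∈ T) {a b v : FreeGroup ℕ}
    (ha : a ∈ T) (hb : b ∈ T) (hv : v ∈ T) {p q : List Bool}
    (hpq : RStep R p q ∨ RStep R q p) : VE T (gg (Pw p a v) b v) (gg (Pw q a v) b v) := by
  have key : ∀ u w p q : List Bool, ((p, q) ∈ R ∨ (q, p) ∈ R) →
      VE T (gg (Pw (u ++ p ++ w) a v) b v) (gg (Pw (u ++ q ++ w) a v) b v) := by
    intro u w p q hR
    have hu := Pw_mem hT hB u ha hv
    have hw := Qw_mem hT hB w hb hv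
    rw [Pw_append (u ++ p) w, Pw_append (u ++ q) w, Pw_append u p, Pw_append u q]
    exact ((VE_move hT hB w (Pw_mem hT hB p hu hv) hb hv).1.trans
      (fun z hz x hx => tR hT hB hR hz hu hw hv hx)).trans
      (VE_move hT hB w (Pw_mem hT hB q hu hv) hb hv).2
  rcases hpq with ⟨u, w, p, q, hR⟩ | ⟨u, w, p, q, hR⟩
  · exact key u w p q (Or.inl hR)
  · exact key u w q p (Or.inr hR)

theorem VE_gen (hT : SubCl T) (hB : Bw R g h ∈ T) {a b v : FreeGroup ℕ}
    (ha : a ∈ T) (hb : b ∈ T) (hv : v ∈ T) {p q : List Bool}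
    (hpq : Relation.EqvGen (RStep R) p q) :
    VE T (gg (Pw p a v) b v) (gg (Pw q a v) b v) ∧
      VE T (gg (Pw q a v) b v) (gg (Pw p a v) b v) := by
  induction hpq with
  | rel p q h => exact ⟨VE_step hT hB ha hb hv (Or.inl h), VE_step hT hB ha hb hv (Or.inr h)⟩
  | refl p => exact ⟨VE.refl _, VE.refl _⟩
  | symm p q _ ih => exact ⟨ih.2, ih.1⟩
  | trans p q r _ _ ih1 ih2 => exact ⟨ih1.1.trans ih2.1, ih2.2.trans ih1.2⟩

theorem div_mem (hT : SubCl T) (hB : Bw R g h ∈ T) (hgh : Relation.EqvGen (RStep R) g h)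
    {a b : FreeGroup ℕ} (ha : a ∈ T) (hb : b ∈ T) : a * b⁻¹ ∈ T := by
  have hv : wW 0 a b ∈ T := tW hT hB (by norm_num) ha hb
  have h1 : cC g h ∈ T := all_mem hT hB _ (by simp)
  have h2 := hT.sub _ h1 (s5 a b a a a) (s5_mem ha hb ha ha ha)
  have h3 : CC g h a b ∈ T := by
    simpa [cC, CC_map, lift_X, s5] using h2
  obtain ⟨v1, v2⟩ := VE_gen hT hB ha hb hv hgh
  have h4 := v1 _ h3 a ha
  have h5 := v2 _ h4 b hb
  have e : mv (mv (CC g h a b) (gg (Pw g a (wW 0 a b)) b (wW 0 a b))
      (gg (Pw h a (wW 0 a b)) b (wW 0 a b)) a) (gg (Pw h a (wW 0 a b)) b (wW 0 a b))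
      (gg (Pw g a (wW 0 a b)) b (wW 0 a b)) b = a * b⁻¹ := by
    unfold mv CC CCv
    group
  rwa [e] at h5

/-- Positive direction. -/
theorem pos_all (hT : SubCl T) (hB : Bw R g h ∈ T) (hgh : Relation.EqvGen (RStep R) g h)
    (A : FreeGroup ℕ) : A ∈ T := by
  have h1 := one_mem hT hB
  have hinv : ∀ a ∈ T, a⁻¹ ∈ T := by
    intro a ha
    have := div_mem hT hB hgh h1 ha
    simpa using this
  have hmul : ∀ a ∈ T, ∀ b ∈ T, a * b ∈ T := by
    intro a ha b hb
    have := div_mem hT hB hgh ha (hinv b hb)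
    simpa using this
  induction A using FreeGroup.induction_on with
  | C1 => exact h1
  | of i => exact hT.var i
  | inv_of i hi => exact hinv _ hi
  | mul x y hx hy => exact hmul _ hx _ hy

end derive

end Pool.Agent.H721.Rel
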