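import Pool.Agent.H721.Flat

set_option autoImplicit false

/-!
The relators `W_κ (e_p ^ k, e_q ^ l) = out` and their small cancellation property.
-/

namespace Pool.Agent.H721.Rel

open FreeGroup Pool.Agent.H721.SC

variable {I : Type}

inductive Out (I : Type)
  | one
  | letter (i : I)
  | second

/-- the exponents -/
def xe (κ i : ℕ) : ℤ := (-1) ^ i * (1000 + 400 * κ + i)

/-- parameters of a relator -/
structure Par (I : Type) where
  κ : ℕ
  p : I
  k : ℤ
  q : I
  l : ℤ
  hκ : κ < 8
  hpq : p ≠ q
  hk : k ≠ 0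
  hl : l ≠ 0

/-- body syllables -/
def body (θ : Par I) (j : ℕ) : I × ℤ :=
  if j % 2 = 0 then (θ.p, θ.k * xe θ.κ (j / 2)) else (θ.q, θ.l * xe θ.κ (j / 2))

/-- the last syllables -/
def tl (θ : Par I) : Out I → List (I × ℤ)
  | .one => [(θ.p, 200 * θ.k), (θ.q, 200 * θ.l)]
  | .letter i => [(θ.p, 200 * θ.k), (θ.q, 200 * θ.l), (i, -1)]
  | .second => [(θ.p, 200 * θ.k), (θ.q, 199 * θ.l)]

/-- the syllables of a relator -/
def rel (θ : Par I) (o : Out I) : List (I × ℤ) := (List.range 800).map (body θ) ++ tl θ o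

/-- both orientations -/
def relO (θ : Par I) (o : Out I) (σ : Bool) : List (I × ℤ) :=
  if σ then rel θ o else invS (rel θ o)

/-- output functions with fresh letters -/
def Fresh (out : Par I → Out I) : Prop := ∀ θ i, out θ = .letter i → i ≠ θ.p ∧ i ≠ θ.q

/-- the symmetrized set -/
def RR (out : Par I → Out I) : Set (List (I × Bool)) :=
  {r | ∃ θ σ, List.IsRotated (flat (relO θ (out θ) σ)) r}

theorem xe_ne (κ i : ℕ) : xe κ i ≠ 0 := by
  unfold xe
  apply mul_ne_zero
  · exact pow_ne_zero _ (by norm_num)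
  · positivity

theorem xe_succ (κ i : ℕ) : xe κ (i + 1) = - (xe κ i) - (-1) ^ i := by
  unfold xe
  rw [pow_succ]
  push_cast
  ring

theorem natAbs_xe (κ i : ℕ) : (xe κ i).natAbs = 1000 + 400 * κ + i := by
  unfold xe
  rw [Int.natAbs_mul, Int.natAbs_pow]
  simp
  omega

theorem body_ne (θ : Par I) (j : ℕ) : (body θ j).2 ≠ 0 := by
  unfold body
  split_ifs
  · exact mul_ne_zero θ.hk (xe_ne _ _)
  · exact mul_ne_zero θ.hl (xe_ne _ _)

theorem tl_ne (θ : Par I) (o : Out I) : ∀ s ∈ tl θ o, s.2 ≠ 0 := by
  have hk := θ.hk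
  have hl := θ.hl
  intro s hs
  cases o <;> simp [tl] at hs
  · rcases hs with rfl | rfl <;> simp [hk, hl]
  · rcases hs with rfl | rfl | rfl <;> simp [hk, hl]
  · rcases hs with rfl | rfl <;> simp [hk, hl]

theorem rel_ne (θ : Par I) (o : Out I) : ∀ s ∈ rel θ o, s.2 ≠ 0 := by
  intro s hs
  rcases List.mem_append.mp hs with h | h
  · obtain ⟨j, _, rfl⟩ := List.mem_map.mp h
    exact body_ne θ j
  · exact tl_ne θ o s h

theorem tl_length (θ : Par I) (o : Out I) : (tl θ o).length = 2 ∨ (tl θ o).length = 3 := by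
  cases o <;> simp [tl]

theorem invS_length (S : List (I × ℤ)) : (invS S).length = S.length := by simp [invS]

theorem invS_invS (S : List (I × ℤ)) : invS (invS S) = S := by
  simp [invS, List.map_reverse, Function.comp_def]

theorem relO_length (θ : Par I) (o : Out I) (σ : Bool) :
    (relO θ o σ).length = 800 + (tl θ o).length := by
  cases σ <;> simp [relO, invS_length, rel]

theorem chain_invS {S : List (I × ℤ)} (h : S.IsChain (fun a b => a.1 ≠ b.1)) :
    (invS S).IsChain (fun a b => a.1 ≠ b.1) := by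
  unfold invS
  rw [List.isChain_reverse, List.isChain_map]
  exact h.imp (fun a b hab => fun e => hab e.symm)

/-- a relator followed by itself alternates -/
theorem rel_chain2 {θ : Par I} {o : Out I} (ho : ∀ i, o = .letter i → i ≠ θ.p ∧ i ≠ θ.q) :
    (rel θ o ++ rel θ o).IsChain (fun a b => a.1 ≠ b.1) := by
  have hpq := θ.hpq
  have hqp : θ.q ≠ θ.p := hpq.symm
  have h1 : ((List.range 800).map (body θ)).IsChain (fun a b => a.1 ≠ b.1) := by
    rw [List.isChain_map]
    rw [List.isChain_range]
    intro m _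
    unfold body
    rcases Nat.even_or_odd m with hm | hm
    · have e1 : m % 2 = 0 := Nat.even_iff.mp hm
      have e2 : ¬ ((m + 1) % 2 = 0) := by omega
      simp only [Nat.succ_eq_add_one]
      rw [if_pos e1, if_neg e2]
      exact hpq
    · have e1 : ¬ (m % 2 = 0) := by rw [Nat.odd_iff.mp hm]; omega
      have e2 : (m + 1) % 2 = 0 := by rw [Nat.odd_iff] at hm; omega
      simp only [Nat.succ_eq_add_one]
      rw [if_neg e1, if_pos e2]
      exact hqp
  have hhead : ((List.range 800).map (body θ)).head? = some (θ.p, θ.k * xe θ.κ 0) := by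
    rw [List.head?_map, show (List.range 800).head? = some 0 by rw [List.head?_range]; rfl]
    simp [body]
  have hlast : ((List.range 800).map (body θ)).getLast? = some (θ.q, θ.l * xe θ.κ 399) := by
    simp [body, List.getLast?_range]
  have h2 : (rel θ o).IsChain (fun a b => a.1 ≠ b.1) := by
    unfold rel
    rw [List.isChain_append]
    refine ⟨h1, ?_, ?_⟩
    · cases o with
      | one => simp [tl, hpq]
      | letter i =>
        have := ho i rfl
        simp [tl, hpq, this.2.symm]
      | second => simp [tl, hpq]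
    · intro x hx y hy
      rw [hlast] at hx
      have hx' : (θ.q, θ.l * xe θ.κ 399) = x := by simpa using hx
      rw [← hx']
      cases o <;> simp [tl] at hy <;> rw [← hy] <;> exact hqp
  rw [List.isChain_append]
  refine ⟨h2, h2, ?_⟩
  intro x hx y hy
  have hy' : y.1 = θ.p := by
    unfold rel at hy
    rw [List.head?_append, hhead] at hy
    have : (θ.p, θ.k * xe θ.κ 0) = y := by simpa using hy
    rw [← this]
  rw [hy']
  unfold rel at hx
  rw [List.getLast?_append] at hx
  cases o with
  | one => simp [tl] at hx; rw [← hx]; exact hqp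
  | letter i =>
    have := ho i rfl
    simp [tl] at hx; rw [← hx]; exact this.1
  | second => simp [tl] at hx; rw [← hx]; exact hqp

theorem relO_chain2 {θ : Par I} {o : Out I} (ho : ∀ i, o = .letter i → i ≠ θ.p ∧ i ≠ θ.q)
    (σ : Bool) : (relO θ o σ ++ relO θ o σ).IsChain (fun a b => a.1 ≠ b.1) := by
  cases σ with
  | true => exact rel_chain2 ho
  | false =>
    have h := chain_invS (rel_chain2 ho)
    have e : invS (rel θ o ++ rel θ o) = invS (rel θ o) ++ invS (rel θ o) := by simp [invS]
    rw [e] at h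
    exact h

theorem relO_ne (θ : Par I) (o : Out I) (σ : Bool) : ∀ s ∈ relO θ o σ, s.2 ≠ 0 := by
  cases σ with
  | true => exact rel_ne θ o
  | false =>
    intro s hs
    have hs' : s ∈ invS (rel θ o) := hs
    unfold invS at hs'
    rw [List.mem_reverse, List.mem_map] at hs'
    obtain ⟨t, ht, rfl⟩ := hs'
    have := rel_ne θ o t ht
    simpa using this

/-- representation of the members of the symmetrized set -/
theorem rep {out : Par I → Out I} {r : List (I × Bool)} (hr : r ∈ RR out) :
    ∃ θ σ S1 s S2 a b, relO θ (out θ) σ = S1 ++ s :: S2 ∧ a + b = s.2.natAbs ∧ 0 < b ∧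
      r = List.replicate b (ltr s) ++ flat (S2 ++ S1) ++ List.replicate a (ltr s) := by
  obtain ⟨θ, σ, h⟩ := hr
  refine ⟨θ, σ, ?_⟩
  obtain ⟨n, hn, h⟩ := List.isRotated_iff_mod.mp h
  rw [List.rotate_eq_drop_append_take hn] at h
  have hne : flat (relO θ (out θ) σ) ≠ [] := by
    intro h0
    have hlen := relO_length θ (out θ) σ
    cases hW : relO θ (out θ) σ with
    | nil => rw [hW] at hlen; simp at hlen; omega
    | cons s T =>
      rw [hW] at h0
      have hs := relO_ne θ (out θ) σ s (by rw [hW]; simp)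
      simp at h0
      exact hs h0.1
  have key : ∀ u v : List (I × Bool), flat (relO θ (out θ) σ) = u ++ v → v ≠ [] → r = v ++ u →
      ∃ S1 s S2 a b, relO θ (out θ) σ = S1 ++ s :: S2 ∧ a + b = s.2.natAbs ∧ 0 < b ∧
      r = List.replicate b (ltr s) ++ flat (S2 ++ S1) ++ List.replicate a (ltr s) := by
    intro u v e hv er
    obtain ⟨S1, s, S2, a, b, e1, e2, e3, e4, e5⟩ := split_flat _ u v e hv
    exact ⟨S1, s, S2, a, b, e1, e2, e3, by rw [er, e4, e5]; simp⟩
  by_cases hd : (flat (relO θ (out θ) σ)).drop n = []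
  · apply key [] (flat (relO θ (out θ) σ)) rfl hne
    rw [← h, hd]
    have := List.take_append_drop n (flat (relO θ (out θ) σ))
    rw [hd, List.append_nil] at this
    simp [this]
  · exact key _ _ (List.take_append_drop n _).symm hd h.symm

end Pool.Agent.H721.Rel
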