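import Mathlib

set_option autoImplicit false

/-!
Small cancellation by layered Cayley complexes: inverse automata, the extension step that closes
all relators at all old vertices, and the resulting Greendlinger-type statement.
-/

namespace Pool.Agent.H721.SC

open FreeGroup

variable {α : Type}

/-- inverse letter -/
def linv (l : α × Bool) : α × Bool := (l.1, !l.2)

@[simp] theorem linv_linv (l : α × Bool) : linv (linv l) = l := by
  simp [linv]

theorem invRev_cons' (l : α × Bool) (w : List (α × Bool)) :
    invRev (l :: w) = invRev w ++ [linv l] := by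
  simp [invRev, linv]

theorem invRev_snoc (l : α × Bool) (w : List (α × Bool)) :
    invRev (w ++ [l]) = linv l :: invRev w := by
  simp [invRev, linv]

theorem invRev_ne_nil {w : List (α × Bool)} (h : w ≠ []) : invRev w ≠ [] := by
  intro h1
  apply h
  have : (invRev w).length = 0 := by rw [h1]; rfl
  rw [invRev_length] at this
  exact List.length_eq_zero_iff.mp this

/-- a factor of a reduced word is reduced -/
theorem red_sub {x v : List (α × Bool)} (h : IsReduced x) (u w : List (α × Bool))
    (e : u ++ v ++ w = x) : IsReduced v := by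
  rw [← e] at h
  exact List.IsChain.right_of_append (List.IsChain.left_of_append h)

/-- a reduced word has no cancelling neighbours -/
theorem not_red {u v : List (α × Bool)} {l : α × Bool}
    (h : IsReduced (u ++ linv l :: l :: v)) : False := by
  have h1 : IsReduced (linv l :: l :: v) := red_sub h (u) ([]) (by simp)
  have := (isReduced_cons_cons.mp h1).1
  simp [linv] at this

theorem not_red' {u v : List (α × Bool)} {l : α × Bool}
    (h : IsReduced (u ++ l :: linv l :: v)) : False := by
  have h1 : IsReduced (l :: linv l :: v) := red_sub h (u) ([]) (by simp)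
  have := (isReduced_cons_cons.mp h1).1
  simp [linv] at this

/-- inverse automata -/
structure Aut (α : Type) where
  V : Type
  E : V → α × Bool → V → Prop
  det : ∀ {x l y y'}, E x l y → E x l y' → y = y'
  sym : ∀ {x l y}, E x l y → E y (linv l) x

def Path (Γ : Aut α) : Γ.V → List (α × Bool) → Γ.V → Prop
  | x, [], y => x = y
  | x, l :: w, y => ∃ z, Γ.E x l z ∧ Path Γ z w y

section path
variable {Γ : Aut α}

@[simp] theorem path_nil {x y : Γ.V} : Path Γ x [] y ↔ x = y := Iff.rfl

@[simp] theorem path_cons {x y : Γ.V} {l : α × Bool} {w : List (α × Bool)} :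
    Path Γ x (l :: w) y ↔ ∃ z, Γ.E x l z ∧ Path Γ z w y := Iff.rfl

theorem path_append {x y : Γ.V} {u v : List (α × Bool)} :
    Path Γ x (u ++ v) y ↔ ∃ z, Path Γ x u z ∧ Path Γ z v y := by
  induction u generalizing x with
  | nil => simp
  | cons l u ih =>
    simp only [List.cons_append, path_cons, ih]
    constructor
    · rintro ⟨z, h1, z', h2, h3⟩
      exact ⟨z', ⟨z, h1, h2⟩, h3⟩
    · rintro ⟨z', ⟨z, h1, h2⟩, h3⟩
      exact ⟨z, h1, z', h2, h3⟩

theorem path_single {x y : Γ.V} {l : α × Bool} : Path Γ x [l] y ↔ Γ.E x l y := by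
  simp

theorem Path.det {x y y' : Γ.V} {u : List (α × Bool)} (h : Path Γ x u y) (h' : Path Γ x u y') :
    y = y' := by
  induction u generalizing x with
  | nil => simp at h h'; rw [← h, ← h']
  | cons l u ih =>
    obtain ⟨z, h1, h2⟩ := h
    obtain ⟨z', h1', h2'⟩ := h'
    have := Γ.det h1 h1'
    subst this
    exact ih h2 h2'

theorem Path.inv {x y : Γ.V} {u : List (α × Bool)} (h : Path Γ x u y) :
    Path Γ y (invRev u) x := by
  induction u generalizing x with
  | nil => simp at h; simp [h]
  | cons l u ih =>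
    obtain ⟨z, h1, h2⟩ := h
    rw [invRev_cons', path_append]
    exact ⟨z, ih h2, path_single.mpr (Γ.sym h1)⟩

theorem Path.bdet {x x' y : Γ.V} {u : List (α × Bool)} (h : Path Γ x u y) (h' : Path Γ x' u y) :
    x = x' := h.inv.det h'.inv

theorem Path.append {x y z : Γ.V} {u v : List (α × Bool)} (h : Path Γ x u y)
    (h' : Path Γ y v z) : Path Γ x (u ++ v) z := path_append.mpr ⟨y, h, h'⟩

/-- the tail of a path -/
theorem Path.tail {x y z : Γ.V} {u v : List (α × Bool)} (h : Path Γ x (u ++ v) z)
    (h' : Path Γ x u y) : Path Γ y v z := by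
  obtain ⟨y', h1, h2⟩ := path_append.mp h
  rw [h'.det h1]; exact h2

theorem Path.init {x y z : Γ.V} {u v : List (α × Bool)} (h : Path Γ x (u ++ v) z)
    (h' : Path Γ y v z) : Path Γ x u y := by
  obtain ⟨y', h1, h2⟩ := path_append.mp h
  rw [h'.bdet h2]; exact h1

/-- paths survive free reduction steps -/
theorem Path.step {x y : Γ.V} {u v : List (α × Bool)} (h : Path Γ x u y)
    (hs : Red.Step u v) : Path Γ x v y := by
  obtain ⟨L1, L2, a, b⟩ := hs
  obtain ⟨z, h1, h2⟩ := path_append.mp h
  obtain ⟨z1, h3, z2, h4, h5⟩ := h2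
  have h6 := Γ.sym h3
  have : z2 = z := Γ.det h4 h6
  subst this
  exact h1.append h5

theorem Path.red {x y : Γ.V} {u v : List (α × Bool)} (h : Path Γ x u y)
    (hs : Red u v) : Path Γ x v y := by
  induction hs with
  | refl => exact h
  | tail _ h2 ih => exact ih.step h2

end path

/-- symmetrized sets of relators with the metric condition of length one tenth -/
structure SCSet (R : Set (List (α × Bool))) : Prop where
  rot : ∀ u v, u ++ v ∈ R → v ++ u ∈ R
  inv : ∀ r ∈ R, invRev r ∈ R
  red : ∀ r ∈ R, IsReduced r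
  len : ∀ r ∈ R, 10 ≤ r.length
  heads : ∀ l, ∃ c, l :: c ∈ R
  piece : ∀ u c c', u ++ c ∈ R → u ++ c' ∈ R → (u ++ c).length ≤ 10 * u.length → c = c'

/-- Dehn property of an automaton -/
def Good (R : Set (List (α × Bool))) (Γ : Aut α) : Prop :=
  ∀ (x y : Γ.V) (u c : List (α × Bool)), u ++ c ∈ R → 3 * (u ++ c).length < 10 * u.length →
    Path Γ x u y → Path Γ x (u ++ c) x

/-- arcs to be added -/
structure Arc (R : Set (List (α × Bool))) (Γ : Aut α) (p : Γ.V) (a c : List (α × Bool))
    (p' : Γ.V) : Prop where
  ne : a ≠ []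
  mem : a ++ c ∈ R
  path : Path Γ p' c p
  out : ∀ l a' z, a = l :: a' → ¬ Γ.E p l z
  inn : ∀ l a' z, a = a' ++ [l] → ¬ Γ.E p' (linv l) z

section arcs
variable {R : Set (List (α × Bool))} {Γ : Aut α}

theorem Arc.rev (hR : SCSet R) {p p' : Γ.V} {a c : List (α × Bool)} (h : Arc R Γ p a c p') :
    Arc R Γ p' (invRev a) (invRev c) p where
  ne := invRev_ne_nil h.ne
  mem := by
    rw [← invRev_append]
    exact hR.inv _ (hR.rot _ _ h.mem)
  path := h.path.inv
  out := by
    intro l a' z h1
    have : a = invRev a' ++ [linv l] := by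
      rw [← invRev_cons', ← h1, invRev_invRev]
    have h2 := h.inn _ _ z this
    rwa [linv_linv] at h2
  inn := by
    intro l a' z h1
    have : a = linv l :: invRev a' := by
      rw [← invRev_snoc, ← h1, invRev_invRev]
    exact h.out _ _ z this

theorem Arc.short (hR : SCSet R) (hG : Good R Γ) {p p' : Γ.V} {a c : List (α × Bool)}
    (h : Arc R Γ p a c p') : 10 * c.length ≤ 3 * (a ++ c).length := by
  by_contra hcon
  push Not at hcon
  have h1 : Path Γ p' (c ++ a) p' := by
    apply hG p' p c a (hR.rot _ _ h.mem) _ h.path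
    simp only [List.length_append] at hcon ⊢
    omega
  have h2 : Path Γ p a p' := h1.tail h.path
  obtain ⟨l, a', rfl⟩ : ∃ l a', a = l :: a' := by
    cases a with
    | nil => exact absurd rfl h.ne
    | cons l a' => exact ⟨l, a', rfl⟩
  obtain ⟨z, h3, _⟩ := h2
  exact h.out l a' z rfl h3

theorem Arc.unique (hR : SCSet R) {p p' q' : Γ.V} {x a' b' c d : List (α × Bool)}
    (h : Arc R Γ p (x ++ a') c p') (h' : Arc R Γ p (x ++ b') d q')
    (hl : (x ++ a' ++ c).length ≤ 10 * x.length) : a' = b' ∧ c = d ∧ p' = q' := by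
  have e : a' ++ c = b' ++ d := by
    apply hR.piece x
    · have := h.mem; rwa [List.append_assoc] at this
    · have := h'.mem; rwa [List.append_assoc] at this
    · simpa [List.append_assoc] using hl
  rcases List.append_eq_append_iff.mp e with ⟨f, he1, he2⟩ | ⟨f, he1, he2⟩
  · subst he1 he2
    have hp : Path Γ p' f q' := h.path.init h'.path
    rcases List.eq_nil_or_concat' f with rfl | ⟨e0, l, rfl⟩
    · simp at hp
      simp [hp]
    · exfalso
      obtain ⟨z, h1, h2⟩ := path_append.mp hp
      exact h'.inn l (x ++ a' ++ e0) z (by simp) (Γ.sym (path_single.mp h2))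
  · subst he1 he2
    have hp : Path Γ q' f p' := h'.path.init h.path
    rcases List.eq_nil_or_concat' f with rfl | ⟨e0, l, rfl⟩
    · simp at hp
      simp [hp]
    · exfalso
      obtain ⟨z, h1, h2⟩ := path_append.mp hp
      exact h.inn l (x ++ b' ++ e0) z (by simp) (Γ.sym (path_single.mp h2))

end arcs


/-! ### canonical names of the points of an arc -/

/-- symmetric choice -/
noncomputable def pick {X : Type} (x y : X) : X := (Quot.out s(x, y)).1

theorem pick_comm {X : Type} (x y : X) : pick x y = pick y x := by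
  unfold pick; rw [Sym2.eq_swap]

theorem pick_or {X : Type} (x y : X) : pick x y = x ∨ pick x y = y :=
  Sym2.mem_iff.mp (Sym2.out_fst_mem s(x, y))

section pos
variable {V : Type}

open Classical in
noncomputable def can (p : V) (a1 a2 : List (α × Bool)) (p' : V) : V × List (α × Bool) :=
  if a1.length < a2.length then (p, a1)
  else if a2.length < a1.length then (p', invRev a2)
  else pick (p, a1) (p', invRev a2)

theorem can_cases (p : V) (a1 a2 : List (α × Bool)) (p' : V) :
    (can p a1 a2 p' = (p, a1) ∧ a1.length ≤ a2.length) ∨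
    (can p a1 a2 p' = (p', invRev a2) ∧ a2.length ≤ a1.length) := by
  unfold can
  split_ifs with h1 h2
  · left; exact ⟨rfl, h1.le⟩
  · right; exact ⟨rfl, h2.le⟩
  · rcases pick_or (p, a1) (p', invRev a2) with h | h
    · left; exact ⟨h, by omega⟩
    · right; exact ⟨h, by omega⟩

theorem can_rev (p : V) (a1 a2 : List (α × Bool)) (p' : V) :
    can p a1 a2 p' = can p' (invRev a2) (invRev a1) p := by
  unfold can
  simp only [invRev_length, invRev_invRev]
  split_ifs with h1 h2
  · omega
  · rfl
  · rfl
  · exact pick_comm _ _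

open Classical in
noncomputable def pos (p : V) (a1 a2 : List (α × Bool)) (p' : V) : V ⊕ (V × List (α × Bool)) :=
  if a1 = [] then Sum.inl p else if a2 = [] then Sum.inl p' else Sum.inr (can p a1 a2 p')

@[simp] theorem pos_nil (p : V) (a2 : List (α × Bool)) (p' : V) :
    pos p [] a2 p' = Sum.inl p := by simp [pos]

theorem pos_end (p : V) {a1 : List (α × Bool)} (h : a1 ≠ []) (p' : V) :
    pos p a1 [] p' = Sum.inl p' := by simp [pos, h]

theorem pos_mid (p : V) {a1 a2 : List (α × Bool)} (h : a1 ≠ []) (h' : a2 ≠ []) (p' : V) :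
    pos p a1 a2 p' = Sum.inr (can p a1 a2 p') := by simp [pos, h, h']

theorem pos_rev (p : V) {a1 a2 : List (α × Bool)} (h : a1 ≠ [] ∨ a2 ≠ []) (p' : V) :
    pos p a1 a2 p' = pos p' (invRev a2) (invRev a1) p := by
  by_cases h1 : a1 = []
  · subst h1
    have h2 : a2 ≠ [] := by simpa using h
    rw [pos_nil, invRev_empty, pos_end _ (invRev_ne_nil h2)]
  · by_cases h2 : a2 = []
    · subst h2
      rw [pos_end _ h1, invRev_empty, pos_nil]
    · rw [pos_mid _ h1 h2, pos_mid _ (invRev_ne_nil h2) (invRev_ne_nil h1), can_rev]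

theorem pos_short (p : V) {a1 a2 : List (α × Bool)} (h : a1 ≠ []) (hl : a1.length < a2.length)
    (p' : V) : pos p a1 a2 p' = Sum.inr (p, a1) := by
  have h2 : a2 ≠ [] := by rintro rfl; simp at hl
  rw [pos_mid _ h h2, can, if_pos hl]

theorem pos_long (p : V) {a1 a2 : List (α × Bool)} (h : a2 ≠ []) (hl : a2.length < a1.length)
    (p' : V) : pos p a1 a2 p' = Sum.inr (p', invRev a2) := by
  have h2 : a1 ≠ [] := by rintro rfl; simp at hl
  rw [pos_mid _ h2 h, can, if_neg (by omega), if_pos hl]

theorem pos_inl {p x : V} {a1 a2 : List (α × Bool)} {p' : V} (h2 : a2 ≠ [])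
    (h : pos p a1 a2 p' = Sum.inl x) : a1 = [] ∧ p = x := by
  by_cases h1 : a1 = []
  · subst h1
    rw [pos_nil] at h
    exact ⟨rfl, Sum.inl.inj h⟩
  · rw [pos_mid _ h1 h2] at h
    exact absurd h (by simp)

theorem invRev_inj {a b : List (α × Bool)} (h : invRev a = invRev b) : a = b :=
  invRev_injective h

theorem match_cases {p q p' q' : V} {a1 a2 b1 b2 : List (α × Bool)} (ha1 : a1 ≠ [])
    (ha2 : a2 ≠ []) (hb1 : b1 ≠ []) (hb2 : b2 ≠ [])
    (h : pos p a1 a2 p' = pos q b1 b2 q') :
    (p = q ∧ a1 = b1 ∧ a1.length ≤ a2.length ∧ b1.length ≤ b2.length) ∨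
    (p = q' ∧ a1 = invRev b2 ∧ a1.length ≤ a2.length ∧ b2.length ≤ b1.length) ∨
    (p' = q ∧ invRev a2 = b1 ∧ a2.length ≤ a1.length ∧ b1.length ≤ b2.length) ∨
    (p' = q' ∧ a2 = b2 ∧ a2.length ≤ a1.length ∧ b2.length ≤ b1.length) := by
  rw [pos_mid _ ha1 ha2, pos_mid _ hb1 hb2] at h
  have h' := Sum.inr.inj h
  rcases can_cases p a1 a2 p' with ⟨e1, l1⟩ | ⟨e1, l1⟩ <;>
  rcases can_cases q b1 b2 q' with ⟨e2, l2⟩ | ⟨e2, l2⟩ <;>
  rw [e1, e2] at h' <;>
  have h3 := Prod.mk.inj h'
  · left; exact ⟨h3.1, h3.2, l1, l2⟩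
  · right; left; exact ⟨h3.1, h3.2, l1, l2⟩
  · right; right; left; exact ⟨h3.1, h3.2, l1, l2⟩
  · right; right; right; exact ⟨h3.1, invRev_inj h3.2, l1, l2⟩

end pos

/-! ### the extension -/

section ext
variable (R : Set (List (α × Bool))) (Γ : Aut α)

def ExtE (v : Γ.V ⊕ (Γ.V × List (α × Bool))) (l : α × Bool)
    (v' : Γ.V ⊕ (Γ.V × List (α × Bool))) : Prop :=
  (∃ x y, v = Sum.inl x ∧ v' = Sum.inl y ∧ Γ.E x l y) ∨
  (∃ p a1 a2 c p', Arc R Γ p (a1 ++ l :: a2) c p' ∧ v = pos p a1 (l :: a2) p' ∧
    v' = pos p (a1 ++ [l]) a2 p')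

variable {R Γ}

theorem Arc.len_ge (hR : SCSet R) (hG : Good R Γ) {p p' : Γ.V} {a c : List (α × Bool)}
    (h : Arc R Γ p a c p') : 7 ≤ a.length ∧ 7 * (a ++ c).length ≤ 10 * a.length := by
  have h1 := h.short hR hG
  have h2 := hR.len _ h.mem
  simp only [List.length_append] at *
  omega

/-- arcs through the same point with the same next letter -/
theorem next_eq (hR : SCSet R) (hG : Good R Γ) {p q p' q' : Γ.V} {l : α × Bool}
    {a1 a2 b1 b2 c d : List (α × Bool)}
    (hA : Arc R Γ p (a1 ++ l :: a2) c p') (hB : Arc R Γ q (b1 ++ l :: b2) d q')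
    (h : pos p a1 (l :: a2) p' = pos q b1 (l :: b2) q') :
    pos p (a1 ++ [l]) a2 p' = pos q (b1 ++ [l]) b2 q' := by
  have lA := hA.len_ge hR hG
  have lB := hB.len_ge hR hG
  have redA : IsReduced (a1 ++ l :: a2) := red_sub (hR.red _ hA.mem) ([]) (c) (by simp)
  have redB : IsReduced (b1 ++ l :: b2) := red_sub (hR.red _ hB.mem) ([]) (d) (by simp)
  -- the case of a common beginning
  have key : p = q → a1 = b1 → pos p (a1 ++ [l]) a2 p' = pos q (b1 ++ [l]) b2 q' := by
    rintro rfl rfl
    have e1 : a1 ++ l :: a2 = (a1 ++ [l]) ++ a2 := by simp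
    have e2 : a1 ++ l :: b2 = (a1 ++ [l]) ++ b2 := by simp
    rw [e1] at hA lA
    rw [e2] at hB lB
    by_cases hc : ((a1 ++ [l]) ++ a2 ++ c).length ≤ 10 * (a1 ++ [l]).length
    · obtain ⟨h1, h2, h3⟩ := hA.unique hR hB hc
      rw [h1, h3]
    · by_cases hd : ((a1 ++ [l]) ++ b2 ++ d).length ≤ 10 * (a1 ++ [l]).length
      · obtain ⟨h1, h2, h3⟩ := hB.unique hR hA hd
        rw [h1, h3]
      · simp only [List.length_append, List.length_singleton] at hc hd lA lB
        rw [pos_short _ (by simp) (by simp only [List.length_append, List.length_singleton]; omega),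
          pos_short _ (by simp) (by simp only [List.length_append, List.length_singleton]; omega)]
  by_cases ha1 : a1 = []
  · subst ha1
    rw [pos_nil] at h
    obtain ⟨h1, h2⟩ := pos_inl (by simp) h.symm
    exact key h2.symm h1.symm
  · by_cases hb1 : b1 = []
    · subst hb1
      rw [pos_nil] at h
      obtain ⟨h1, h2⟩ := pos_inl (by simp) h
      exact absurd h1 ha1
    · rcases match_cases ha1 (by simp) hb1 (by simp) h with ⟨h1, h2, _, _⟩ | ⟨h1, h2, _, _⟩ |
        ⟨h1, h2, _, _⟩ | ⟨h1, h2, h3, h4⟩
      · exact key h1 h2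
      · exfalso
        rw [h2, invRev_cons'] at redA
        apply not_red (u := invRev b2) (v := a2) (l := l)
        simpa using redA
      · exfalso
        rw [← h2, invRev_cons'] at redB
        apply not_red (u := invRev a2) (v := b2) (l := l)
        simpa using redB
      · have h5 : a2 = b2 := (List.cons.inj h2).2
        subst h5
        subst h1
        by_cases ha2 : a2 = []
        · subst ha2
          rw [pos_end _ (by simp), pos_end _ (by simp)]
        · simp only [List.length_cons] at h3 h4
          rw [pos_long _ ha2 (by simp only [List.length_append, List.length_singleton]; omega),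
            pos_long _ ha2 (by simp only [List.length_append, List.length_singleton]; omega)]

theorem ext_det (hR : SCSet R) (hG : Good R Γ) {v y y' : Γ.V ⊕ (Γ.V × List (α × Bool))}
    {l : α × Bool} (h : ExtE R Γ v l y) (h' : ExtE R Γ v l y') : y = y' := by
  rcases h with ⟨x, z, rfl, rfl, h1⟩ | ⟨p, a1, a2, c, p', hA, e1, rfl⟩
  · rcases h' with ⟨x', z', e1, rfl, h2⟩ | ⟨p, a1, a2, c, p', hA, e1, rfl⟩
    · rw [← Sum.inl.inj e1] at h2
      rw [Γ.det h1 h2]
    · obtain ⟨rfl, rfl⟩ := pos_inl (by simp) e1.symm
      exact absurd h1 (hA.out l a2 z rfl)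
  · rcases h' with ⟨x', z', e2, rfl, h2⟩ | ⟨q, b1, b2, d, q', hB, e2, rfl⟩
    · rw [e2] at e1
      obtain ⟨rfl, rfl⟩ := pos_inl (by simp) e1.symm
      exact absurd h2 (hA.out l a2 z' rfl)
    · rw [e1] at e2
      exact next_eq hR hG hA hB e2

theorem ext_sym (hR : SCSet R) {v y : Γ.V ⊕ (Γ.V × List (α × Bool))}
    {l : α × Bool} (h : ExtE R Γ v l y) : ExtE R Γ y (linv l) v := by
  rcases h with ⟨x, z, rfl, rfl, h1⟩ | ⟨p, a1, a2, c, p', hA, rfl, rfl⟩
  · left
    exact ⟨z, x, rfl, rfl, Γ.sym h1⟩
  · right
    refine ⟨p', invRev a2, invRev a1, invRev c, p, ?_, ?_, ?_⟩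
    · have := hA.rev hR
      simpa [invRev_cons'] using this
    · rw [pos_rev _ (by simp), invRev_snoc]
    · rw [pos_rev _ (by simp), invRev_cons']

/-- the extended automaton -/
def ext (hR : SCSet R) (hG : Good R Γ) : Aut α where
  V := Γ.V ⊕ (Γ.V × List (α × Bool))
  E := ExtE R Γ
  det := ext_det hR hG
  sym := ext_sym hR

theorem ext_old {hR : SCSet R} {hG : Good R Γ} {x y : Γ.V} {u : List (α × Bool)}
    (h : Path Γ x u y) : Path (ext hR hG) (Sum.inl x) u (Sum.inl y) := by
  induction u generalizing x with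
  | nil =>
    have h' : x = y := h
    rw [h']
    rfl
  | cons l u ih =>
    obtain ⟨z, h1, h2⟩ := h
    exact ⟨Sum.inl z, Or.inl ⟨x, z, rfl, rfl, h1⟩, ih h2⟩

/-- walking along an arc -/
theorem ext_arc {hR : SCSet R} {hG : Good R Γ} {p p' : Γ.V} {a1 w a2 c : List (α × Bool)}
    (h : Arc R Γ p (a1 ++ w ++ a2) c p') :
    Path (ext hR hG) (pos p a1 (w ++ a2) p') w (pos p (a1 ++ w) a2 p') := by
  induction w generalizing a1 with
  | nil =>
    simp only [List.nil_append, List.append_nil]
    rfl
  | cons l w ih =>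
    refine ⟨pos p (a1 ++ [l]) (w ++ a2) p', Or.inr ⟨p, a1, w ++ a2, c, p', ?_, rfl, rfl⟩, ?_⟩
    · simpa using h
    · have h' : Arc R Γ p ((a1 ++ [l]) ++ w ++ a2) c p' := by simpa using h
      have := ih h'
      simpa using this

/-- a maximal readable beginning -/
theorem max_prefix (x : Γ.V) (r : List (α × Bool)) :
    (∃ y, Path Γ x r y) ∨ ∃ u l v y, r = u ++ l :: v ∧ Path Γ x u y ∧ ∀ z, ¬ Γ.E y l z := by
  induction r generalizing x with
  | nil => left; exact ⟨x, rfl⟩
  | cons l r ih =>
    by_cases h : ∃ z, Γ.E x l z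
    · obtain ⟨z, hz⟩ := h
      rcases ih z with ⟨y, hy⟩ | ⟨u, l', v, y, e, h1, h2⟩
      · left; exact ⟨y, z, hz, hy⟩
      · right
        exact ⟨l :: u, l', v, y, by simp [e], ⟨z, hz, h1⟩, h2⟩
    · right
      push Not at h
      exact ⟨[], l, r, x, rfl, rfl, h⟩

/-- in the extension every relator is closed at every old point -/
theorem ext_closed (hR : SCSet R) (hG : Good R Γ) (x : Γ.V) {r : List (α × Bool)} (hr : r ∈ R) :
    Path (ext hR hG) (Sum.inl x) r (Sum.inl x) := by
  have hlen := hR.len r hr
  rcases max_prefix x r with ⟨y, hy⟩ | ⟨u, l, v, y, e, h1, h2⟩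
  · apply ext_old
    have := hG x y r [] (by simpa using hr) (by simp; omega) hy
    simpa using this
  · rcases max_prefix x (invRev r) with ⟨y', hy'⟩ | ⟨u', l', v', y', e', h1', h2'⟩
    · exfalso
      have h3 := hG x y' (invRev r) [] (by simpa using hR.inv r hr) (by simp; omega) hy'
      simp only [List.append_nil] at h3
      have h4 := h3.inv
      rw [invRev_invRev, e] at h4
      obtain ⟨z, h5, h6⟩ := path_append.mp h4
      rw [← h1.det h5] at h6
      obtain ⟨z', h7, _⟩ := h6
      exact h2 z' h7
    · -- r = u ++ l :: v = invRev v' ++ linv l' :: invRev u'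
      have e2 : r = invRev v' ++ linv l' :: invRev u' := by
        have := congrArg invRev e'
        rw [invRev_invRev, invRev_append, invRev_cons'] at this
        simpa using this
      -- the readable end is shorter than the unreadable rest
      have hpath : Path Γ y' (invRev u') x := h1'.inv
      have e3 : u ++ (l :: v) = invRev v' ++ (linv l' :: invRev u') := by rw [← e, e2]
      -- compare
      by_cases hlt : (invRev u').length < (l :: v).length
      · -- the arc
        have e4 : ∃ a, a ≠ [] ∧ l :: v = a ++ invRev u' := by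
          rcases List.append_eq_append_iff.mp e3 with ⟨f, he1, he2⟩ | ⟨f, he1, he2⟩
          · refine ⟨f ++ [linv l'], by simp, by rw [he2]; simp⟩
          · cases f with
            | nil =>
              refine ⟨[linv l'], by simp, ?_⟩
              simp at he2
              simp [he2]
            | cons g f =>
              exfalso
              have := congrArg List.length he2
              simp at this hlt
              omega
        obtain ⟨a, ha, e5⟩ := e4
        have hArc : Arc R Γ y a (invRev u' ++ u) y' := by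
          refine ⟨ha, ?_, hpath.append h1, ?_, ?_⟩
          · have : u ++ (a ++ invRev u') ∈ R := by rw [← e5, ← e]; exact hr
            have := hR.rot _ _ this
            simpa using this
          · intro l1 a' z e6
            rw [e6] at e5
            have : l = l1 := by
              have := congrArg List.head? e5
              simpa using this
            rw [← this]; exact h2 z
          · intro l1 a' z e6
            subst e6
            have e7 : r = (u ++ a') ++ l1 :: invRev u' := by rw [e, e5]; simp
            have e8 := e2.symm.trans e7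
            have e9 := List.append_inj' e8 (by simp)
            have e10 : linv l' = l1 := (List.cons.inj e9.2).1
            rw [← e10, linv_linv]
            exact h2' z
        have p1 : Path (ext hR hG) (Sum.inl x) u (Sum.inl y) := ext_old h1
        have p2 : Path (ext hR hG) (Sum.inl y) a (Sum.inl y') := by
          have := ext_arc (hR := hR) (hG := hG) (a1 := []) (w := a) (a2 := [])
            (by simpa using hArc)
          rw [pos_nil, List.nil_append, pos_end _ ha] at this
          exact this
        have p3 : Path (ext hR hG) (Sum.inl y') (invRev u') (Sum.inl x) := ext_old hpath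
        have := p1.append (p2.append p3)
        rw [← e5, ← e] at this
        exact this
      · exfalso
        push Not at hlt
        -- invRev u' = f ++ l :: v
        have e4 : ∃ f, invRev u' = f ++ (l :: v) := by
          rcases List.append_eq_append_iff.mp e3 with ⟨f, he1, he2⟩ | ⟨f, he1, he2⟩
          · exfalso
            have := congrArg List.length he2
            simp at this hlt
            omega
          · cases f with
            | nil =>
              exfalso
              have := congrArg List.length he2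
              simp at this hlt
              omega
            | cons g f =>
              refine ⟨f, ?_⟩
              simp at he2
              exact he2.2
        obtain ⟨f, hf⟩ := e4
        rw [hf] at hpath
        obtain ⟨q, h3, h4⟩ := path_append.mp hpath
        -- from q along (l :: v) to x, then along u to y
        have h5 : Path Γ q ((l :: v) ++ u) y := h4.append h1
        have h6 : (l :: v) ++ u ∈ R := by
          apply hR.rot; rw [← e]; exact hr
        have h7 := hG q y ((l :: v) ++ u) [] (by simpa using h6) (by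
          have := hR.len _ h6
          simp only [List.append_nil]; omega) h5
        simp only [List.append_nil] at h7
        have h8 : q = y := h7.det h5
        subst h8
        obtain ⟨z, h9, _⟩ := h4
        exact h2 z h9

/-- two old points are joined by old paths only when ... : paths of the extension between new
points only -/
def Seg (v : Γ.V ⊕ (Γ.V × List (α × Bool))) (w : List (α × Bool))
    (v' : Γ.V ⊕ (Γ.V × List (α × Bool))) (R : Set (List (α × Bool))) : Prop :=
  ∃ p a1 a2 c p', Arc R Γ p (a1 ++ w ++ a2) c p' ∧ a1 ≠ [] ∧ a2 ≠ [] ∧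
    v = pos p a1 (w ++ a2) p' ∧ v' = pos p (a1 ++ w) a2 p'

/-- the last segment of a path, with the number of turns made before -/
inductive State (hR : SCSet R) (hG : Good R Γ) (v : Γ.V ⊕ (Γ.V × List (α × Bool)))
    (u : List (α × Bool)) (v' : Γ.V ⊕ (Γ.V × List (α × Bool))) : Prop
  | none (h : u = []) (h' : v = v')
  | one (p : Γ.V) (a1 a2 c : List (α × Bool)) (p' : Γ.V) (hA : Arc R Γ p (a1 ++ u ++ a2) c p')
      (h1 : a1 ≠ []) (h2 : a2 ≠ []) (hu : u ≠ []) (e : v = pos p a1 (u ++ a2) p')
      (e' : v' = pos p (a1 ++ u) a2 p')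
  | two (z : Γ.V ⊕ (Γ.V × List (α × Bool))) (w0 w : List (α × Bool))
      (p : Γ.V) (a1 a2 c : List (α × Bool)) (p' : Γ.V) (hA : Arc R Γ p (a1 ++ w ++ a2) c p')
      (h1 : a1 ≠ []) (h2 : a2 ≠ []) (hw : w ≠ []) (e : z = pos p a1 (w ++ a2) p')
      (e' : v' = pos p (a1 ++ w) a2 p') (hs : Seg v w0 z R) (hu : u = w0 ++ w)
      (hl : 10 * a1.length < (a1 ++ w ++ a2 ++ c).length)
  | long (z : Γ.V ⊕ (Γ.V × List (α × Bool))) (w1 w w3 : List (α × Bool))
      (p : Γ.V) (a1 a2 c : List (α × Bool)) (p' : Γ.V) (hA : Arc R Γ p (a1 ++ w ++ a2) c p')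
      (e : z = pos p a1 (w ++ a2) p') (hz : Path (ext hR hG) v w1 z)
      (hl : (a1 ++ w ++ a2 ++ c).length ≤ 10 * w.length) (hu : u = w1 ++ w ++ w3)

/-- how a segment can be continued by an edge of the extension between new points -/
theorem continuation (hR : SCSet R) {p p' q q' : Γ.V}
    {a1 w a2 c b1 b2 d : List (α × Bool)} {l : α × Bool}
    (hA : Arc R Γ p (a1 ++ w ++ a2) c p') (hB : Arc R Γ q (b1 ++ l :: b2) d q')
    (ha1 : a1 ≠ []) (ha2 : a2 ≠ []) (hw : w ≠ []) (hb1 : b1 ≠ []) (hb2 : b2 ≠ [])
    (hred : IsReduced (w ++ [l]))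
    (he : pos p (a1 ++ w) a2 p' = pos q b1 (l :: b2) q') :
    (∃ p2 x1 x2 c2 p2', Arc R Γ p2 (x1 ++ (w ++ [l]) ++ x2) c2 p2' ∧ x1 ≠ [] ∧ x2 ≠ [] ∧
      pos p a1 (w ++ a2) p' = pos p2 x1 ((w ++ [l]) ++ x2) p2' ∧
      pos q (b1 ++ [l]) b2 q' = pos p2 (x1 ++ (w ++ [l])) x2 p2' ∧
      (10 * a1.length < (a1 ++ w ++ a2 ++ c).length →
        10 * x1.length < (x1 ++ (w ++ [l]) ++ x2 ++ c2).length)) ∨
    (10 * b1.length < (b1 ++ l :: b2 ++ d).length ∧
      10 * a2.length < (a1 ++ w ++ a2 ++ c).length) := by
  have hwl : 0 < w.length := List.length_pos_iff.mpr hw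
  rcases match_cases (by simp [ha1]) ha2 hb1 (by simp) he with ⟨h1, h2, h3, h4⟩ |
    ⟨h1, h2, h3, h4⟩ | ⟨h1, h2, h3, h4⟩ | ⟨h1, h2, h3, h4⟩
  · -- same beginning: pass to the arc B
    left
    subst h1
    subst h2
    refine ⟨p, a1, b2, d, q', by simpa using hB, ha1, hb2, ?_, by simp, ?_⟩
    · simp only [List.length_append, List.length_cons] at h3 h4
      rw [pos_short _ ha1 (by simp only [List.length_append]; omega),
        pos_short _ ha1 (by simp only [List.length_append, List.length_singleton]; omega)]
    · intro h5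
      by_contra h6
      push Not at h6
      have hB' : Arc R Γ p (a1 ++ (w ++ l :: b2)) d q' := by simpa using hB
      have hA' : Arc R Γ p (a1 ++ (w ++ a2)) c p' := by simpa using hA
      obtain ⟨e1, e2, e3⟩ := hB'.unique hR hA' (by
        simp only [List.length_append, List.length_cons] at h6 ⊢
        omega)
      have e4 := congrArg List.length e1
      have e5 := congrArg List.length e2
      simp only [List.length_append, List.length_cons] at *
      omega
  · exfalso
    rw [invRev_cons'] at h2
    obtain ⟨w', l', rfl⟩ : ∃ w' l', w = w' ++ [l'] := by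
      rcases List.eq_nil_or_concat' w with h | h
      · exact absurd h hw
      · exact h
    have : l' = linv l := by
      have h5 : (a1 ++ w') ++ [l'] = invRev b2 ++ [linv l] := by simpa using h2
      have := (List.append_inj' h5 rfl).2
      simpa using this
    subst this
    apply not_red (u := w') (v := []) (l := l)
    simpa using hred
  · right
    subst h1
    have hA' : Arc R Γ p' (invRev a2 ++ (invRev w ++ invRev a1)) (invRev c) p := by
      have := hA.rev hR
      simpa using this
    rw [← h2] at hB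
    have key : ¬ (invRev w ++ invRev a1 = l :: b2) := by
      intro e1
      obtain ⟨w', l', rfl⟩ : ∃ w' l', w = w' ++ [l'] := by
        rcases List.eq_nil_or_concat' w with h | h
        · exact absurd h hw
        · exact h
      rw [invRev_snoc] at e1
      have : linv l' = l := by simpa using (List.cons.inj e1).1
      rw [← this] at hred
      apply not_red' (u := w') (v := []) (l := l')
      simpa using hred
    rw [← h2]
    constructor
    · by_contra h6
      push Not at h6
      obtain ⟨e1, e2, e3⟩ := hB.unique hR hA' h6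
      exact key e1.symm
    · by_contra h6
      push Not at h6
      obtain ⟨e1, e2, e3⟩ := hA'.unique hR hB (by
        simp only [List.length_append, invRev_length] at h6 ⊢
        omega)
      exact key e1
  · left
    subst h1
    subst h2
    refine ⟨p, a1, b2, c, p', by simpa using hA, ha1, hb2, by simp, ?_, ?_⟩
    · simp only [List.length_append, List.length_cons] at h3 h4
      rw [pos_long _ hb2 (by simp only [List.length_append, List.length_singleton]; omega),
        pos_long _ hb2 (by simp only [List.length_append, List.length_singleton]; omega)]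
    · intro h5
      simp only [List.length_append, List.length_cons] at *
      omega

theorem new_state (hR : SCSet R) (hG : Good R Γ) {v v' : Γ.V ⊕ (Γ.V × List (α × Bool))}
    {u : List (α × Bool)} (hp : Path (ext hR hG) v u v')
    (hn : ∀ u1 u2 x, u = u1 ++ u2 → ¬ Path (ext hR hG) v u1 (Sum.inl x))
    (hu : IsReduced u) : State hR hG v u v' := by
  induction u using List.reverseRecOn generalizing v' with
  | nil => exact State.none rfl hp
  | append_singleton u l ih =>
    obtain ⟨v1, hp1, hp2⟩ := path_append.mp hp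
    have hE : ExtE R Γ v1 l v' := path_single.mp hp2
    have hu1 : IsReduced u := red_sub hu ([]) ([l]) (by simp)
    have ih' := ih hp1 (fun u1 u2 x e => hn u1 (u2 ++ [l]) x (by simp [e])) hu1
    -- the new edge lies on an arc, away from the ends
    have hv1 : ∀ x, v1 ≠ Sum.inl x := by
      rintro x rfl
      exact hn u [l] x rfl hp1
    have hv' : ∀ x, v' ≠ Sum.inl x := by
      rintro x rfl
      exact hn (u ++ [l]) [] x (by simp) hp
    rcases hE with ⟨x, y, e, _, _⟩ | ⟨q, b1, b2, d, q', hB, e1, e2⟩
    · exact absurd e (hv1 x)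
    have hb1 : b1 ≠ [] := by
      rintro rfl
      rw [pos_nil] at e1
      exact hv1 _ e1
    have hb2 : b2 ≠ [] := by
      rintro rfl
      rw [pos_end _ (by simp)] at e2
      exact hv' _ e2
    rcases ih' with ⟨h, h'⟩ | ⟨p, a1, a2, c, p', hA, ha1, ha2, hu0, e, e'⟩ |
      ⟨z, w0, w, p, a1, a2, c, p', hA, ha1, ha2, hw, e, e', hs, hu0, hl⟩ |
      ⟨z, w1, w, w3, p, a1, a2, c, p', hA, e, hz, hl, hu0⟩
    · subst h
      subst h'
      exact State.one q b1 b2 d q' (by simpa using hB) hb1 hb2 (by simp) (by simpa using e1)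
        (by simpa using e2)
    · rcases continuation hR hA hB ha1 ha2 hu0 hb1 hb2 hu (by rw [← e', e1]) with
        ⟨p2, x1, x2, c2, p2', h1, h2, h3, h4, h5, h6⟩ | ⟨h1, h2⟩
      · exact State.one p2 x1 x2 c2 p2' h1 h2 h3 (by simp) (by rw [e, h4]) (by rw [e2, h5])
      · exact State.two v1 u [l] q b1 b2 d q' (by simpa using hB) hb1 hb2 (by simp)
          (by simpa using e1) e2 ⟨p, a1, a2, c, p', hA, ha1, ha2, e, e'⟩ rfl (by simpa using h1)
    · rcases continuation hR hA hB ha1 ha2 hw hb1 hb2
        (red_sub hu (w0) ([]) (by simp [hu0])) (by rw [← e', e1]) with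
        ⟨p2, x1, x2, c2, p2', h1, h2, h3, h4, h5, h6⟩ | ⟨h1, h2⟩
      · exact State.two z w0 (w ++ [l]) p2 x1 x2 c2 p2' h1 h2 h3 (by simp) (by rw [e, h4])
          (by rw [e2, h5]) hs (by simp [hu0]) (h6 hl)
      · have lA := hA.len_ge hR hG
        obtain ⟨p1, y1, y2, c1, p1', hA1, _, _, rfl, rfl⟩ := hs
        refine State.long _ w0 w [l] p a1 a2 c p' hA e (ext_arc hA1) ?_ (by simp [hu0])
        simp only [List.length_append] at *
        omega
    · exact State.long z w1 w (w3 ++ [l]) p a1 a2 c p' hA e hz hl (by simp [hu0])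

/-- a relator sharing a long piece with an arc is the relator of the arc -/
theorem align {hR : SCSet R} {hG : Good R Γ} {x : Γ.V ⊕ (Γ.V × List (α × Bool))} {p p' : Γ.V}
    {a1 w a2 c w1 w3 cc : List (α × Bool)} (hA : Arc R Γ p (a1 ++ w ++ a2) c p')
    (hz : Path (ext hR hG) x w1 (pos p a1 (w ++ a2) p')) (hr : w1 ++ w ++ w3 ++ cc ∈ R)
    (hl : (w1 ++ w ++ w3 ++ cc).length ≤ 10 * w.length ∨
      (a1 ++ w ++ a2 ++ c).length ≤ 10 * w.length) :
    Path (ext hR hG) x (w1 ++ w ++ w3 ++ cc) x := by
  have hne : a1 ++ w ++ a2 ≠ [] := hA.ne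
  have m1 : w ++ (w3 ++ cc ++ w1) ∈ R := by
    have := hR.rot w1 (w ++ w3 ++ cc) (by simpa using hr)
    simpa using this
  have m2 : w ++ (a2 ++ c ++ a1) ∈ R := by
    have := hR.rot a1 (w ++ a2 ++ c) (by simpa using hA.mem)
    simpa using this
  have e : w3 ++ cc ++ w1 = a2 ++ c ++ a1 := by
    rcases hl with hl | hl
    · exact hR.piece w _ _ m1 m2 (by simp only [List.length_append] at *; omega)
    · exact (hR.piece w _ _ m2 m1 (by simp only [List.length_append] at *; omega)).symm
  have p1 : Path (ext hR hG) (pos p a1 (w ++ a2) p') (w ++ a2) (Sum.inl p') := by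
    have := ext_arc (hR := hR) (hG := hG) (a1 := a1) (w := w ++ a2) (a2 := []) (c := c)
      (p := p) (p' := p') (by simpa using hA)
    rw [pos_end _ (by simpa using hne), List.append_nil] at this
    exact this
  have p2 : Path (ext hR hG) (Sum.inl p') c (Sum.inl p) := ext_old hA.path
  have p3 : Path (ext hR hG) (Sum.inl p) a1 (pos p a1 (w ++ a2) p') := by
    have := ext_arc (hR := hR) (hG := hG) (a1 := []) (w := a1) (a2 := w ++ a2) (c := c)
      (p := p) (p' := p') (by simpa using hA)
    rw [pos_nil, List.nil_append] at this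
    exact this
  have p4 := p1.append (p2.append p3)
  have e2 : w ++ a2 ++ (c ++ a1) = (w ++ w3 ++ cc) ++ w1 := by
    have : w ++ (a2 ++ c ++ a1) = w ++ (w3 ++ cc ++ w1) := by rw [e]
    simpa using this
  rw [e2] at p4
  obtain ⟨q, h1, h2⟩ := path_append.mp p4
  have : x = q := hz.bdet h2
  subst this
  have := hz.append h1
  simpa using this

/-- the extension again has the Dehn property -/
theorem ext_good (hR : SCSet R) (hG : Good R Γ) : Good R (ext hR hG) := by
  intro x y u c hmem hl hp
  by_cases hold : ∃ u1 u2 x0, u = u1 ++ u2 ∧ Path (ext hR hG) x u1 (Sum.inl x0)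
  · obtain ⟨u1, u2, x0, rfl, h1⟩ := hold
    have h2 : (u2 ++ c) ++ u1 ∈ R := hR.rot u1 (u2 ++ c) (by simpa using hmem)
    have h3 := ext_closed hR hG x0 h2
    obtain ⟨q, h4, h5⟩ := path_append.mp h3
    have : x = q := h1.bdet h5
    subst this
    have := h1.append h4
    simpa using this
  · push Not at hold
    have hu : IsReduced u := red_sub (hR.red _ hmem) ([]) (c) (by simp)
    rcases new_state hR hG hp (fun u1 u2 x0 e => hold u1 u2 x0 e) hu with ⟨h, h'⟩ |
      ⟨p, a1, a2, d, p', hA, ha1, ha2, hu0, e, e'⟩ |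
      ⟨z, w0, w, p, a1, a2, d, p', hA, ha1, ha2, hw, e, e', hs, hu0, hl'⟩ |
      ⟨z, w1, w, w3, p, a1, a2, d, p', hA, e, hz, hl', hu0⟩
    · subst h
      simp at hl
    · have := align (hR := hR) (hG := hG) (x := x) (w1 := []) (w3 := []) (cc := c) hA
        (by rw [← e]; rfl) (by simpa using hmem) (by
          left
          simp only [List.nil_append, List.append_nil]
          omega)
      simpa using this
    · subst hu0
      obtain ⟨p1, y1, y2, c1, p1', hA1, hy1, hy2, hxe, hze⟩ := hs
      by_cases h0 : (w0 ++ w ++ c).length ≤ 10 * w0.length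
      · have := align (hR := hR) (hG := hG) (x := x) (w1 := []) (w3 := w) (cc := c) hA1
          (by rw [← hxe]; rfl) (by simpa using hmem) (by
            left
            simpa using h0)
        simpa using this
      · have hz : Path (ext hR hG) x w0 z := by
          rw [hxe, hze]; exact ext_arc hA1
        have := align (hR := hR) (hG := hG) (x := x) (w1 := w0) (w3 := []) (cc := c) hA
          (by rw [← e]; exact hz) (by simpa using hmem) (by
            left
            simp only [List.length_append, List.append_nil] at *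
            omega)
        simpa using this
    · subst hu0
      exact align hA (by rw [← e]; exact hz) hmem (Or.inr hl')

end ext

/-! ### the normal closure -/

structure Extends (Γ Γ' : Aut α) (ι : Γ.V → Γ'.V) : Prop where
  inj : Function.Injective ι
  map : ∀ x u y, Path Γ x u y → Path Γ' (ι x) u (ι y)

theorem Extends.refl (Γ : Aut α) : Extends Γ Γ id := ⟨Function.injective_id, fun _ _ _ h => h⟩

theorem Extends.trans {Γ Γ' Γ'' : Aut α} {ι : Γ.V → Γ'.V} {κ : Γ'.V → Γ''.V}
    (h : Extends Γ Γ' ι) (h' : Extends Γ' Γ'' κ) : Extends Γ Γ'' (κ ∘ ι) :=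
  ⟨h'.inj.comp h.inj, fun _ _ _ hp => h'.map _ _ _ (h.map _ _ _ hp)⟩

theorem ext_extends {R : Set (List (α × Bool))} (hR : SCSet R) {Γ : Aut α} (hG : Good R Γ) :
    Extends Γ (ext hR hG) Sum.inl :=
  ⟨Sum.inl_injective, fun _ _ _ h => ext_old h⟩

theorem readable {R : Set (List (α × Bool))} (hR : SCSet R) (s : List (α × Bool)) :
    ∀ (Γ : Aut α), Good R Γ → ∀ v : Γ.V, ∃ Γ' : Aut α, Good R Γ' ∧ ∃ ι : Γ.V → Γ'.V,
      Extends Γ Γ' ι ∧ ∃ y, Path Γ' (ι v) s y := by
  induction s with
  | nil => exact fun Γ hG v => ⟨Γ, hG, id, Extends.refl Γ, v, rfl⟩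
  | cons l s ih =>
    intro Γ hG v
    obtain ⟨c, hc⟩ := hR.heads l
    have h1 := ext_closed hR hG v hc
    obtain ⟨z, h2, _⟩ := h1
    obtain ⟨Γ', hG', ι, hι, y, hy⟩ := ih (ext hR hG) (ext_good hR hG) z
    refine ⟨Γ', hG', ι ∘ Sum.inl, (ext_extends hR hG).trans hι, y, ?_⟩
    have h3 : Path Γ' (ι (Sum.inl v)) [l] (ι z) := hι.map _ _ _ (path_single.mpr h2)
    exact h3.append hy

/-- the elements that can be closed everywhere -/
def closable {R : Set (List (α × Bool))} (_hR : SCSet R) : Subgroup (FreeGroup α) where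
  carrier := {g | ∀ (Γ : Aut α), Good R Γ → ∀ v : Γ.V, ∃ Γ' : Aut α, Good R Γ' ∧
    ∃ ι : Γ.V → Γ'.V, Extends Γ Γ' ι ∧ ∃ w, FreeGroup.mk w = g ∧ Path Γ' (ι v) w (ι v)}
  one_mem' := fun Γ hG v => ⟨Γ, hG, id, Extends.refl Γ, [], rfl, rfl⟩
  mul_mem' := by
    intro g h hg hh Γ hG v
    obtain ⟨Γ1, hG1, ι1, hι1, w1, e1, p1⟩ := hg Γ hG v
    obtain ⟨Γ2, hG2, ι2, hι2, w2, e2, p2⟩ := hh Γ1 hG1 (ι1 v)
    refine ⟨Γ2, hG2, ι2 ∘ ι1, hι1.trans hι2, w1 ++ w2, ?_, ?_⟩
    · rw [← e1, ← e2]; rfl
    · exact (hι2.map _ _ _ p1).append p2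
  inv_mem' := by
    intro g hg Γ hG v
    obtain ⟨Γ1, hG1, ι1, hι1, w1, e1, p1⟩ := hg Γ hG v
    exact ⟨Γ1, hG1, ι1, hι1, invRev w1, by rw [← e1]; rfl, p1.inv⟩

theorem closable_normal {R : Set (List (α × Bool))} (hR : SCSet R) : (closable hR).Normal := by
  constructor
  intro g hg x Γ hG v
  obtain ⟨s, rfl⟩ := Quot.exists_rep x
  obtain ⟨Γ1, hG1, ι1, hι1, y, hy⟩ := readable hR s Γ hG v
  obtain ⟨Γ2, hG2, ι2, hι2, w, e, p⟩ := hg Γ1 hG1 y
  refine ⟨Γ2, hG2, ι2 ∘ ι1, hι1.trans hι2, s ++ w ++ invRev s, ?_, ?_⟩
  · rw [← e]; rfl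
  · have h1 := hι2.map _ _ _ hy
    exact (h1.append p).append h1.inv

theorem closure_le {R : Set (List (α × Bool))} (hR : SCSet R) :
    Subgroup.normalClosure (FreeGroup.mk '' R) ≤ closable hR := by
  have := closable_normal hR
  apply Subgroup.normalClosure_le_normal
  rintro _ ⟨r, hr, rfl⟩ Γ hG v
  exact ⟨ext hR hG, ext_good hR hG, Sum.inl, ext_extends hR hG, r, rfl, ext_closed hR hG v hr⟩

/-! ### the line of a word -/

/-- the line labelled by a reduced word -/
def line (w : List (α × Bool)) (hw : IsReduced w) : Aut α where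
  V := ℕ
  E := fun i l j => (w[i]? = some l ∧ j = i + 1) ∨ (w[j]? = some (linv l) ∧ i = j + 1)
  det := by
    have key : ∀ i (l : α × Bool), w[i + 1]? = some l → w[i]? = some (linv l) → False := by
      intro i l h1 h2
      obtain ⟨h3, h4⟩ := List.getElem?_eq_some_iff.mp h1
      obtain ⟨h5, h6⟩ := List.getElem?_eq_some_iff.mp h2
      have h7 := List.isChain_iff_getElem.mp hw i (by omega)
      rw [h4, h6] at h7
      simp [linv] at h7
    rintro x l y y' (⟨h1, h2⟩ | ⟨h1, h2⟩) (⟨h3, h4⟩ | ⟨h3, h4⟩)
    · rw [h2, h4]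
    · subst h4; exact absurd h3 (fun h3 => key _ _ h1 h3)
    · subst h2; exact absurd h1 (fun h1 => key _ _ h3 h1)
    · omega
  sym := by
    rintro x l y (⟨h1, h2⟩ | ⟨h1, h2⟩)
    · right; exact ⟨by rw [linv_linv]; exact h1, h2⟩
    · left; exact ⟨h1, h2⟩

/-- reduced words readable on a line go straight -/
theorem line_path (w : List (α × Bool)) (hw : IsReduced w) (u : List (α × Bool))
    (hu : IsReduced u) :
    ∀ i j : ℕ, Path (line w hw) i u j →
      (j = i + u.length ∧ u <+: w.drop i) ∨ (i = j + u.length ∧ invRev u <+: w.drop j) := by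
  induction u with
  | nil =>
    intro i j h
    have : i = j := h
    left; simp [this]
  | cons l u ih =>
    intro i j h
    obtain ⟨k, h1, h2⟩ := h
    have hu' : IsReduced u := red_sub hu ([l]) ([]) (by simp)
    have ih' := ih hu' k j h2
    have hg : ∀ (m : ℕ) (g : α × Bool), w[m]? = some g → w.drop m = g :: w.drop (m + 1) := by
      intro m g h
      obtain ⟨h3, h4⟩ := List.getElem?_eq_some_iff.mp h
      rw [← h4]
      exact List.drop_eq_getElem_cons h3
    rcases h1 with ⟨h1, rfl⟩ | ⟨h1, rfl⟩
    · rcases ih' with ⟨e1, e2⟩ | ⟨e1, e2⟩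
      · left
        refine ⟨by rw [e1]; simp; omega, ?_⟩
        rw [hg _ _ h1]
        exact List.prefix_cons_inj _ |>.mpr e2
      · cases u with
        | nil =>
          left
          simp at e1
          refine ⟨by simp [e1], ?_⟩
          rw [hg _ _ h1]
          simp
        | cons l' u' =>
          exfalso
          -- the last letter of invRev (l' :: u') is w[i]
          have e3 : i = j + u'.length := by simp at e1; omega
          obtain ⟨t, ht⟩ := e2
          have h5 : w[i]? = some (linv l') := by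
            have : (w.drop j)[u'.length]? = some (linv l') := by
              rw [← ht, invRev_cons']
              simp
            rw [List.getElem?_drop] at this
            rw [e3]; exact this
          rw [h1] at h5
          have h6 : l = linv l' := Option.some.inj h5
          have : l' = linv l := by rw [h6, linv_linv]
          subst this
          exact not_red' (u := []) (v := u') (l := l) (by simpa using hu)
    · rcases ih' with ⟨e1, e2⟩ | ⟨e1, e2⟩
      · cases u with
        | nil =>
          right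
          simp at e1
          subst e1
          refine ⟨by simp, ?_⟩
          rw [hg _ _ h1]
          simp [invRev, linv]
        | cons l' u' =>
          exfalso
          rw [hg _ _ h1] at e2
          have h6 : l' = linv l := by
            obtain ⟨t, ht⟩ := e2
            simpa using (List.cons.inj ht).1
          subst h6
          exact not_red' (u := []) (v := u') (l := l) (by simpa using hu)
      · right
        refine ⟨by rw [e1]; simp; omega, ?_⟩
        obtain ⟨t, ht⟩ := e2
        have h5 : w[j + u.length]? = some (linv l) := by rw [← e1]; exact h1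
        rw [invRev_cons']
        have h6 := hg _ _ h5
        refine ⟨w.drop (j + u.length + 1), ?_⟩
        rw [List.append_assoc, List.singleton_append, ← h6]
        have h7 : invRev u = (w.drop j).take u.length := by
          rw [← ht]; simp
        rw [h7, ← List.drop_drop, List.take_append_drop]

/-- Greendlinger type theorem: a nonempty reduced word in the normal closure contains more
than three tenths of a relator -/
theorem dehn {R : Set (List (α × Bool))} (hR : SCSet R) (w : List (α × Bool))
    (hw : IsReduced w) (hne : w ≠ [])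
    (hno : ∀ u c, u ++ c ∈ R → 3 * (u ++ c).length < 10 * u.length → ¬ u <:+: w) :
    FreeGroup.mk w ∉ Subgroup.normalClosure (FreeGroup.mk '' R) := by
  classical
  intro hmem
  have hG : Good R (line w hw) := by
    intro x y u c hm hl hp
    exfalso
    have hu : IsReduced u := red_sub (hR.red _ hm) ([]) (c) (by simp)
    rcases line_path w hw u hu x y hp with ⟨_, h⟩ | ⟨_, h⟩
    · exact hno u c hm hl (h.isInfix.trans (List.drop_suffix _ _).isInfix)
    · have h1 : invRev u ++ invRev c ∈ R := by
        rw [← invRev_append]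
        exact hR.inv _ (hR.rot _ _ hm)
      exact hno (invRev u) (invRev c) h1 (by simpa using hl)
        (h.isInfix.trans (List.drop_suffix _ _).isInfix)
  obtain ⟨Γ', hG', ι, hι, w', e, p⟩ := closure_le hR hmem (line w hw) hG (0 : ℕ)
  have hred : Red w' w := by
    have h1 : FreeGroup.reduce w' = FreeGroup.reduce w := FreeGroup.reduce.sound e
    rw [hw.reduce_eq] at h1
    rw [← h1]
    exact FreeGroup.reduce.red
  have p1 := p.red hred
  -- the word leads from 0 to its length
  have p2 : ∀ (s t : List (α × Bool)), w = s ++ t →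
      Path (line w hw) (s.length : ℕ) t (w.length : ℕ) := by
    intro s t
    induction t generalizing s with
    | nil =>
      intro h
      have h' : s.length = w.length := by rw [h]; simp
      exact h'
    | cons l t ih =>
      intro h
      refine ⟨(s.length + 1 : ℕ), Or.inl ⟨?_, rfl⟩, ?_⟩
      · rw [h]; simp
      · have := ih (s ++ [l]) (by rw [h]; simp)
        simpa using this
  have p3 := hι.map _ _ _ (p2 [] w rfl)
  have h4 := p1.det p3
  have h5 := hι.inj h4
  have h6 : (0 : ℕ) = w.length := h5
  exact hne (List.length_eq_zero_iff.mp h6.symm)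

end Pool.Agent.H721.SC
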