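import Pool.Agent.H721.Grp
import Pool.Graph.R_seed8.Helper583.Insep

set_option autoImplicit false

/-!
Tokens: the index set of the generators and the values of the words on powers of generators.
-/

namespace Pool.Agent.H721.Rel

open Pool.Agent.H721.SC Pool.Agent.Helper583

/-- payloads -/
inductive Pay (s : Type)
  | v
  | z (w : List Bool)
  | u (w : List Bool)
  | h (c : s)
  | c

/-- index set of the generators -/
inductive Ix (s : Type)
  | base (n : ℕ)
  | tok (π : Pay s) (p : Ix s) (k : ℤ) (q : Ix s) (l : ℤ)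

/-- pairs of powers of generators -/
structure Bt (s : Type) where
  p : Ix s
  k : ℤ
  q : Ix s
  l : ℤ
  hpq : p ≠ q
  hk : k ≠ 0
  hl : l ≠ 0

variable {s : Type}

theorem Bt.eq' {β β' : Bt s} (h1 : β.p = β'.p) (h2 : β.k = β'.k) (h3 : β.q = β'.q)
    (h4 : β.l = β'.l) : β = β' := by
  cases β; cases β'; simp at *; exact ⟨h1, h2, h3, h4⟩

/-- the generator with a given payload -/
def tk (π : Pay s) (β : Bt s) : Ix s := .tok π β.p β.k β.q β.l

theorem tk_inj {π π' : Pay s} {β β' : Bt s} (h : tk π β = tk π' β') : π = π' ∧ β = β' := by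
  unfold tk at h
  injection h with h1 h2 h3 h4 h5
  exact ⟨h1, Bt.eq' h2 h3 h4 h5⟩

theorem tk_ne_p (π : Pay s) (β : Bt s) : tk π β ≠ β.p := by
  intro h
  have := congrArg sizeOf h
  simp [tk] at this
  omega

theorem tk_ne_q (π : Pay s) (β : Bt s) : tk π β ≠ β.q := by
  intro h
  have := congrArg sizeOf h
  simp [tk] at this
  omega

/-- first kind of roles -/
def RZ (β : Bt s) (x : Ix s × ℤ) (w : List Bool) : Prop :=
  (x = (β.p, β.k) ∧ w = []) ∨ x = (tk (.z w) β, 1)

/-- second kind of roles -/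
def RU (β : Bt s) (x : Ix s × ℤ) (w : List Bool) : Prop :=
  (x = (β.q, β.l) ∧ w = []) ∨ x = (tk (.u w) β, 1)

theorem RZ.unique {β : Bt s} {x : Ix s × ℤ} {w w' : List Bool} (h : RZ β x w)
    (h' : RZ β x w') : w = w' := by
  rcases h with ⟨h, e⟩ | h <;> rcases h' with ⟨h', e'⟩ | h'
  · rw [e, e']
  · rw [h] at h'
    exact absurd (congrArg Prod.fst h').symm (tk_ne_p _ _)
  · rw [h] at h'
    exact absurd (congrArg Prod.fst h') (tk_ne_p _ _)
  · rw [h] at h'
    have := (tk_inj (congrArg Prod.fst h')).1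
    injection this

theorem RU.unique {β : Bt s} {x : Ix s × ℤ} {w w' : List Bool} (h : RU β x w)
    (h' : RU β x w') : w = w' := by
  rcases h with ⟨h, e⟩ | h <;> rcases h' with ⟨h', e'⟩ | h'
  · rw [e, e']
  · rw [h] at h'
    exact absurd (congrArg Prod.fst h').symm (tk_ne_q _ _)
  · rw [h] at h'
    exact absurd (congrArg Prod.fst h') (tk_ne_q _ _)
  · rw [h] at h'
    have := (tk_inj (congrArg Prod.fst h')).1
    injection this

theorem RZ.ne_tk {β : Bt s} {x : Ix s × ℤ} {w : List Bool} (h : RZ β x w) {π : Pay s}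
    (hπ : ∀ w, π ≠ .z w) : x.1 ≠ tk π β := by
  rcases h with ⟨h, _⟩ | h
  · rw [h]; exact (tk_ne_p π β).symm
  · rw [h]; exact fun e => hπ _ (tk_inj e).1.symm

theorem RU.ne_tk {β : Bt s} {x : Ix s × ℤ} {w : List Bool} (h : RU β x w) {π : Pay s}
    (hπ : ∀ w, π ≠ .u w) : x.1 ≠ tk π β := by
  rcases h with ⟨h, _⟩ | h
  · rw [h]; exact (tk_ne_q π β).symm
  · rw [h]; exact fun e => hπ _ (tk_inj e).1.symm

theorem RZ.ne {β : Bt s} {x : Ix s × ℤ} {w : List Bool} (h : RZ β x w) : x.2 ≠ 0 := by
  rcases h with ⟨h, _⟩ | h <;> rw [h]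
  · exact β.hk
  · exact one_ne_zero

theorem RU.ne {β : Bt s} {x : Ix s × ℤ} {w : List Bool} (h : RU β x w) : x.2 ≠ 0 := by
  rcases h with ⟨h, _⟩ | h <;> rw [h]
  · exact β.hl
  · exact one_ne_zero

/-- codes of the words -/
def kP (b : Bool) : ℕ := if b then 2 else 1
def kQ (b : Bool) : ℕ := if b then 4 else 3

section
variable (α : Bool → s → s) (m0 M : s)

/-- the values of the words, on pairs of powers of generators -/
inductive Val : ℕ → Ix s × ℤ → Ix s × ℤ → Ix s → Prop
  | v (β : Bt s) : Val 0 (β.p, β.k) (β.q, β.l) (tk .v β)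
  | P (b : Bool) (β : Bt s) (x : Ix s × ℤ) (w : List Bool) (h : RZ β x w) :
      Val (kP b) x (tk .v β, 1) (tk (.z (w ++ [b])) β)
  | Q (b : Bool) (β : Bt s) (x : Ix s × ℤ) (w : List Bool) (h : RU β x w) :
      Val (kQ b) x (tk .v β, 1) (tk (.u (b :: w)) β)
  | H (β : Bt s) (x : Ix s × ℤ) (w : List Bool) (h : RZ β x w) :
      Val 5 x (tk .v β, 1) (tk (.h (actW α w m0)) β)
  | G (β : Bt s) (c : s) (y : Ix s × ℤ) (w : List Bool) (h : RU β y w)
      (hM : actW α w c = M) : Val 6 (tk (.h c) β, 1) y (tk .c β)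

variable {α m0 M}

theorem Val.unique {κ : ℕ} {x y : Ix s × ℤ} {i i' : Ix s} (h : Val α m0 M κ x y i)
    (h' : Val α m0 M κ x y i') : i = i' := by
  generalize hκ : κ = κ' at h'
  generalize hx : x = x' at h'
  generalize hy : y = y' at h'
  cases h with
  | v β =>
    cases h' with
    | v β' =>
      have h1 := Prod.mk.inj hx
      have h2 := Prod.mk.inj hy
      rw [Bt.eq' h1.1 h1.2 h2.1 h2.2]
    | P b β' x w h => cases b <;> simp [kP] at hκ
    | Q b β' x w h => cases b <;> simp [kQ] at hκ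
    | H β' x w h => simp at hκ
    | G β' c y w h hM => simp at hκ
  | P b β x w h =>
    cases h' with
    | v β' => cases b <;> simp [kP] at hκ
    | P b' β' x w h' =>
      subst hx
      have h1 := (tk_inj (congrArg Prod.fst hy)).2
      subst h1
      have hb : b = b' := by cases b <;> cases b' <;> simp [kP] at hκ ⊢
      rw [h.unique h', hb]
    | Q b' β' x w h => cases b <;> cases b' <;> simp [kP, kQ] at hκ
    | H β' x w h => cases b <;> simp [kP] at hκ
    | G β' c y w h hM => cases b <;> simp [kP] at hκ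
  | Q b β x w h =>
    cases h' with
    | v β' => cases b <;> simp [kQ] at hκ
    | P b' β' x w h' => cases b <;> cases b' <;> simp [kP, kQ] at hκ
    | Q b' β' x w h' =>
      subst hx
      have h1 := (tk_inj (congrArg Prod.fst hy)).2
      subst h1
      have hb : b = b' := by cases b <;> cases b' <;> simp [kQ] at hκ ⊢
      rw [h.unique h', hb]
    | H β' x w h => cases b <;> simp [kQ] at hκ
    | G β' c y w h hM => cases b <;> simp [kQ] at hκ
  | H β x w h =>
    cases h' with
    | v β' => simp at hκ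
    | P b' β' x w h' => cases b' <;> simp [kP] at hκ
    | Q b' β' x w h' => cases b' <;> simp [kQ] at hκ
    | H β' x w h' =>
      subst hx
      have h1 := (tk_inj (congrArg Prod.fst hy)).2
      subst h1
      rw [h.unique h']
    | G β' c y w h hM => simp at hκ
  | G β c y w h hM =>
    cases h' with
    | v β' => simp at hκ
    | P b' β' x w h' => cases b' <;> simp [kP] at hκ
    | Q b' β' x w h' => cases b' <;> simp [kQ] at hκ
    | H β' x w h' => simp at hκ
    | G β' c' y' w' h' hM' =>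
      have h1 := (tk_inj (congrArg Prod.fst hx)).2
      rw [h1]

theorem Val.fresh {κ : ℕ} {x y : Ix s × ℤ} {i : Ix s} (h : Val α m0 M κ x y i) :
    i ≠ x.1 ∧ i ≠ y.1 := by
  cases h with
  | v β => exact ⟨tk_ne_p _ _, tk_ne_q _ _⟩
  | P b β x w h =>
    constructor
    · intro e
      rcases h with ⟨h, _⟩ | h
      · rw [h] at e; exact tk_ne_p _ _ e
      · rw [h] at e
        have := (tk_inj e).1
        injection this with h1
        have := congrArg List.length h1
        simp at this
    · intro e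
      have := (tk_inj e).1
      injection this
  | Q b β x w h =>
    constructor
    · intro e
      rcases h with ⟨h, _⟩ | h
      · rw [h] at e; exact tk_ne_q _ _ e
      · rw [h] at e
        have := (tk_inj e).1
        injection this with h1
        have := congrArg List.length h1
        simp at this
    · intro e
      have := (tk_inj e).1
      injection this
  | H β x w h =>
    constructor
    · exact (h.ne_tk (by intro w; simp)).symm
    · intro e
      have := (tk_inj e).1
      injection this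
  | G β c y w h hM =>
    constructor
    · intro e
      have := (tk_inj e).1
      injection this
    · exact (h.ne_tk (by intro w; simp)).symm

theorem Val.lt {κ : ℕ} {x y : Ix s × ℤ} {i : Ix s} (h : Val α m0 M κ x y i) : κ < 7 := by
  cases h with
  | v β => norm_num
  | P b β x w h => cases b <;> simp [kP]
  | Q b β x w h => cases b <;> simp [kQ]
  | H β x w h => norm_num
  | G β c y w h hM => norm_num

/-- the arguments do not commute -/
theorem Val.ne {κ : ℕ} {x y : Ix s × ℤ} {i : Ix s} (h : Val α m0 M κ x y i) :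
    x.1 ≠ y.1 ∧ x.2 ≠ 0 ∧ y.2 ≠ 0 := by
  cases h with
  | v β => exact ⟨β.hpq, β.hk, β.hl⟩
  | P b β x w h => exact ⟨h.ne_tk (by intro w; simp), h.ne, one_ne_zero⟩
  | Q b β x w h => exact ⟨h.ne_tk (by intro w; simp), h.ne, one_ne_zero⟩
  | H β x w h => exact ⟨h.ne_tk (by intro w; simp), h.ne, one_ne_zero⟩
  | G β c y w h hM => exact ⟨(h.ne_tk (by intro w; simp)).symm, one_ne_zero, h.ne⟩

variable (α m0 M)

open Classical in
/-- the output function -/
noncomputable def outF (θ : Par (Ix s)) : Out (Ix s) :=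
  if h : ∃ i, Val α m0 M θ.κ (θ.p, θ.k) (θ.q, θ.l) i then .letter h.choose
  else if θ.κ = 7 then .second else .one

variable {α m0 M}

theorem outF_letter {θ : Par (Ix s)} {i : Ix s} (h : Val α m0 M θ.κ (θ.p, θ.k) (θ.q, θ.l) i) :
    outF α m0 M θ = .letter i := by
  have h' : ∃ i, Val α m0 M θ.κ (θ.p, θ.k) (θ.q, θ.l) i := ⟨i, h⟩
  unfold outF
  rw [dif_pos h', h'.choose_spec.unique h]

theorem fresh_outF : Fresh (outF α m0 M) := by
  intro θ i h
  unfold outF at h
  split_ifs at h with h1 h2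
  injection h with h
  rw [← h]
  exact h1.choose_spec.fresh

theorem ex_ne (i : Ix s) : ∃ j, j ≠ i := by
  cases i with
  | base n => exact ⟨.base (n + 1), by simp⟩
  | tok π p k q l => exact ⟨.base 0, by simp⟩

variable (α m0 M)

/-- the group of the model -/
abbrev GG : Type := Gp (outF α m0 M)

/-- powers of the generators -/
noncomputable def ev (x : Ix s × ℤ) : GG α m0 M := ge (outF α m0 M) x.1 ^ x.2

variable {α m0 M}

theorem ev_zero {x : Ix s × ℤ} (h : x.2 = 0) : ev α m0 M x = 1 := by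
  unfold ev; rw [h, zpow_zero]

theorem W_letter {κ : ℕ} {x y : Ix s × ℤ} {i : Ix s} (h : Val α m0 M κ x y i) :
    wW κ (ev α m0 M x) (ev α m0 M y) = ev α m0 M (i, 1) := by
  have h1 := wW_val (outF α m0 M) ⟨κ, x.1, x.2, y.1, y.2, by have := h.lt; omega, h.ne.1,
    h.ne.2.1, h.ne.2.2⟩
  rw [outF_letter (i := i) h] at h1
  unfold ev
  rw [zpow_one]
  exact h1

theorem comm_of {x y : Ix s × ℤ} (h : x.1 = y.1 ∨ x.2 = 0 ∨ y.2 = 0) :
    Commute (ev α m0 M x) (ev α m0 M y) := by
  rcases h with h | h | h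
  · unfold ev
    rw [h]
    exact Commute.zpow_zpow (Commute.refl _) _ _
  · rw [ev_zero h]; exact Commute.one_left _
  · rw [ev_zero h]; exact Commute.one_right _

theorem W_one {κ : ℕ} (hκ : κ < 7) {x y : Ix s × ℤ} (h : ∀ i, ¬ Val α m0 M κ x y i) :
    wW κ (ev α m0 M x) (ev α m0 M y) = 1 := by
  by_cases hc : x.1 = y.1 ∨ x.2 = 0 ∨ y.2 = 0
  · exact wW_comm (comm_of hc)
  · push Not at hc
    have h1 := wW_val (outF α m0 M) ⟨κ, x.1, x.2, y.1, y.2, by omega, hc.1, hc.2.1, hc.2.2⟩
    have h2 : outF α m0 M ⟨κ, x.1, x.2, y.1, y.2, by omega, hc.1, hc.2.1, hc.2.2⟩ = .one := by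
      unfold outF
      rw [dif_neg (by push Not; exact h), if_neg (by show ¬ κ = 7; omega)]
    rw [h2] at h1
    exact h1

theorem W_second {x y : Ix s × ℤ} (h : x.1 ≠ y.1) (hx : x.2 ≠ 0) (hy : y.2 ≠ 0) :
    wW 7 (ev α m0 M x) (ev α m0 M y) = ev α m0 M y := by
  have h1 := wW_val (outF α m0 M) ⟨7, x.1, x.2, y.1, y.2, by omega, h, hx, hy⟩
  have h2 : outF α m0 M ⟨7, x.1, x.2, y.1, y.2, by omega, h, hx, hy⟩ = .second := by
    unfold outF
    rw [dif_neg (by rintro ⟨i, hi⟩; exact absurd hi.lt (by norm_num)), if_pos rfl]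
  rw [h2] at h1
  exact h1

end

end Pool.Agent.H721.Rel
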