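import Pool.Agent.H721.Rel

set_option autoImplicit false

/-!
Windows of four syllables determine the relator and the position.
-/

namespace Pool.Agent.H721.Rel

open FreeGroup Pool.Agent.H721.SC

variable {I : Type}

/-- middle part of a relator -/
def mid (θ : Par I) (σ : Bool) (j : ℕ) : I × ℤ :=
  if σ then body θ j else ((body θ (799 - j)).1, -(body θ (799 - j)).2)

def lo (θ : Par I) (o : Out I) (σ : Bool) : ℕ := if σ then 0 else (tl θ o).length

theorem relO_get (θ : Par I) (o : Out I) (σ : Bool) (j : ℕ) (hj : j < 800) :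
    (relO θ o σ)[lo θ o σ + j]? = some (mid θ σ j) := by
  cases σ with
  | true =>
    have e : relO θ o true = (List.range 800).map (body θ) ++ tl θ o := rfl
    have e2 : lo θ o true + j = j := by simp [lo]
    rw [e, e2, List.getElem?_append_left (by simpa using hj), List.getElem?_map,
      List.getElem?_range hj]
    rfl
  | false =>
    have e : relO θ o false = invS (tl θ o) ++ invS ((List.range 800).map (body θ)) := by
      simp [relO, rel, invS]
    have e2 : lo θ o false + j = (invS (tl θ o)).length + j := by simp [lo, invS_length]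
    rw [e, e2, List.getElem?_append_right (by omega)]
    have e3 : (invS (tl θ o)).length + j - (invS (tl θ o)).length = j := by omega
    rw [e3]
    unfold invS
    rw [List.getElem?_reverse (by simpa using hj)]
    simp only [List.length_map, List.length_range, List.getElem?_map]
    have e4 : 800 - 1 - j = 799 - j := by omega
    rw [e4, List.getElem?_range (by omega)]
    rfl

theorem body_even (θ : Par I) (i : ℕ) : body θ (2 * i) = (θ.p, θ.k * xe θ.κ i) := by
  unfold body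
  rw [if_pos (by omega), show 2 * i / 2 = i by omega]

theorem body_odd (θ : Par I) (i : ℕ) : body θ (2 * i + 1) = (θ.q, θ.l * xe θ.κ i) := by
  unfold body
  rw [if_neg (by omega), show (2 * i + 1) / 2 = i by omega]

/-- the data read off a window -/
def Enc (θ : Par I) (σ : Bool) (j : ℕ) (g1 g2 : I) (A Y B Z : ℤ) : Prop :=
  ∃ i : ℕ, i < 400 ∧
    ((σ = true ∧ j = 2 * i ∧ g1 = θ.p ∧ g2 = θ.q ∧ A = (-1) ^ i * θ.k ∧ B = (-1) ^ i * θ.l ∧
      Y = 1000 + 400 * θ.κ + i ∧ Z = Y) ∨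
    (σ = true ∧ j = 2 * i + 1 ∧ g1 = θ.q ∧ g2 = θ.p ∧ A = (-1) ^ i * θ.l ∧
      B = -((-1) ^ i * θ.k) ∧ Y = 1000 + 400 * θ.κ + i ∧ Z = Y + 1) ∨
    (σ = false ∧ j + 2 * i = 796 ∧ g1 = θ.q ∧ g2 = θ.p ∧ A = -((-1) ^ i * θ.l) ∧
      B = -((-1) ^ i * θ.k) ∧ Y = -(1000 + 400 * θ.κ + i + 1) ∧ Z = Y) ∨
    (σ = false ∧ j + 2 * i = 795 ∧ g1 = θ.p ∧ g2 = θ.q ∧ A = (-1) ^ i * θ.k ∧
      B = -((-1) ^ i * θ.l) ∧ Y = -(1000 + 400 * θ.κ + i + 2) ∧ Z = Y + 1))

theorem eps_ne (i : ℕ) : ((-1 : ℤ)) ^ i ≠ 0 := pow_ne_zero _ (by norm_num)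

theorem enc (θ : Par I) (σ : Bool) (j : ℕ) (hj : j + 3 < 800) : ∃ g1 g2 A Y B Z,
    Enc θ σ j g1 g2 A Y B Z ∧ mid θ σ j = (g1, A * Y) ∧ mid θ σ (j + 1) = (g2, B * Z) ∧
    mid θ σ (j + 2) = (g1, -(A * (Y + 1))) ∧ mid θ σ (j + 3) = (g2, -(B * (Z + 1))) ∧
    A ≠ 0 ∧ B ≠ 0 ∧ g1 ≠ g2 := by
  have hk := θ.hk
  have hl := θ.hl
  have hpq := θ.hpq
  cases σ with
  | true =>
    have hm : ∀ t, mid θ true t = body θ t := fun t => by simp [mid]
    simp only [hm]
    rcases Nat.even_or_odd' j with ⟨i, rfl | rfl⟩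
    · refine ⟨θ.p, θ.q, (-1) ^ i * θ.k, 1000 + 400 * θ.κ + i, (-1) ^ i * θ.l,
        1000 + 400 * θ.κ + i, ⟨i, by omega, Or.inl ⟨rfl, rfl, rfl, rfl, rfl, rfl, rfl, rfl⟩⟩,
        ?_, ?_, ?_, ?_, mul_ne_zero (eps_ne i) hk, mul_ne_zero (eps_ne i) hl, hpq⟩
      · rw [body_even]; unfold xe; congr 1; ring
      · rw [body_odd]; unfold xe; congr 1; ring
      · rw [show 2 * i + 2 = 2 * (i + 1) by ring, body_even]; unfold xe
        congr 1; rw [pow_succ]; push_cast; ring
      · rw [show 2 * i + 3 = 2 * (i + 1) + 1 by ring, body_odd]; unfold xe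
        congr 1; rw [pow_succ]; push_cast; ring
    · refine ⟨θ.q, θ.p, (-1) ^ i * θ.l, 1000 + 400 * θ.κ + i, -((-1) ^ i * θ.k),
        1000 + 400 * θ.κ + i + 1,
        ⟨i, by omega, Or.inr (Or.inl ⟨rfl, rfl, rfl, rfl, rfl, rfl, rfl, rfl⟩)⟩,
        ?_, ?_, ?_, ?_, mul_ne_zero (eps_ne i) hl, neg_ne_zero.mpr (mul_ne_zero (eps_ne i) hk),
        hpq.symm⟩
      · rw [body_odd]; unfold xe; congr 1; ring
      · rw [show 2 * i + 1 + 1 = 2 * (i + 1) by ring, body_even]; unfold xe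
        congr 1; rw [pow_succ]; push_cast; ring
      · rw [show 2 * i + 1 + 2 = 2 * (i + 1) + 1 by ring, body_odd]; unfold xe
        congr 1; rw [pow_succ]; push_cast; ring
      · rw [show 2 * i + 1 + 3 = 2 * (i + 2) by ring, body_even]; unfold xe
        congr 1; rw [pow_add]; push_cast; ring
  | false =>
    have hm : ∀ t, mid θ false t = ((body θ (799 - t)).1, -(body θ (799 - t)).2) :=
      fun t => by simp [mid]
    simp only [hm]
    rcases Nat.even_or_odd j with hj2 | hj2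
    · obtain ⟨i, hi⟩ : ∃ i, j + 2 * i = 796 := ⟨(796 - j) / 2, by
        have := Nat.even_iff.mp hj2; omega⟩
      refine ⟨θ.q, θ.p, -((-1) ^ i * θ.l), -(1000 + 400 * θ.κ + i + 1), -((-1) ^ i * θ.k),
        -(1000 + 400 * θ.κ + i + 1),
        ⟨i, by omega, Or.inr (Or.inr (Or.inl ⟨rfl, hi, rfl, rfl, rfl, rfl, rfl, rfl⟩))⟩,
        ?_, ?_, ?_, ?_, neg_ne_zero.mpr (mul_ne_zero (eps_ne i) hl),
        neg_ne_zero.mpr (mul_ne_zero (eps_ne i) hk), hpq.symm⟩
      · rw [show 799 - j = 2 * (i + 1) + 1 by omega, body_odd]; unfold xe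
        congr 1; rw [pow_succ]; push_cast; ring
      · rw [show 799 - (j + 1) = 2 * (i + 1) by omega, body_even]; unfold xe
        congr 1; rw [pow_succ]; push_cast; ring
      · rw [show 799 - (j + 2) = 2 * i + 1 by omega, body_odd]; unfold xe
        congr 1; ring
      · rw [show 799 - (j + 3) = 2 * i by omega, body_even]; unfold xe
        congr 1; ring
    · obtain ⟨i, hi⟩ : ∃ i, j + 2 * i = 795 := ⟨(795 - j) / 2, by
        have := Nat.odd_iff.mp hj2; omega⟩
      refine ⟨θ.p, θ.q, (-1) ^ i * θ.k, -(1000 + 400 * θ.κ + i + 2), -((-1) ^ i * θ.l),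
        -(1000 + 400 * θ.κ + i + 2) + 1,
        ⟨i, by omega, Or.inr (Or.inr (Or.inr ⟨rfl, hi, rfl, rfl, rfl, rfl, rfl, rfl⟩))⟩,
        ?_, ?_, ?_, ?_, mul_ne_zero (eps_ne i) hk,
        neg_ne_zero.mpr (mul_ne_zero (eps_ne i) hl), hpq⟩
      · rw [show 799 - j = 2 * (i + 2) by omega, body_even]; unfold xe
        congr 1; rw [pow_add]; push_cast; ring
      · rw [show 799 - (j + 1) = 2 * (i + 1) + 1 by omega, body_odd]; unfold xe
        congr 1; rw [pow_succ]; push_cast; ring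
      · rw [show 799 - (j + 2) = 2 * (i + 1) by omega, body_even]; unfold xe
        congr 1; rw [pow_succ]; push_cast; ring
      · rw [show 799 - (j + 3) = 2 * i + 1 by omega, body_odd]; unfold xe
        congr 1; ring

theorem Par.eq' {θ θ' : Par I} (h1 : θ.κ = θ'.κ) (h2 : θ.p = θ'.p) (h3 : θ.k = θ'.k)
    (h4 : θ.q = θ'.q) (h5 : θ.l = θ'.l) : θ = θ' := by
  cases θ; cases θ'; simp at *; exact ⟨h1, h2, h3, h4, h5⟩

theorem decode {θ θ' : Par I} {σ σ' : Bool} {j j' : ℕ} {g1 g2 : I} {A Y B Z : ℤ}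
    (h : Enc θ σ j g1 g2 A Y B Z) (h' : Enc θ' σ' j' g1 g2 A Y B Z) :
    θ = θ' ∧ σ = σ' ∧ j = j' := by
  obtain ⟨i, hi, h⟩ := h
  obtain ⟨i', hi', h'⟩ := h'
  have hκ := θ.hκ
  have hκ' := θ'.hκ
  rcases h with ⟨a1, a2, a3, a4, a5, a6, a7, a8⟩ | ⟨a1, a2, a3, a4, a5, a6, a7, a8⟩ |
    ⟨a1, a2, a3, a4, a5, a6, a7, a8⟩ | ⟨a1, a2, a3, a4, a5, a6, a7, a8⟩ <;>
  rcases h' with ⟨b1, b2, b3, b4, b5, b6, b7, b8⟩ | ⟨b1, b2, b3, b4, b5, b6, b7, b8⟩ |
    ⟨b1, b2, b3, b4, b5, b6, b7, b8⟩ | ⟨b1, b2, b3, b4, b5, b6, b7, b8⟩ <;>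
  first
  | (exfalso; omega)
  | (have e1 : θ.κ = θ'.κ := by omega
     have e2 : i = i' := by omega
     subst e2
     refine ⟨?_, by rw [a1, b1], by omega⟩
     have e3 := a5.symm.trans b5
     have e4 := a6.symm.trans b6
     have e5 := eps_ne i
     apply Par.eq' e1
     · first
       | exact a3.symm.trans b3
       | exact a4.symm.trans b4
     · first
       | exact mul_left_cancel₀ e5 e3
       | exact mul_left_cancel₀ e5 e4
       | exact mul_left_cancel₀ e5 (neg_injective e3)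
       | exact mul_left_cancel₀ e5 (neg_injective e4)
     · first
       | exact a4.symm.trans b4
       | exact a3.symm.trans b3
     · first
       | exact mul_left_cancel₀ e5 e4
       | exact mul_left_cancel₀ e5 e3
       | exact mul_left_cancel₀ e5 (neg_injective e4)
       | exact mul_left_cancel₀ e5 (neg_injective e3))

/-- windows determine relator, orientation and position -/
theorem win_eq {θ θ' : Par I} {σ σ' : Bool} {j j' : ℕ} (hj : j + 3 < 800) (hj' : j' + 3 < 800)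
    (h : ∀ e < 4, mid θ σ (j + e) = mid θ' σ' (j' + e)) : θ = θ' ∧ σ = σ' ∧ j = j' := by
  obtain ⟨g1, g2, A, Y, B, Z, hE, h0, h1, h2, h3, hA, hB, _⟩ := enc θ σ j hj
  obtain ⟨g1', g2', A', Y', B', Z', hE', h0', h1', h2', h3', hA', hB', _⟩ := enc θ' σ' j' hj'
  have t0 := h 0 (by norm_num)
  have t1 := h 1 (by norm_num)
  have t2 := h 2 (by norm_num)
  have t3 := h 3 (by norm_num)
  rw [Nat.add_zero, Nat.add_zero, h0, h0'] at t0
  rw [h1, h1'] at t1
  rw [h2, h2'] at t2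
  rw [h3, h3'] at t3
  have u0 := Prod.mk.inj t0
  have u1 := Prod.mk.inj t1
  have u2 := Prod.mk.inj t2
  have u3 := Prod.mk.inj t3
  have eA : A = A' := by
    have := neg_injective u2.2
    have e := u0.2
    linear_combination this - e
  have eB : B = B' := by
    have := neg_injective u3.2
    have e := u1.2
    linear_combination this - e
  have eY : Y = Y' := by
    apply mul_left_cancel₀ hA
    rw [u0.2, eA]
  have eZ : Z = Z' := by
    apply mul_left_cancel₀ hB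
    rw [u1.2, eB]
  have e1 := u0.1
  have e2 := u1.1
  subst eA eB eY eZ e1 e2
  exact decode hE hE'

end Pool.Agent.H721.Rel
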